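import Mathlib

/-!
# The theorem of Kolchin and Ostrowski on primitives

`F` is a field with a derivation `δ` whose constants are `k`, `A` is a differential subfield.
Elements of `F` whose derivatives lie in `A` and which are linearly independent over `k`
modulo `A` are algebraically independent over `A`.
-/

set_option autoImplicit false
set_option linter.unusedSectionVars false

open MvPolynomial

namespace Pool.Agent.Helper65_Leo

section

variable {k A F κ : Type*} [Field k] [Field A] [Field F] [Algebra k A] [Algebra A F]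
  [Algebra k F] [IsScalarTower k A F]

/-- The derivation applied to the coefficients of a polynomial. -/
noncomputable def coeffDer (δA : Derivation k A A) (P : MvPolynomial κ A) : MvPolynomial κ A :=
  ∑ m ∈ P.support, monomial m (δA (P.coeff m))

theorem coeff_coeffDer (δA : Derivation k A A) (P : MvPolynomial κ A) (n : κ →₀ ℕ) :
    (coeffDer δA P).coeff n = δA (P.coeff n) := by
  classical
  unfold coeffDer
  rw [coeff_sum]
  simp only [coeff_monomial]
  rw [Finset.sum_ite_eq']
  split_ifs with h
  · rfl
  · rw [notMem_support_iff.1 h, map_zero]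

theorem coeffDer_add (δA : Derivation k A A) (P Q : MvPolynomial κ A) :
    coeffDer δA (P + Q) = coeffDer δA P + coeffDer δA Q := by
  ext n
  rw [coeff_add, coeff_coeffDer, coeff_coeffDer, coeff_coeffDer, coeff_add, map_add]

theorem coeffDer_C (δA : Derivation k A A) (a : A) :
    coeffDer δA (C a : MvPolynomial κ A) = C (δA a) := by
  classical
  ext n
  rw [coeff_coeffDer, coeff_C, coeff_C]
  split_ifs <;> simp

theorem coeffDer_mul_X (δA : Derivation k A A) (P : MvPolynomial κ A) (i : κ) :
    coeffDer δA (P * X i) = coeffDer δA P * X i := by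
  classical
  ext n
  rw [coeff_coeffDer, coeff_mul_X', coeff_mul_X']
  split_ifs
  · rw [coeff_coeffDer]
  · rw [map_zero]

variable [Fintype κ]

/-- The derivation on polynomials compatible with evaluation at `y`, where `y i` has
derivative `η i`. -/
noncomputable def polyDer (δA : Derivation k A A) (η : κ → A) (P : MvPolynomial κ A) :
    MvPolynomial κ A :=
  coeffDer δA P + ∑ i, pderiv i P * C (η i)

theorem coeff_polyDer (δA : Derivation k A A) (η : κ → A) (P : MvPolynomial κ A)
    (n : κ →₀ ℕ) :
    (polyDer δA η P).coeff n = δA (P.coeff n) +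
      ∑ i, P.coeff (n + Finsupp.single i 1) * (n i + 1) * η i := by
  unfold polyDer
  rw [coeff_add, coeff_coeffDer, coeff_sum]
  congr 1
  refine Finset.sum_congr rfl fun i _ => ?_
  rw [mul_comm, coeff_C_mul, coeff_pderiv]
  ring

theorem aeval_polyDer (δA : Derivation k A A) (δ : Derivation k F F)
    (hδ : ∀ a, δ (algebraMap A F a) = algebraMap A F (δA a)) (y : κ → F) (η : κ → A)
    (hy : ∀ i, δ (y i) = algebraMap A F (η i)) (P : MvPolynomial κ A) :
    aeval y (polyDer δA η P) = δ (aeval y P) := by
  classical
  induction P using MvPolynomial.induction_on with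
  | C a =>
    unfold polyDer
    simp [coeffDer_C, hδ]
  | add P Q hP hQ =>
    have : polyDer δA η (P + Q) = polyDer δA η P + polyDer δA η Q := by
      unfold polyDer
      rw [coeffDer_add]
      simp only [map_add, add_mul, Finset.sum_add_distrib]
      ring
    rw [this, map_add, map_add, map_add, hP, hQ]
  | mul_X P i hP =>
    have : polyDer δA η (P * X i) = polyDer δA η P * X i + P * C (η i) := by
      unfold polyDer
      rw [coeffDer_mul_X]
      have h1 : ∀ j, pderiv j (P * X i) * C (η j) =
          pderiv j P * C (η j) * X i + (if j = i then P * C (η j) else 0) := by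
        intro j
        rw [pderiv_mul]
        by_cases hji : j = i
        · subst hji
          rw [pderiv_X_self, if_pos rfl]
          ring
        · rw [pderiv_X_of_ne (Ne.symm hji), if_neg hji]
          ring
      simp only [h1, Finset.sum_add_distrib]
      rw [Finset.sum_ite_eq' Finset.univ i]
      simp only [Finset.mem_univ, if_true]
      rw [add_mul, Finset.sum_mul]
      ring
    rw [this, map_add, map_mul, map_mul, hP, aeval_X, aeval_C, map_mul, aeval_X,
      Derivation.leibniz, hy]
    simp only [smul_eq_mul]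
    ring

/-- **Kolchin–Ostrowski.** -/
theorem algebraicIndependent_of_primitives [CharZero A] (δA : Derivation k A A)
    (δ : Derivation k F F)
    (hδ : ∀ a, δ (algebraMap A F a) = algebraMap A F (δA a))
    (hconst : ∀ x : F, δ x = 0 → x ∈ Set.range (algebraMap k F))
    (y : κ → F) (η : κ → A)
    (hy : ∀ i, δ (y i) = algebraMap A F (η i))
    (hind : ∀ c : κ → k, (∑ i, algebraMap k F (c i) * y i) ∈ Set.range (algebraMap A F) → c = 0) :
    AlgebraicIndependent A y := by
  classical
  rw [algebraicIndependent_iff]
  by_contra hcon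
  push Not at hcon
  -- minimal total degree
  have hex : ∃ d : ℕ, ∃ P : MvPolynomial κ A, aeval y P = 0 ∧ P ≠ 0 ∧ P.totalDegree = d := by
    obtain ⟨P, h1, h2⟩ := hcon
    exact ⟨_, P, h1, h2, rfl⟩
  set d := Nat.find hex with hd
  obtain ⟨P₀, hP₀1, hP₀2, hP₀3⟩ := Nat.find_spec hex
  have hmin : ∀ P : MvPolynomial κ A, aeval y P = 0 → P ≠ 0 → d ≤ P.totalDegree := by
    intro P h1 h2
    exact Nat.find_min' hex ⟨P, h1, h2, rfl⟩
  -- number of monomials of top degree
  let N : MvPolynomial κ A → ℕ := fun P => (P.support.filter fun m => m.degree = d).card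
  have hex2 : ∃ c : ℕ, ∃ P : MvPolynomial κ A,
      aeval y P = 0 ∧ P ≠ 0 ∧ P.totalDegree ≤ d ∧ N P = c :=
    ⟨_, P₀, hP₀1, hP₀2, hP₀3.le, rfl⟩
  obtain ⟨P, hP1, hP2, hP3, hP4⟩ := Nat.find_spec hex2
  have hmin2 : ∀ Q : MvPolynomial κ A, aeval y Q = 0 → Q ≠ 0 → Q.totalDegree ≤ d → N P ≤ N Q := by
    intro Q h1 h2 h3
    rw [hP4]
    exact Nat.find_min' hex2 ⟨Q, h1, h2, h3, rfl⟩
  have hPd : P.totalDegree = d := le_antisymm hP3 (hmin P hP1 hP2)
  -- coefficients of large degree vanish
  have hbig : ∀ m : κ →₀ ℕ, d < m.degree → P.coeff m = 0 := by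
    intro m hm
    by_contra h
    have h1 := MvPolynomial.le_totalDegree (mem_support_iff.2 h)
    rw [hPd] at h1
    have h2 : m.degree = m.sum fun _ e => e := by
      rw [Finsupp.degree]; rfl
    omega
  -- a top monomial
  obtain ⟨α, hα, hαd⟩ : ∃ α : κ →₀ ℕ, P.coeff α ≠ 0 ∧ α.degree = d := by
    obtain ⟨m, hm, hm2⟩ : ∃ m ∈ P.support, P.totalDegree = m.sum fun _ e => e := by
      have hne : P.support.Nonempty := by
        rw [Finset.nonempty_iff_ne_empty, Ne, support_eq_empty]
        exact hP2
      exact Finset.exists_mem_eq_sup _ hne _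
    refine ⟨m, mem_support_iff.1 hm, ?_⟩
    rw [← hPd, hm2, Finsupp.degree]; rfl
  set a := P.coeff α with ha
  -- the normalised polynomial
  set R : MvPolynomial κ A := C a⁻¹ * P with hR
  have hRc : ∀ m, R.coeff m = a⁻¹ * P.coeff m := fun m => coeff_C_mul _ _ _
  have hRα : R.coeff α = 1 := by rw [hRc, ← ha, inv_mul_cancel₀ hα]
  have hR1 : aeval y R = 0 := by rw [hR, map_mul, hP1, mul_zero]
  have hRbig : ∀ m : κ →₀ ℕ, d < m.degree → R.coeff m = 0 := by
    intro m hm; rw [hRc, hbig m hm, mul_zero]
  -- the derivative of `R` vanishes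
  have hDR : polyDer δA η R = 0 := by
    by_contra hne
    have h1 : aeval y (polyDer δA η R) = 0 := by
      rw [aeval_polyDer δA δ hδ y η hy, hR1, map_zero]
    have hdeg : ∀ (m : κ →₀ ℕ) (i : κ), (m + Finsupp.single i 1).degree = m.degree + 1 := by
      intro m i
      rw [map_add, Finsupp.degree_single]
    have hcoeff : ∀ m : κ →₀ ℕ, d ≤ m.degree →
        (polyDer δA η R).coeff m = δA (R.coeff m) := by
      intro m hm
      rw [coeff_polyDer]
      rw [Finset.sum_eq_zero, add_zero]
      intro i _
      rw [hRbig _ (by rw [hdeg]; omega)]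
      ring
    have h2 : (polyDer δA η R).totalDegree ≤ d := by
      refine Finset.sup_le fun m hm => ?_
      by_contra hlt
      push Not at hlt
      have hlt' : d < m.degree := by
        rw [Finsupp.degree]; exact hlt
      apply mem_support_iff.1 hm
      rw [hcoeff m hlt'.le, hRbig m hlt', map_zero]
    have h3 := hmin2 _ h1 hne h2
    have h4 : N (polyDer δA η R) < N P := by
      apply Finset.card_lt_card
      rw [Finset.ssubset_iff_of_subset]
      · refine ⟨α, Finset.mem_filter.2 ⟨mem_support_iff.2 hα, hαd⟩, ?_⟩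
        intro hmem
        apply mem_support_iff.1 (Finset.mem_filter.1 hmem).1
        rw [hcoeff α hαd.ge, hRα]
        simp
      · intro m hm
        obtain ⟨hm1, hm2⟩ := Finset.mem_filter.1 hm
        refine Finset.mem_filter.2 ⟨?_, hm2⟩
        rw [mem_support_iff] at hm1 ⊢
        intro h0
        apply hm1
        rw [hcoeff m hm2.ge, hRc, h0, mul_zero, map_zero]
    omega
  -- the degree is positive
  have hdpos : d ≠ 0 := by
    intro h0
    have h1 : P.totalDegree = 0 := hPd.trans h0
    obtain ⟨c, hc⟩ : ∃ c, P = C c := ⟨_, totalDegree_eq_zero_iff_eq_C.1 h1⟩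
    rw [hc, aeval_C] at hP1
    have h2 : c = 0 := (map_eq_zero _).1 hP1
    apply hP2
    rw [hc, h2, map_zero]
  obtain ⟨i₀, hi₀⟩ : ∃ i, α i ≠ 0 := by
    by_contra h
    push Not at h
    have : α = 0 := Finsupp.ext h
    rw [this] at hαd
    simp at hαd
    exact hdpos hαd.symm
  set β : κ →₀ ℕ := α - Finsupp.single i₀ 1 with hβ
  have hβα : β + Finsupp.single i₀ 1 = α := by
    rw [hβ]
    apply tsub_add_cancel_of_le
    rw [Finsupp.single_le_iff]
    omega
  have hβd : β.degree + 1 = d := by
    rw [← hαd, ← hβα, map_add, Finsupp.degree_single]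
  -- top coefficients are constants
  have hInjA : Function.Injective (algebraMap A F) := (algebraMap A F).injective
  have hconstA : ∀ x : A, δA x = 0 → x ∈ Set.range (algebraMap k A) := by
    intro x hx
    obtain ⟨c, hc⟩ := hconst (algebraMap A F x) (by rw [hδ, hx, map_zero])
    refine ⟨c, ?_⟩
    apply hInjA
    rw [← IsScalarTower.algebraMap_apply, hc]
  have htop : ∀ i, ∃ c : k, algebraMap k A c = R.coeff (β + Finsupp.single i 1) * (β i + 1) := by
    intro i
    have h1 : δA (R.coeff (β + Finsupp.single i 1)) = 0 := by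
      have h2 := congrArg (coeff (β + Finsupp.single i 1)) hDR
      rw [coeff_polyDer, coeff_zero] at h2
      rw [Finset.sum_eq_zero, add_zero] at h2
      · exact h2
      · intro j _
        rw [hRbig _ (by rw [map_add, map_add, Finsupp.degree_single, Finsupp.degree_single]; omega)]
        ring
    obtain ⟨c, hc⟩ := hconstA _ h1
    refine ⟨c * ((β i : k) + 1), ?_⟩
    rw [map_mul, hc, map_add, map_natCast, map_one]
  choose c hc using htop
  have hzero := congrArg (coeff β) hDR
  rw [coeff_polyDer, coeff_zero] at hzero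
  -- the linear combination
  have hlin : δ (algebraMap A F (R.coeff β) + ∑ i, algebraMap k F (c i) * y i) = 0 := by
    rw [map_add, map_sum, hδ]
    have h1 : ∀ i, δ (algebraMap k F (c i) * y i) =
        algebraMap A F (R.coeff (β + Finsupp.single i 1) * (β i + 1) * η i) := by
      intro i
      rw [Derivation.leibniz, Derivation.map_algebraMap, smul_zero, add_zero, smul_eq_mul, hy,
        map_mul, ← hc, ← IsScalarTower.algebraMap_apply]
    simp only [h1]
    rw [← map_sum, ← map_add, hzero, map_zero]
  obtain ⟨c₀, hc₀⟩ := hconst _ hlin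
  have hc0 := hind c ⟨algebraMap k A c₀ - R.coeff β, by
    rw [map_sub, ← IsScalarTower.algebraMap_apply, hc₀]; ring⟩
  have h1 := hc i₀
  rw [hc0, Pi.zero_apply, map_zero, hβα, hRα, one_mul] at h1
  exact Nat.cast_add_one_ne_zero (β i₀) h1.symm

/-- If the determinant of a matrix of primitives of elements of `A` vanishes, then so does the
determinant of the matrix of residues of these elements; `res` is any `k`-linear functional on
`A` which kills derivatives. -/
theorem det_res_eq_zero [CharZero A] {ι : Type*} [Fintype ι] [DecidableEq ι]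
    (δA : Derivation k A A) (δ : Derivation k F F)
    (hδ : ∀ a, δ (algebraMap A F a) = algebraMap A F (δA a))
    (hconst : ∀ x : F, δ x = 0 → x ∈ Set.range (algebraMap k F))
    (res : A →ₗ[k] k) (hres : ∀ a, res (δA a) = 0)
    (L : ι → ι → F) (ω : ι → ι → A) (hL : ∀ i j, δ (L i j) = algebraMap A F (ω i j))
    (hdet : (Matrix.of L).det = 0) : (Matrix.of fun i j => res (ω i j)).det = 0 := by
  classical
  let Rg : Submodule k F := LinearMap.range ((IsScalarTower.toAlgHom k A F).toLinearMap)
  let v : ι × ι → F ⧸ Rg := fun q => Rg.mkQ (L q.1 q.2)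
  obtain ⟨κ, a, ha, hspan, hli⟩ := exists_linearIndependent' k v
  have : Finite κ := Finite.of_injective a ha
  have := Fintype.ofFinite κ
  let y : κ → F := fun l => L (a l).1 (a l).2
  have hmemRg : ∀ x : F, x ∈ Rg ↔ x ∈ Set.range (algebraMap A F) := by
    intro x
    simp only [Rg, LinearMap.mem_range, Set.mem_range]
    rfl
  have hind : ∀ c : κ → k, (∑ i, algebraMap k F (c i) * y i) ∈ Set.range (algebraMap A F) →
      c = 0 := by
    intro c hc
    rw [Fintype.linearIndependent_iff] at hli
    funext l
    refine hli c ?_ l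
    have h1 : ∑ i, c i • (v ∘ a) i = Rg.mkQ (∑ i, algebraMap k F (c i) * y i) := by
      rw [map_sum]
      refine Finset.sum_congr rfl fun i _ => ?_
      rw [← Algebra.smul_def, map_smul]
      rfl
    rw [h1, Submodule.mkQ_apply, Submodule.Quotient.mk_eq_zero, hmemRg]
    exact hc
  have hai := algebraicIndependent_of_primitives δA δ hδ hconst y
    (fun l => ω (a l).1 (a l).2) (fun l => hL _ _) hind
  -- expressing all entries
  have hexp : ∀ i j, ∃ (c : κ → k) (b : A),
      L i j = algebraMap A F b + ∑ l, algebraMap k F (c l) * y l := by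
    intro i j
    have h1 : v (i, j) ∈ Submodule.span k (Set.range (v ∘ a)) := by
      rw [hspan]
      exact Submodule.subset_span ⟨(i, j), rfl⟩
    rw [Submodule.mem_span_range_iff_exists_fun] at h1
    obtain ⟨c, hc⟩ := h1
    have h2 : Rg.mkQ (L i j - ∑ l, algebraMap k F (c l) * y l) = 0 := by
      rw [map_sub, sub_eq_zero]
      change v (i, j) = _
      rw [← hc, map_sum]
      refine Finset.sum_congr rfl fun l _ => ?_
      rw [← Algebra.smul_def, map_smul]
      rfl
    rw [Submodule.mkQ_apply, Submodule.Quotient.mk_eq_zero, hmemRg] at h2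
    obtain ⟨b, hb⟩ := h2
    exact ⟨c, b, by rw [hb]; ring⟩
  choose c b hcb using hexp
  let M : Matrix ι ι (MvPolynomial κ A) := Matrix.of fun i j =>
    C (b i j) + ∑ l, C (algebraMap k A (c i j l)) * X l
  have hM : M.det = 0 := by
    have h1 : aeval y M.det = 0 := by
      rw [← hdet, AlgHom.map_det]
      congr 1
      ext i j
      simp only [M, AlgHom.mapMatrix_apply, Matrix.map_apply, Matrix.of_apply, map_add, map_sum,
        map_mul, aeval_C, aeval_X, hcb i j, ← IsScalarTower.algebraMap_apply]
    exact (algebraicIndependent_iff.1 hai) _ h1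
  -- specialise the variables to multiples of one variable
  let φ : MvPolynomial κ A →ₐ[A] Polynomial A :=
    aeval fun l => Polynomial.C (algebraMap k A (res (ω (a l).1 (a l).2))) * Polynomial.X
  have hφ : (φ M.det) = 0 := by rw [hM, map_zero]
  have hw : ∀ i j, algebraMap k A (res (ω i j)) =
      ∑ l, algebraMap k A (c i j l) * algebraMap k A (res (ω (a l).1 (a l).2)) := by
    intro i j
    have h1 : ω i j = δA (b i j) + ∑ l, c i j l • ω (a l).1 (a l).2 := by
      apply (algebraMap A F).injective
      rw [← hL, hcb i j, map_add, hδ, map_add, map_sum, map_sum]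
      congr 1
      refine Finset.sum_congr rfl fun l _ => ?_
      rw [Derivation.leibniz, Derivation.map_algebraMap, smul_zero, add_zero, smul_eq_mul,
        Algebra.smul_def, map_mul, ← IsScalarTower.algebraMap_apply]
      congr 1
      exact hL _ _
    rw [h1, map_add, hres, zero_add, map_sum, map_sum]
    refine Finset.sum_congr rfl fun l _ => ?_
    rw [map_smul, smul_eq_mul, map_mul]
  have h3 : φ M.det = ((Polynomial.X : Polynomial A) •
      (Matrix.of fun i j => algebraMap k A (res (ω i j))).map Polynomial.C +
      (Matrix.of b).map Polynomial.C).det := by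
    rw [AlgHom.map_det]
    congr 1
    ext1 i j
    simp only [M, AlgHom.mapMatrix_apply, Matrix.map_apply, Matrix.of_apply, map_add, map_sum,
      map_mul, Matrix.add_apply, Matrix.smul_apply, hw i j, φ, algHom_C, aeval_X, smul_eq_mul]
    rw [add_comm]
    congr 1
    rw [Finset.mul_sum]
    refine Finset.sum_congr rfl fun l _ => ?_
    simp only [Polynomial.algebraMap_eq]
    ring
  have h4 := Polynomial.coeff_det_X_add_C_card
    (Matrix.of fun i j => algebraMap k A (res (ω i j))) (Matrix.of b)
  rw [← h3, hφ, Polynomial.coeff_zero] at h4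
  have h5 : (Matrix.of fun i j => algebraMap k A (res (ω i j))) =
      (Matrix.of fun i j => res (ω i j)).map (algebraMap k A) := rfl
  rw [h5, ← RingHom.mapMatrix_apply, ← RingHom.map_det] at h4
  exact (map_eq_zero _).1 h4.symm

end

end Pool.Agent.Helper65_Leo
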