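import Pool.Agent.Helper85_Leo.LogP

/-!
# Analyticity of `p`-adic logarithms of analytic functions
-/

set_option autoImplicit false
set_option linter.unusedSectionVars false

open Filter Topology Pool.Agent.Helper85_Leo

namespace Pool.Agent.Helper65_Leo

variable (p : ℕ) [hp : Fact p.Prime] {k : Type*} [NontriviallyNormedField k]
  [NormedAlgebra ℚ_[p] k] [CompleteSpace k]

/-- The series of `log (1 - y)`. -/
noncomputable def logSer (k : Type*) [NontriviallyNormedField k] : FormalMultilinearSeries k k k :=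
  FormalMultilinearSeries.ofScalars k fun n => -((n : k)⁻¹)

/-- The sum of the series. -/
noncomputable def logFun (y : k) : k := (logSer k).sum y

include p in
theorem one_le_radius : 1 ≤ (logSer k).radius := by
  have hchar := charZero_of_padic p k
  refine ENNReal.le_of_forall_nnreal_lt fun r hr => ?_
  have hr1 : (r : ℝ) < 1 := by exact_mod_cast hr
  have h1 : Tendsto (fun n : ℕ => (n : ℝ) * (r : ℝ) ^ n) atTop (𝓝 0) :=
    tendsto_self_mul_const_pow_of_lt_one r.2 hr1
  refine FormalMultilinearSeries.le_radius_of_tendsto _ (l := 0) ?_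
  refine squeeze_zero (fun n => by positivity) (fun n => ?_) h1
  refine mul_le_mul_of_nonneg_right ?_ (by positivity)
  unfold logSer
  rw [FormalMultilinearSeries.ofScalars_norm, norm_neg, norm_inv]
  rcases Nat.eq_zero_or_pos n with h | h
  · subst h
    simp
  · exact norm_natCast_inv_le p n h.ne'

include p in
theorem logFun_eq (y : k) (hy : ‖y‖ < 1) :
    logFun y = -∑' n : ℕ, y ^ (n + 1) / ((n + 1 : ℕ) : k) := by
  have h1 : logFun y = ∑' n : ℕ, -((n : k)⁻¹) * y ^ n := by
    unfold logFun logSer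
    have := FormalMultilinearSeries.ofScalars_sum_eq (𝕜 := k) (E := k)
      (fun n : ℕ => -((n : k)⁻¹)) y
    unfold FormalMultilinearSeries.ofScalarsSum at this
    rw [this]
    simp only [smul_eq_mul]
  have hchar := charZero_of_padic p k
  have hsum : Summable fun n : ℕ => -((n : k)⁻¹) * y ^ n := by
    have h2 : Summable fun n : ℕ => (n : ℝ) * ‖y‖ ^ n := by
      have h := summable_pow_mul_geometric_of_norm_lt_one (R := ℝ) 1 (r := ‖y‖) (by simpa using hy)
      simpa using h
    refine Summable.of_norm_bounded h2 fun n => ?_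
    rw [norm_mul, norm_neg, norm_inv, norm_pow]
    refine mul_le_mul_of_nonneg_right ?_ (by positivity)
    rcases Nat.eq_zero_or_pos n with h | h
    · subst h
      simp
    · exact norm_natCast_inv_le p n h.ne'
  rw [h1, hsum.tsum_eq_zero_add, ← tsum_neg]
  simp only [Nat.cast_zero, inv_zero, neg_zero, zero_mul, zero_add]
  refine tsum_congr fun n => ?_
  rw [div_eq_mul_inv]
  ring

variable [IsUltrametricDist k]

theorem hasLog_logFun {y : k} (hy : ‖y‖ < 1) : HasLog p (1 - y) (logFun y) := by
  rw [logFun_eq p y hy]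
  exact hasLog_one_sub hy

include p in
theorem analyticAt_logFun {y : k} (hy : ‖y‖ < 1) : AnalyticAt k logFun y := by
  have h1 := one_le_radius (k := k) p
  have h2 : HasFPowerSeriesOnBall (logFun (k := k)) (logSer k) 0 (logSer k).radius :=
    (logSer k).hasFPowerSeriesOnBall (lt_of_lt_of_le one_pos h1)
  refine h2.analyticAt_of_mem ?_
  rw [mem_eball_zero_iff]
  refine lt_of_lt_of_le ?_ h1
  rw [enorm_eq_nnnorm]
  exact_mod_cast hy

include p in
theorem hasDerivAt_logFun_zero : HasDerivAt (logFun (k := k)) (-1) 0 := by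
  have h1 := one_le_radius (k := k) p
  have h2 : HasFPowerSeriesOnBall (logFun (k := k)) (logSer k) 0 (logSer k).radius :=
    (logSer k).hasFPowerSeriesOnBall (lt_of_lt_of_le one_pos h1)
  have h3 := h2.hasFPowerSeriesAt.hasDerivAt
  have h4 : (logSer k 1) (fun _ => (1 : k)) = -1 := by
    unfold logSer
    have := FormalMultilinearSeries.ofScalars_apply_eq (𝕜 := k) (E := k)
      (fun n : ℕ => -((n : k)⁻¹)) 1 1
    rw [this]
    simp
  rw [h4] at h3
  exact h3

include p in
theorem hasDerivAt_logFun {y : k} (hy : ‖y‖ < 1) :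
    HasDerivAt (logFun (k := k)) (-(1 - y)⁻¹) y := by
  have hn1 : ‖1 - y‖ = 1 := by
    have h1 : ‖(1 : k) + -y‖ = max ‖(1 : k)‖ ‖-y‖ :=
      IsUltrametricDist.norm_add_eq_max_of_norm_ne_norm (by rw [norm_one, norm_neg]; exact hy.ne')
    rw [← sub_eq_add_neg, norm_one, norm_neg, max_eq_left hy.le] at h1
    exact h1
  have hne : (1 - y) ≠ 0 := by
    intro h
    rw [h, norm_zero] at hn1
    exact zero_ne_one hn1
  have h2 : HasDerivAt (fun z : k => (z - y) * (1 - y)⁻¹) (1 * (1 - y)⁻¹) y :=
    ((hasDerivAt_id y).sub_const y).mul_const _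
  have h3 : HasDerivAt (logFun (k := k)) (-1) ((y - y) * (1 - y)⁻¹) := by
    rw [sub_self, zero_mul]
    exact hasDerivAt_logFun_zero p
  have h4 := (h3.comp y h2).const_add (logFun y)
  rw [one_mul, neg_one_mul] at h4
  refine h4.congr_of_eventuallyEq ?_
  have h5 : Tendsto (fun z : k => (z - y) * (1 - y)⁻¹) (𝓝 y) (𝓝 0) := by
    have := h2.continuousAt.tendsto
    rwa [sub_self, zero_mul] at this
  have h6 : ∀ᶠ z in 𝓝 y, ‖(z - y) * (1 - y)⁻¹‖ < 1 := by
    have := h5.norm
    rw [norm_zero] at this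
    exact this.eventually_lt_const one_pos
  have h7 : ∀ᶠ z in 𝓝 y, ‖z‖ < 1 :=
    (continuous_norm.tendsto y).eventually_lt_const hy
  filter_upwards [h6, h7] with z h8 h9
  have h10 := hasLog_logFun p h9
  have h11 := (hasLog_logFun p hy).mul (hasLog_logFun p h8)
  have h12 : (1 - y) * (1 - (z - y) * (1 - y)⁻¹) = 1 - z := by
    field_simp
    ring
  rw [h12] at h11
  exact h10.unique h11

/-- Logarithms of analytic functions. -/
theorem exists_analytic_log {u : k → k} (hu : AnalyticAt k u 0) (e : ℕ)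
    (he : ‖u 0 ^ e - 1‖ < 1) :
    ∃ L : k → k, AnalyticAt k L 0 ∧ (∀ᶠ s in 𝓝 0, HasLog p (u s ^ e) (L s)) ∧
      ∀ᶠ s in 𝓝 0, deriv L s * u s = e * deriv u s := by
  have h1 : AnalyticAt k (fun s => 1 - u s ^ e) 0 := analyticAt_const.fun_sub (hu.fun_pow e)
  have hn0 : ‖1 - u 0 ^ e‖ < 1 := by rw [norm_sub_rev]; exact he
  have h2 : AnalyticAt k (fun s => logFun (1 - u s ^ e)) 0 :=
    AnalyticAt.fun_comp (analyticAt_logFun p hn0) h1
  have h3 : ∀ᶠ s in 𝓝 0, ‖1 - u s ^ e‖ < 1 :=
    (h1.continuousAt.norm.tendsto).eventually_lt_const hn0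
  refine ⟨_, h2, ?_, ?_⟩
  · filter_upwards [h3] with s hs
    have := hasLog_logFun p hs
    rwa [sub_sub_cancel] at this
  · filter_upwards [h3, hu.eventually_analyticAt] with s hs hus
    have h4 := hasDerivAt_logFun p hs
    have h5 : HasDerivAt (fun s => 1 - u s ^ e) (-(e * u s ^ (e - 1) * deriv u s)) s := by
      have := (hus.differentiableAt.hasDerivAt.pow e).const_sub 1
      exact this
    have h6 := (h4.comp s h5).deriv
    have h7 : deriv (fun s => logFun (1 - u s ^ e)) s =
        -(1 - (1 - u s ^ e))⁻¹ * -(e * u s ^ (e - 1) * deriv u s) := h6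
    rw [h7, sub_sub_cancel]
    have h8 : u s ^ e ≠ 0 := by
      intro h0
      rw [h0, sub_zero, norm_one] at hs
      exact lt_irrefl _ hs
    rcases Nat.eq_zero_or_pos e with h9 | h9
    · subst h9
      simp
    · have h10 : u s ≠ 0 := by
        intro h0
        rw [h0, zero_pow h9.ne'] at h8
        exact h8 rfl
      have h11 : u s ^ e = u s ^ (e - 1) * u s := by
        rw [← pow_succ]
        congr 1
        omega
      rw [h11]
      have h12 : u s ^ (e - 1) ≠ 0 := pow_ne_zero _ h10
      field_simp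

end Pool.Agent.Helper65_Leo
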