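import Pool.Agent.Helper85_Leo.Units

/-!
# Powers of units which are close to `1`
-/

set_option autoImplicit false
set_option linter.unusedSectionVars false

open Filter Topology NumberField Pool.Agent.Helper85_Leo

namespace Pool.Agent.Helper65_Leo

variable (p : ℕ) [hp : Fact p.Prime] {F : Type*} [NormedField F] [NormedAlgebra ℚ_[p] F]
  [IsUltrametricDist F]
variable (K : Type) [Field K] [NumberField K]

include p in
theorem exists_unit_pow : ∃ m : ℕ, 0 < m ∧ ∀ (σ : K →+* F) (u : (𝓞 K)ˣ),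
    ‖unitVal σ u ^ m - 1‖ < 1 := by
  classical
  set I : Ideal (𝓞 K) := Ideal.span {((p : ℕ) : 𝓞 K)} with hI
  have hI0 : I ≠ ⊥ := by
    rw [hI, Ne, Ideal.span_singleton_eq_bot]
    exact_mod_cast hp.out.ne_zero
  have hfin : Finite (𝓞 K ⧸ I) := Ideal.finiteQuotientOfFreeOfNeBot I hI0
  refine ⟨Nat.card (𝓞 K ⧸ I)ˣ, Nat.card_pos, fun σ u => ?_⟩
  set m := Nat.card (𝓞 K ⧸ I)ˣ
  have h1 : (Units.map (Ideal.Quotient.mk I).toMonoidHom u) ^ m = 1 := pow_card_eq_one'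
  have h2 : Ideal.Quotient.mk I (((u : 𝓞 K)) ^ m) = 1 := by
    have := congrArg (fun x : (𝓞 K ⧸ I)ˣ => (x : 𝓞 K ⧸ I)) h1
    simpa using this
  have h3 : (u : 𝓞 K) ^ m - 1 ∈ I := by
    rw [← Ideal.Quotient.eq_zero_iff_mem, map_sub, h2, map_one, sub_self]
  rw [hI, Ideal.mem_span_singleton] at h3
  obtain ⟨x, hx⟩ := h3
  have h4 : unitVal σ u ^ m - 1 = (p : F) * σ (x : K) := by
    have h5 := congrArg (fun y : 𝓞 K => σ (y : K)) hx
    simpa [unitVal] using h5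
  rw [h4, norm_mul, norm_p_eq p]
  have h6 : (p : ℝ)⁻¹ < 1 := inv_lt_one_of_one_lt₀ (by exact_mod_cast hp.out.one_lt)
  calc (p : ℝ)⁻¹ * ‖σ (x : K)‖ ≤ (p : ℝ)⁻¹ * 1 :=
        mul_le_mul_of_nonneg_left (norm_embedding_le_one σ x) (by positivity)
    _ < 1 := by rw [mul_one]; exact h6

variable {K}

theorem norm_unitVal (σ : K →+* F) (u : (𝓞 K)ˣ) : ‖unitVal σ u‖ = 1 := by
  have h1 : ‖unitVal σ u‖ ≤ 1 := norm_embedding_le_one σ _
  have h2 : ‖unitVal σ u⁻¹‖ ≤ 1 := norm_embedding_le_one σ _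
  have h3 : ‖unitVal σ u‖ * ‖unitVal σ u⁻¹‖ = 1 := by
    rw [← norm_mul, ← map_mul, mul_inv_cancel, map_one, norm_one]
  nlinarith [norm_nonneg (unitVal σ u), norm_nonneg (unitVal σ u⁻¹)]

/-- If `x`, `y` are close, of norm at most one, then so are their powers. -/
theorem norm_pow_sub_one_lt {F : Type*} [NormedField F] [IsUltrametricDist F] {x y : F}
    (hx : ‖x‖ ≤ 1) (hxy : ‖y - x‖ < 1) (m : ℕ) (hm : ‖x ^ m - 1‖ < 1) : ‖y ^ m - 1‖ < 1 := by
  have hy : ‖y‖ ≤ 1 := by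
    have : y = (y - x) + x := by ring
    rw [this]
    exact (IsUltrametricDist.norm_add_le_max _ _).trans (max_le hxy.le hx)
  have h1 : ∀ m : ℕ, ‖y ^ m - x ^ m‖ < 1 := by
    intro m
    induction m with
    | zero => simp
    | succ m ih =>
      have h2 : y ^ (m + 1) - x ^ (m + 1) = (y ^ m - x ^ m) * y + x ^ m * (y - x) := by ring
      rw [h2]
      refine lt_of_le_of_lt (IsUltrametricDist.norm_add_le_max _ _) (max_lt ?_ ?_)
      · rw [norm_mul]
        calc ‖y ^ m - x ^ m‖ * ‖y‖ ≤ ‖y ^ m - x ^ m‖ * 1 :=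
              mul_le_mul_of_nonneg_left hy (norm_nonneg _)
          _ < 1 := by rw [mul_one]; exact ih
      · rw [norm_mul, norm_pow]
        calc ‖x‖ ^ m * ‖y - x‖ ≤ 1 * ‖y - x‖ :=
              mul_le_mul_of_nonneg_right (pow_le_one₀ (norm_nonneg _) hx) (norm_nonneg _)
          _ < 1 := by rw [one_mul]; exact hxy
  have h3 : y ^ m - 1 = (y ^ m - x ^ m) + (x ^ m - 1) := by ring
  rw [h3]
  exact lt_of_le_of_lt (IsUltrametricDist.norm_add_le_max _ _) (max_lt (h1 m) hm)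

end Pool.Agent.Helper65_Leo
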