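import Pool.Agent.Helper65_Leo.Minor
import Pool.Agent.Helper65_Leo.Log
import Pool.Agent.Helper65_Leo.UnitPow

/-!
# Leopoldt's conjecture for all parameters near a given one
-/

set_option autoImplicit false
set_option linter.unusedSectionVars false

open Polynomial Filter Topology NumberField Pool.Agent.Helper85_Leo

namespace Pool.Agent.Helper65_Leo

section units

variable {O : Type} [CommRing O]

theorem monic_sub_mul {P Q : O[X]} (hP : P.Monic) (hdeg : Q.natDegree < P.natDegree) (t : O) :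
    (P - C t * Q).Monic := by
  refine hP.sub_of_left ?_
  refine lt_of_le_of_lt (degree_mul_le _ _) ?_
  refine lt_of_le_of_lt (add_le_add_left degree_C_le _) ?_
  rw [zero_add]
  exact degree_lt_degree hdeg

theorem natDegree_sub_mul {P Q : O[X]} (hdeg : Q.natDegree < P.natDegree) (t : O) :
    (P - C t * Q).natDegree = P.natDegree := by
  apply natDegree_sub_eq_left_of_natDegree_lt
  exact lt_of_le_of_lt (natDegree_C_mul_le _ _) hdeg

/-- Units from the coprimality of `P` and `Q`. -/
theorem exists_units {R : Type} [CommRing R] (φ : O →+* R) {P Q : O[X]}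
    (hcop : IsCoprime P Q) (t : O) (θ : R) (hθ : (P - C t * Q).eval₂ φ θ = 0)
    {ι : Type} (g : ι → O[X]) (hg : ∀ i, g i ∣ Q) :
    ∃ η : ι → Rˣ, ∀ i, (η i : R) = (g i).eval₂ φ θ := by
  have h1 : P.eval₂ φ θ = φ t * Q.eval₂ φ θ := by
    rw [eval₂_sub, eval₂_mul, eval₂_C, sub_eq_zero] at hθ
    exact hθ
  obtain ⟨a, b, hab⟩ := hcop
  have h2 : (a.eval₂ φ θ * φ t + b.eval₂ φ θ) * Q.eval₂ φ θ = 1 := by
    have h3 := congrArg (eval₂ φ θ) hab
    rw [eval₂_add, eval₂_mul, eval₂_mul, eval₂_one, h1] at h3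
    rw [← h3]; ring
  have hQ : IsUnit (Q.eval₂ φ θ) := IsUnit.of_mul_eq_one_right _ h2
  have h4 : ∀ i, IsUnit ((g i).eval₂ φ θ) := by
    intro i
    refine isUnit_of_dvd_unit ?_ hQ
    exact map_dvd (eval₂RingHom φ θ) (hg i)
  exact ⟨fun i => (h4 i).unit, fun i => IsUnit.unit_spec _⟩

end units

variable (p : ℕ) [hp : Fact p.Prime] {k : Type} [NontriviallyNormedField k]
  [NormedAlgebra ℚ_[p] k] [CompleteSpace k] [IsUltrametricDist k] [CharZero k] [IsAlgClosed k]

/-- Every unit has a power whose logarithm exists at all embeddings. -/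
theorem exists_hasLog_unit (K : Type) [Field K] [NumberField K] :
    ∃ m : ℕ, 0 < m ∧ ∀ (σ : K →+* k) (u : (𝓞 K)ˣ), ∃ l : k, HasLog p (unitVal σ u ^ m) l := by
  obtain ⟨m, hm1, hm2⟩ := exists_unit_pow p (F := k) K
  refine ⟨m, hm1, fun σ u => ?_⟩
  have h1 : ‖1 - unitVal σ u ^ m‖ < 1 := by rw [norm_sub_rev]; exact hm2 σ u
  refine ⟨-∑' n : ℕ, (1 - unitVal σ u ^ m) ^ (n + 1) / ((n + 1 : ℕ) : k), ?_⟩
  have := hasLog_one_sub (p := p) h1
  rwa [sub_sub_cancel] at this

/-- A version of the criterion for as many units as the rank, using only some embeddings. -/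
theorem leopoldtAt_of_independent_logs {K : Type} [Field K] [NumberField K] {ι κ : Type}
    [Fintype ι] (η : ι → (𝓞 K)ˣ) (e : ℕ) (σ : κ → K →+* k) (l : κ → ι → k)
    (hl : ∀ j i, HasLog p (unitVal (σ j) (η i) ^ e) (l j i))
    (hind : ∀ c : ι → k, (∀ j, ∑ i, c i * l j i = 0) → c = 0)
    (hrank : Units.rank K ≤ Fintype.card ι) : LeopoldtAt K p := by
  classical
  obtain ⟨m, hm1, hm2⟩ := exists_hasLog_unit p (k := k) K
  choose lam hlm using fun (ρ : K →+* k) i => hm2 ρ (η i)
  have hlog : ∀ (ρ : K →+* k) i, HasLog p (unitVal ρ (η i) ^ (m * e)) (e * lam ρ i) := by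
    intro ρ i
    rw [pow_mul]
    exact (hlm ρ i).pow e
  have hspec : ∀ j i, (e : k) * lam (σ j) i = m * l j i := by
    intro j i
    have h1 := (hl j i).pow m
    rw [← pow_mul, mul_comm e m] at h1
    exact (hlog (σ j) i).unique h1
  have hm0 : (m : k) ≠ 0 := by exact_mod_cast hm1.ne'
  let η' : Option ι → (𝓞 K)ˣ := fun o => o.elim (∏ i, η i)⁻¹ η
  let l' : (K →+* k) → Option ι → k := fun ρ o =>
    o.elim (-∑ i, e * lam ρ i) (fun i => e * lam ρ i)
  refine leopoldtAt_of_logs p η' (m * e) l' ?_ ?_ ?_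
  · intro ρ o
    cases o with
    | none =>
      change HasLog p (unitVal ρ (∏ i, η i)⁻¹ ^ (m * e)) (-∑ i, e * lam ρ i)
      have h1 : unitVal ρ (∏ i, η i)⁻¹ ^ (m * e) = (∏ i, unitVal ρ (η i) ^ (m * e))⁻¹ := by
        have h2 : unitVal ρ (∏ i, η i)⁻¹ = (unitVal ρ (∏ i, η i))⁻¹ := by
          have := unitVal_zpow ρ (∏ i, η i) (-1)
          simp only [zpow_neg, zpow_one] at this
          exact this
        rw [h2, inv_pow, map_prod, Finset.prod_pow]
      rw [h1]
      exact (hasLog_prod _ _ _ fun i _ => hlog ρ i).inv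
    | some i => exact hlog ρ i
  · intro c hc
    have h1 : (fun i => c (some i) - c none) = 0 := by
      apply hind
      intro j
      have h2 := hc (σ j)
      rw [Fintype.sum_option] at h2
      change c none * (-∑ i, e * lam (σ j) i) + ∑ i, c (some i) * (e * lam (σ j) i) = 0 at h2
      simp only [hspec] at h2
      have h3 : (m : k) * ∑ i, (c (some i) - c none) * l j i = 0 := by
        rw [← h2, Finset.mul_sum, ← Finset.sum_neg_distrib, Finset.mul_sum,
          ← Finset.sum_add_distrib]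
        refine Finset.sum_congr rfl fun i _ => ?_
        ring
      exact (mul_eq_zero.1 h3).resolve_left hm0
    have h3 : ∀ o, c o = c none := by
      intro o
      cases o with
      | none => rfl
      | some i => exact sub_eq_zero.1 (congrFun h1 i)
    intro i j
    rw [h3 i, h3 j]
  · rw [Fintype.card_option]
    omega

variable {O F : Type} [CommRing O] [IsDomain O] [Algebra.IsIntegral ℤ O] [Field F] [NumberField F]
  [Algebra O F] [FaithfulSMul O F] [Algebra F k]

include p in
/-- **Leopoldt's conjecture near a given parameter.** -/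
theorem leopoldt_near {P Q : O[X]} (hP : P.Monic) (hdeg : Q.natDegree < P.natDegree)
    (hcop : IsCoprime P Q) {ι : Type} [Fintype ι] (g : ι → O[X]) (hg : ∀ i, 0 < (g i).natDegree)
    (hgQ : ∀ i, g i ∣ Q)
    (hgg : ∀ i l, i ≠ l → IsCoprime ((g i).map (algebraMap O F)) ((g l).map (algebraMap O F)))
    (t₀ : k) : ∃ δ : ℝ, 0 < δ ∧ ∀ t : O, algebraMap F k (algebraMap O F t) ≠ t₀ →
      ‖algebraMap F k (algebraMap O F t) - t₀‖ < δ →
      ∀ (K : Type) [Field K] [NumberField K] [Algebra F K] (θ : K),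
        aeval θ ((P - C t * Q).map (algebraMap O F)) = 0 →
        IntermediateField.adjoin F {θ} = ⊤ → Module.finrank F K = P.natDegree →
        Units.rank K ≤ Fintype.card ι → LeopoldtAt K p := by
  classical
  set φZ : O →+* k := (algebraMap F k).comp (algebraMap O F) with hφZ
  have hφinj : Function.Injective φZ :=
    (algebraMap F k).injective.comp (FaithfulSMul.algebraMap_injective O F)
  have hcomp : ∀ t : O, algebraMap F k (algebraMap O F t) = φZ t := fun t => rfl
  simp only [hcomp]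
  set n := P.natDegree with hn
  set A : k[X] := P.map φZ - C t₀ * Q.map φZ with hA
  set B : k[X] := Q.map φZ with hB
  have hQ0 : Q ≠ 0 := by
    rintro rfl
    obtain ⟨a, b, hab⟩ := hcop
    rw [mul_zero, add_zero] at hab
    have h1 : IsUnit P := IsUnit.of_mul_eq_one_right _ hab
    have h2 := natDegree_eq_zero_of_isUnit h1
    rw [← hn] at h2
    omega
  have hB0 : B ≠ 0 := by rw [hB, Ne, Polynomial.map_eq_zero_iff hφinj]; exact hQ0
  have hBdeg : B.natDegree = Q.natDegree := natDegree_map_eq_of_injective hφinj _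
  have hPdeg : (P.map φZ).natDegree = n := natDegree_map_eq_of_injective hφinj _
  have hBdeg' : B.natDegree < (P.map φZ).natDegree := by rw [hPdeg, hBdeg]; exact hdeg
  have hAmon : A.Monic := monic_sub_mul (hP.map φZ) hBdeg' t₀
  have hAdeg : A.natDegree = n := by
    rw [hA, natDegree_sub_mul hBdeg' t₀, hPdeg]
  have hcopk : ∀ x : k, (P.map φZ).eval x = 0 → B.eval x ≠ 0 := by
    intro x h1 h2
    obtain ⟨a, b, hab⟩ := hcop
    have h3 := congrArg (fun q : O[X] => (q.map φZ).eval x) hab
    simp only [Polynomial.map_add, Polynomial.map_mul, eval_add, eval_mul, Polynomial.map_one,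
      eval_one, h1] at h3
    rw [← hB, h2] at h3
    simp at h3
  have hcopA : ∀ x : k, A.eval x = 0 → B.eval x ≠ 0 := by
    intro x h1 h2
    refine hcopk x ?_ h2
    rw [hA, eval_sub, eval_mul, h2] at h1
    simpa using h1
  set E := n.factorial with hE
  have hEpos : 0 < E := Nat.factorial_pos n
  have hdvd : ∀ m, 0 < m → m ≤ A.natDegree → m ∣ E := by
    intro m h1 h2
    rw [hAdeg] at h2
    exact Nat.dvd_factorial h1 h2
  obtain ⟨J, hJ, φ, a1, a2, a3, a4, a5, -, -⟩ := exists_branches A B hAmon.ne_zero hcopA E hEpos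
    (fun x hx => hdvd _ ((rootMultiplicity_pos hAmon.ne_zero).2 hx)
      (rootMultiplicity_le_natDegree' A x))
  let G : ι → k[X] := fun i => (g i).map φZ
  have hG : ∀ i, 0 < (G i).natDegree := by
    intro i
    change 0 < ((g i).map φZ).natDegree
    rw [natDegree_map_eq_of_injective hφinj]
    exact hg i
  have hGB : ∀ i x, (G i).eval x = 0 → B.eval x = 0 := by
    intro i x h1
    obtain ⟨q, hq⟩ := hgQ i
    rw [hB, hq, Polynomial.map_mul, eval_mul]
    change (G i).eval x * _ = 0
    rw [h1, zero_mul]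
  have hGG : ∀ i l, i ≠ l → ∀ x, (G i).eval x = 0 → (G l).eval x ≠ 0 := by
    intro i l hil x h1 h2
    obtain ⟨a, b, hab⟩ := hgg i l hil
    have h3 := congrArg (fun q : F[X] => (q.map (algebraMap F k)).eval x) hab
    simp only [Polynomial.map_add, Polynomial.map_mul, eval_add, eval_mul, Polynomial.map_one,
      eval_one, Polynomial.map_map] at h3
    change _ * (G i).eval x + _ * (G l).eval x = 1 at h3
    rw [h1, h2] at h3
    simp at h3
  let v : ι → J → k → k := fun i j s => (G i).eval (φ j s)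
  have hv : ∀ i j, AnalyticAt k (v i j) 0 := fun i j => analyticAt_aeval (a2 j) (G i)
  -- facts valid for `s` near `0`, `s ≠ 0`
  have hdist : ∀ᶠ s in 𝓝[≠] (0 : k), ∀ j l, j ≠ l → φ j s ≠ φ l s := by
    rw [eventually_all]
    intro j
    rw [eventually_all]
    intro l
    by_cases hjl : j = l
    · exact Eventually.of_forall fun s h => absurd hjl h
    · have h1 : AnalyticAt k (fun s => φ j s - φ l s) 0 := (a2 j).fun_sub (a2 l)
      rcases h1.eventually_eq_zero_or_eventually_ne_zero with h2 | h2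
      · exfalso
        apply a5 j l hjl
        filter_upwards [h2] with s hs
        exact sub_eq_zero.1 hs
      · filter_upwards [h2] with s hs _
        exact sub_ne_zero.1 hs
  -- embeddings of the field
  have hfield : ∀ s : k, (∀ j l, j ≠ l → φ j s ≠ φ l s) →
      (∀ j, A.eval (φ j s) = s ^ E * B.eval (φ j s)) → ∀ t : O, s ^ E = φZ t - t₀ →
      ∀ (K : Type) [Field K] [NumberField K] [Algebra F K] (θ : K),
        aeval θ ((P - C t * Q).map (algebraMap O F)) = 0 →
        IntermediateField.adjoin F {θ} = ⊤ → Module.finrank F K = n →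
        ∃ σ : J → (K →ₐ[F] k), ∀ j, σ j θ = φ j s := by
    intro s hs1 hs2 t hst K _ _ _ θ hθ hgen hfr
    set f : k[X] := (P - C t * Q).map φZ with hf
    have hfeq : f = P.map φZ - C (φZ t) * B := by
      rw [hf, Polynomial.map_sub, Polynomial.map_mul, map_C, ← hB]
    have hfmon : f.Monic := (monic_sub_mul hP hdeg t).map φZ
    have hfdeg : f.natDegree = n := by
      rw [hf, natDegree_map_eq_of_injective hφinj, natDegree_sub_mul hdeg]
    have hfeval : ∀ x, f.eval x = A.eval x - s ^ E * B.eval x := by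
      intro x
      rw [hfeq, hA, hst]
      simp only [eval_sub, eval_mul, eval_C]
      ring
    have hfprod := eq_prod_of_roots f hfmon (fun j => φ j s) (by
        intro j l h
        by_contra hjl
        exact hs1 j l hjl h) (fun j => by rw [hfeval, hs2, sub_self]) (by rw [a1, hAdeg, hfdeg])
    have hσ : ∀ σ : K →ₐ[F] k, ∃ j, σ θ = φ j s := by
      intro σ
      have h1 : f.eval (σ θ) = 0 := by
        have h2 := congrArg σ hθ
        rw [map_zero, ← aeval_algHom_apply, aeval_def, eval₂_map] at h2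
        rw [hf, eval_map]
        exact h2
      rw [hfprod, eval_prod, Finset.prod_eq_zero_iff] at h1
      obtain ⟨j, _, h2⟩ := h1
      refine ⟨j, ?_⟩
      simpa [sub_eq_zero] using h2
    choose j hj using hσ
    have hinj : Function.Injective j := by
      intro σ τ h
      have h1 : σ θ = τ θ := by rw [hj, hj, h]
      have h3 : ∀ x ∈ IntermediateField.adjoin F {θ}, σ x = τ x := by
        intro x hx
        induction hx using IntermediateField.adjoin_induction with
        | mem x hx => rw [Set.mem_singleton_iff.1 hx]; exact h1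
        | algebraMap a => simp
        | add x y _ _ h4 h5 => rw [map_add, map_add, h4, h5]
        | inv x _ h4 => rw [map_inv₀, map_inv₀, h4]
        | mul x y _ _ h4 h5 => rw [map_mul, map_mul, h4, h5]
      ext x
      exact h3 x (by rw [hgen]; trivial)
    have hbij := (Fintype.bijective_iff_injective_and_card j).2 ⟨hinj, by
      rw [AlgHom.card, hfr, a1, hAdeg]⟩
    choose σ hσ using hbij.2
    exact ⟨σ, fun i => by rw [hj, hσ]⟩
  -- units of the field
  have hunit : ∀ t : O, ∀ (K : Type) [Field K] [NumberField K] [Algebra F K] (θ : K),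
        aeval θ ((P - C t * Q).map (algebraMap O F)) = 0 →
        ∃ η : ι → (𝓞 K)ˣ, ∀ i (σ : K →ₐ[F] k), unitVal σ.toRingHom (η i) = (G i).eval (σ θ) := by
    intro t K _ _ _ θ hθ
    let ψ : O →+* K := (algebraMap F K).comp (algebraMap O F)
    let algOK : Algebra O K := ψ.toAlgebra
    have hint : ∀ x : O, IsIntegral ℤ (ψ x) := by
      intro x
      exact (Algebra.IsIntegral.isIntegral (R := ℤ) x).map ψ.toIntAlgHom
    let ψ' : O →+* 𝓞 K := RingHom.codRestrict ψ (integralClosure ℤ K) hint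
    have hψ' : ∀ x, ((ψ' x : 𝓞 K) : K) = ψ x := fun x => rfl
    have hθint : IsIntegral ℤ θ := by
      have h1 : (P - C t * Q).eval₂ ψ θ = 0 := by
        rw [aeval_def, eval₂_map] at hθ
        exact hθ
      have h2 : IsIntegral O θ := ⟨P - C t * Q, monic_sub_mul hP hdeg t, h1⟩
      have : IsScalarTower ℤ O K := IsScalarTower.of_algebraMap_eq' (RingHom.ext_int _ _)
      exact isIntegral_trans θ h2
    let θ' : 𝓞 K := ⟨θ, hθint⟩
    have hev : ∀ q : O[X], ((q.eval₂ ψ' θ' : 𝓞 K) : K) = q.eval₂ ψ θ := by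
      intro q
      exact hom_eval₂ q ψ' (algebraMap (𝓞 K) K) θ'
    have hθ'0 : (P - C t * Q).eval₂ ψ' θ' = 0 := by
      apply RingOfIntegers.coe_injective
      change (((P - C t * Q).eval₂ ψ' θ' : 𝓞 K) : K) = ((0 : 𝓞 K) : K)
      rw [hev]
      rw [aeval_def, eval₂_map] at hθ
      exact hθ
    obtain ⟨η, hη⟩ := exists_units ψ' hcop t θ' hθ'0 g hgQ
    refine ⟨η, fun i σ => ?_⟩
    change σ (((η i : 𝓞 K)) : K) = ((g i).map φZ).eval (σ θ)
    rw [hη, hev, eval_map]
    have h3 := hom_eval₂ (g i) ψ (σ : K →+* k) θ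
    refine h3.trans ?_
    congr 1
    ext x
    exact σ.commutes _
  by_cases hex : ∃ e : ℕ, 0 < e ∧ ∀ i j, ‖v i j 0 ^ e - 1‖ < 1
  · obtain ⟨e, he, hve⟩ := hex
    choose L hL1 hL2 hL3 using fun i j => exists_analytic_log p (hv i j) e (hve i j)
    have he0 : (e : k) ≠ 0 := by exact_mod_cast he.ne'
    obtain ⟨c, hc1, hc2⟩ := exists_minor_not_eventually_zero A B hAmon hB0
      (by rw [hBdeg, hAdeg]; exact hdeg) hcopA E hEpos hdvd φ a1 a2 a3 a4 a5 G hG hGB hGG
      (e : k) he0 L hL1 hL3
    have hdet : ∀ᶠ s in 𝓝[≠] (0 : k), (Matrix.of fun i l => L i (c l) s).det ≠ 0 :=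
      (hc1.eventually_eq_zero_or_eventually_ne_zero).resolve_left hc2
    have hall : ∀ᶠ s in 𝓝[≠] (0 : k), (∀ j l, j ≠ l → φ j s ≠ φ l s) ∧
        (∀ j, A.eval (φ j s) = s ^ E * B.eval (φ j s)) ∧
        (∀ i j, HasLog p (v i j s ^ e) (L i j s)) ∧
        (Matrix.of fun i l => L i (c l) s).det ≠ 0 := by
      refine hdist.and ((eventually_all.2 fun j => (a4 j).filter_mono nhdsWithin_le_nhds).and
        ((eventually_all.2 fun i => eventually_all.2 fun j =>
          (hL2 i j).filter_mono nhdsWithin_le_nhds).and hdet))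
    rw [eventually_nhdsWithin_iff, Metric.eventually_nhds_iff] at hall
    obtain ⟨ρ, hρ, hball⟩ := hall
    refine ⟨ρ ^ E, by positivity, fun t ht1 ht2 K _ _ _ θ hθ hgen hfr hrank => ?_⟩
    obtain ⟨s, hs⟩ := IsAlgClosed.exists_pow_nat_eq (φZ t - t₀) hEpos
    have hs0 : s ≠ 0 := by
      rintro rfl
      rw [zero_pow hEpos.ne'] at hs
      exact ht1 (sub_eq_zero.1 hs.symm)
    have hsρ : dist s 0 < ρ := by
      rw [dist_zero_right]
      rw [← hs, norm_pow] at ht2
      exact lt_of_pow_lt_pow_left₀ E hρ.le ht2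
    obtain ⟨b1, b2, b3, b4⟩ := hball hsρ hs0
    obtain ⟨σ, hσ⟩ := hfield s b1 b2 t hs K θ hθ hgen hfr
    obtain ⟨η, hη⟩ := hunit t K θ hθ
    refine leopoldtAt_of_independent_logs p η e (fun j => (σ j).toRingHom)
      (fun j i => L i j s) ?_ ?_ hrank
    · intro j i
      rw [hη, hσ]
      exact b3 i j
    · intro d hd
      refine Matrix.eq_zero_of_vecMul_eq_zero b4 ?_
      funext l
      exact hd (c l)
  · -- no such field exists near `t₀`
    have hnear : ∀ᶠ s in 𝓝[≠] (0 : k), (∀ j l, j ≠ l → φ j s ≠ φ l s) ∧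
        (∀ j, A.eval (φ j s) = s ^ E * B.eval (φ j s)) ∧
        (∀ i j, ‖v i j 0 - v i j s‖ < 1) := by
      refine hdist.and ((eventually_all.2 fun j => (a4 j).filter_mono nhdsWithin_le_nhds).and
        (eventually_all.2 fun i => eventually_all.2 fun j => ?_))
      have h1 : Tendsto (fun s => ‖v i j 0 - v i j s‖) (𝓝 0) (𝓝 ‖v i j 0 - v i j 0‖) :=
        ((hv i j).continuousAt.tendsto.const_sub _).norm
      rw [sub_self, norm_zero] at h1
      exact (h1.eventually_lt_const one_pos).filter_mono nhdsWithin_le_nhds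
    rw [eventually_nhdsWithin_iff, Metric.eventually_nhds_iff] at hnear
    obtain ⟨ρ, hρ, hball⟩ := hnear
    refine ⟨ρ ^ E, by positivity, fun t ht1 ht2 K _ _ _ θ hθ hgen hfr hrank => ?_⟩
    exfalso
    obtain ⟨s, hs⟩ := IsAlgClosed.exists_pow_nat_eq (φZ t - t₀) hEpos
    have hs0 : s ≠ 0 := by
      rintro rfl
      rw [zero_pow hEpos.ne'] at hs
      exact ht1 (sub_eq_zero.1 hs.symm)
    have hsρ : dist s 0 < ρ := by
      rw [dist_zero_right]
      rw [← hs, norm_pow] at ht2
      exact lt_of_pow_lt_pow_left₀ E hρ.le ht2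
    obtain ⟨b1, b2, b3⟩ := hball hsρ hs0
    obtain ⟨σ, hσ⟩ := hfield s b1 b2 t hs K θ hθ hgen hfr
    obtain ⟨η, hη⟩ := hunit t K θ hθ
    obtain ⟨m, hm1, hm2⟩ := exists_unit_pow p (F := k) K
    apply hex
    refine ⟨m, hm1, fun i j => ?_⟩
    have h1 : unitVal (σ j).toRingHom (η i) = v i j s := by
      rw [hη, hσ]
    refine norm_pow_sub_one_lt (x := v i j s) ?_ (b3 i j) m ?_
    · rw [← h1, norm_unitVal]
    · rw [← h1]
      exact hm2 (σ j).toRingHom (η i)

end Pool.Agent.Helper65_Leo
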