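import Pool.Agent.Helper65_Leo.Local

/-!
# Leopoldt's conjecture for all but finitely many parameters
-/

set_option autoImplicit false
set_option linter.unusedSectionVars false

open Polynomial Filter Topology NumberField Pool.Agent.Helper85_Leo

namespace Pool.Agent.Helper65_Leo

/-- The image of an order in a `p`-adic field lies in a compact set. -/
theorem exists_compact (p : ℕ) [hp : Fact p.Prime] {k : Type} [NormedField k]
    [NormedAlgebra ℚ_[p] k] {O : Type} [CommRing O] [Module.Finite ℤ O] (φ : O →+* k) :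
    ∃ C : Set k, IsCompact C ∧ ∀ t, φ t ∈ C := by
  obtain ⟨n, s, hs⟩ := Module.Finite.exists_fin (R := ℤ) (M := O)
  let f : (Fin n → ℤ_[p]) → k := fun a => ∑ i, algebraMap ℚ_[p] k (a i : ℚ_[p]) * φ (s i)
  have hf : Continuous f := by
    refine continuous_finsetSum _ fun i _ => ?_
    refine Continuous.mul ?_ continuous_const
    exact (continuous_algebraMap ℚ_[p] k).comp (continuous_subtype_val.comp (continuous_apply i))
  refine ⟨Set.range f, isCompact_range hf, fun t => ?_⟩
  have ht : t ∈ Submodule.span ℤ (Set.range s) := by rw [hs]; trivial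
  rw [Submodule.mem_span_range_iff_exists_fun] at ht
  obtain ⟨c, hc⟩ := ht
  refine ⟨fun i => (c i : ℤ_[p]), ?_⟩
  rw [← hc, map_sum]
  refine Finset.sum_congr rfl fun i _ => ?_
  rw [zsmul_eq_mul, map_mul, map_intCast]
  simp

variable {O F : Type} [CommRing O] [IsDomain O] [Module.Finite ℤ O] [Field F] [NumberField F]
  [Algebra O F] [FaithfulSMul O F]

/-- **Leopoldt's conjecture for all but finitely many parameters.** -/
theorem leopoldt_cofinite (p : ℕ) [hp : Fact p.Prime] {P Q : O[X]} (hP : P.Monic)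
    (hdeg : Q.natDegree < P.natDegree) (hcop : IsCoprime P Q) {ι : Type} [Fintype ι]
    (g : ι → O[X]) (hg : ∀ i, 0 < (g i).natDegree) (hgQ : ∀ i, g i ∣ Q)
    (hgg : ∀ i l, i ≠ l → IsCoprime ((g i).map (algebraMap O F)) ((g l).map (algebraMap O F))) :
    {t : O | ∃ (K : Type) (_ : Field K) (_ : NumberField K) (_ : Algebra F K) (θ : K),
        aeval θ ((P - C t * Q).map (algebraMap O F)) = 0 ∧
        IntermediateField.adjoin F {θ} = ⊤ ∧ Module.finrank F K = P.natDegree ∧
        Units.rank K ≤ Fintype.card ι ∧ ¬ LeopoldtAt K p}.Finite := by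
  classical
  obtain ⟨τ⟩ : Nonempty (F →+* ℂ_[p]) := inferInstance
  let alg : Algebra F ℂ_[p] := τ.toAlgebra
  have hint : Algebra.IsIntegral ℤ O := inferInstance
  set φ : O →+* ℂ_[p] := (algebraMap F ℂ_[p]).comp (algebraMap O F) with hφ
  have hφinj : Function.Injective φ :=
    (algebraMap F ℂ_[p]).injective.comp (FaithfulSMul.algebraMap_injective O F)
  choose δ hδ1 hδ2 using fun t₀ : ℂ_[p] => leopoldt_near (F := F) p hP hdeg hcop g hg hgQ hgg t₀
  obtain ⟨C, hC, hCφ⟩ := exists_compact p φ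
  obtain ⟨T, -, hT⟩ := hC.elim_nhds_subcover (fun t₀ => Metric.ball t₀ (δ t₀))
    (fun t₀ _ => Metric.ball_mem_nhds t₀ (hδ1 t₀))
  refine Set.Finite.subset (T.finite_toSet.preimage hφinj.injOn) ?_
  rintro t ⟨K, _, _, _, θ, h1, h2, h3, h4, h5⟩
  rw [Set.mem_preimage, Finset.mem_coe]
  obtain ⟨t₀, ht₀, hball⟩ := Set.mem_iUnion₂.1 (hT (hCφ t))
  rw [Metric.mem_ball, dist_eq_norm] at hball
  by_cases heq : φ t = t₀
  · rw [heq]; exact ht₀
  · exact absurd (hδ2 t₀ t heq hball K θ h1 h2 h3 h4) h5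

end Pool.Agent.Helper65_Leo
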