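import Mathlib

/-!
# The Euler derivation on Laurent series
-/

set_option autoImplicit false
set_option linter.unusedSectionVars false

open Polynomial

-- Mathlib has two algebra structures on Laurent series; we use the one of Hahn series
attribute [-instance] HahnSeries.powerSeriesAlgebra

namespace Pool.Agent.Helper65_Leo

variable {k : Type*} [Field k]

/-- The function `∑ a_n X ^ n ↦ ∑ n a_n X ^ n`. -/
noncomputable def eulerFun (f : LaurentSeries k) : LaurentSeries k where
  coeff n := (n : k) * f.coeff n
  isPWO_support' := f.isPWO_support.mono (by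
    intro n hn
    rw [Function.mem_support] at hn
    rw [HahnSeries.mem_support]
    intro h
    rw [h, mul_zero] at hn
    exact hn rfl)

theorem coeff_eulerFun (f : LaurentSeries k) (n : ℤ) :
    (eulerFun f).coeff n = (n : k) * f.coeff n := rfl

theorem support_eulerFun (f : LaurentSeries k) : (eulerFun f).support ⊆ f.support := by
  intro n hn
  rw [HahnSeries.mem_support, coeff_eulerFun] at hn
  rw [HahnSeries.mem_support]
  intro h
  rw [h, mul_zero] at hn
  exact hn rfl

theorem eulerFun_mul (f g : LaurentSeries k) :
    eulerFun (f * g) = f * eulerFun g + g * eulerFun f := by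
  ext n
  rw [coeff_eulerFun, HahnSeries.coeff_add, mul_comm g (eulerFun f), HahnSeries.coeff_mul,
    HahnSeries.coeff_mul_right' g.isPWO_support (support_eulerFun g),
    HahnSeries.coeff_mul_left' f.isPWO_support (support_eulerFun f), Finset.mul_sum,
    ← Finset.sum_add_distrib]
  refine Finset.sum_congr rfl fun ij hij => ?_
  rw [coeff_eulerFun, coeff_eulerFun]
  have h : ij.1 + ij.2 = n := (Finset.mem_antidiagonal.1 hij).2.2
  have h' : (n : k) = (ij.1 : k) + (ij.2 : k) := by rw [← h]; push_cast; ring
  rw [h']
  ring

variable (k) in
/-- The Euler derivation `X d/dX` on Laurent series. -/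
noncomputable def euler : Derivation k (LaurentSeries k) (LaurentSeries k) where
  toFun := eulerFun
  map_add' f g := by
    ext n
    simp only [coeff_eulerFun, HahnSeries.coeff_add]
    ring
  map_smul' c f := by
    ext n
    simp only [coeff_eulerFun, HahnSeries.coeff_smul, RingHom.id_apply, smul_eq_mul]
    ring
  map_one_eq_zero' := by
    ext n
    change (n : k) * (1 : LaurentSeries k).coeff n = 0
    rw [HahnSeries.coeff_one]
    split_ifs with h
    · rw [h]; simp
    · simp
  leibniz' f g := by
    change eulerFun (f * g) = _
    rw [eulerFun_mul]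
    rfl

theorem coeff_euler (f : LaurentSeries k) (n : ℤ) :
    (euler k f).coeff n = (n : k) * f.coeff n := rfl

theorem euler_single (n : ℤ) (a : k) :
    euler k (HahnSeries.single n a) = HahnSeries.single n ((n : k) * a) := by
  ext m
  rw [coeff_euler]
  by_cases h : m = n
  · subst h
    simp
  · rw [HahnSeries.coeff_single_of_ne h, HahnSeries.coeff_single_of_ne h, mul_zero]

theorem mem_range_of_euler_eq_zero [CharZero k] (f : LaurentSeries k) (hf : euler k f = 0) :
    f ∈ Set.range (algebraMap k (LaurentSeries k)) := by
  refine ⟨f.coeff 0, ?_⟩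
  rw [← HahnSeries.C_eq_algebraMap]
  ext n
  by_cases h : n = 0
  · subst h
    simp
  · have h1 := congrArg (fun g : LaurentSeries k => g.coeff n) hf
    simp only [coeff_euler, HahnSeries.coeff_zero, mul_eq_zero, Int.cast_eq_zero] at h1
    rw [h1.resolve_left h, HahnSeries.C_apply, HahnSeries.coeff_single_of_ne h]

/-- The constant coefficient of the logarithmic derivative is the order. -/
theorem coeff_zero_euler_div (v : LaurentSeries k) (hv : v ≠ 0) :
    (euler k v / v).coeff 0 = (v.order : k) := by
  set q := euler k v / v with hq
  have hqv : q * v = euler k v := div_mul_cancel₀ _ hv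
  have hord : q = 0 ∨ 0 ≤ q.order := by
    by_cases h0 : q = 0
    · exact Or.inl h0
    · right
      have h1 : (q * v).order = q.order + v.order := HahnSeries.order_mul h0 hv
      have h2 : euler k v ≠ 0 := by rw [← hqv]; exact mul_ne_zero h0 hv
      have h3 : v.order ≤ (euler k v).order := by
        apply HahnSeries.order_le_of_coeff_ne_zero
        have := HahnSeries.coeff_order_eq_zero.not.2 h2
        intro h4
        apply this
        rw [coeff_euler, h4, mul_zero]
      rw [hqv] at h1
      omega
  have hcoef : ∀ i < 0, q.coeff i = 0 := by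
    intro i hi
    rcases hord with h | h
    · rw [h]; simp
    · exact HahnSeries.coeff_eq_zero_of_lt_order (lt_of_lt_of_le hi h)
  have h1 : (q * v).coeff v.order = q.coeff 0 * v.coeff v.order := by
    rw [HahnSeries.coeff_mul]
    rw [Finset.sum_eq_single (0, v.order)]
    · intro ij hij hne
      have h := (Finset.mem_antidiagonal.1 hij)
      have hs : ij.1 + ij.2 = v.order := h.2.2
      rcases lt_trichotomy ij.1 0 with h1 | h1 | h1
      · rw [hcoef _ h1, zero_mul]
      · exfalso
        apply hne
        rw [Prod.ext_iff]
        exact ⟨h1, by simp only; omega⟩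
      · rw [HahnSeries.coeff_eq_zero_of_lt_order (x := v) (by omega), mul_zero]
    · intro hni
      by_cases h2 : q.coeff 0 = 0
      · rw [h2, zero_mul]
      · exfalso
        apply hni
        rw [Finset.mem_antidiagonal]
        refine ⟨h2, ?_, by simp⟩
        exact HahnSeries.coeff_order_eq_zero.not.2 hv
  rw [hqv, coeff_euler] at h1
  exact (mul_right_cancel₀ (HahnSeries.coeff_order_eq_zero.not.2 hv) h1).symm

/-- The embedding of rational functions with `X ↦ X ^ m`, `m = ± 1`. -/
noncomputable def polyEmb (m : ℤ) : k[X] →+* LaurentSeries k :=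
  eval₂RingHom HahnSeries.C (HahnSeries.single m 1)

theorem polyEmb_monomial (m : ℤ) (n : ℕ) (a : k) :
    polyEmb m (monomial n a) = HahnSeries.single (n * m) a := by
  unfold polyEmb
  rw [coe_eval₂RingHom, eval₂_monomial, HahnSeries.single_pow, HahnSeries.C_apply,
    HahnSeries.single_mul_single]
  simp

theorem coeff_polyEmb (m : ℤ) (hm : m ≠ 0) (p : k[X]) (n : ℕ) :
    (polyEmb m p).coeff (n * m) = p.coeff n := by
  induction p using Polynomial.induction_on' with
  | add p q hp hq => rw [map_add, HahnSeries.coeff_add, hp, hq, coeff_add]
  | monomial l a =>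
    rw [polyEmb_monomial, coeff_monomial]
    by_cases h : l = n
    · subst h
      simp
    · rw [if_neg h, HahnSeries.coeff_single_of_ne]
      intro h2
      apply h
      have := mul_right_cancel₀ hm h2
      exact_mod_cast this.symm

theorem polyEmb_injective (m : ℤ) (hm : m ≠ 0) :
    Function.Injective (polyEmb (k := k) m) := by
  intro p q hpq
  ext n
  rw [← coeff_polyEmb m hm, hpq, coeff_polyEmb m hm]

/-- The embedding of rational functions with `X ↦ X ^ m`. -/
noncomputable def ratEmb (m : ℤ) (hm : m ≠ 0) : RatFunc k →+* LaurentSeries k :=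
  IsFractionRing.lift (polyEmb_injective m hm)

theorem ratEmb_algebraMap (m : ℤ) (hm : m ≠ 0) (p : k[X]) :
    ratEmb m hm (algebraMap k[X] (RatFunc k) p) = polyEmb m p :=
  IsFractionRing.lift_algebraMap _ _

theorem euler_polyEmb (m : ℤ) (p : k[X]) :
    euler k (polyEmb m p) = (m : LaurentSeries k) * polyEmb m (X * derivative p) := by
  induction p using Polynomial.induction_on' with
  | add p q hp hq => rw [map_add, map_add, hp, hq, map_add, mul_add, map_add]; ring
  | monomial l a =>
    have h0 : (m : LaurentSeries k) = HahnSeries.single 0 (m : k) := by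
      rw [← HahnSeries.C_apply, map_intCast]
    rw [derivative_monomial, X_mul, monomial_mul_X, polyEmb_monomial, polyEmb_monomial,
      euler_single, h0, HahnSeries.single_mul_single]
    rcases Nat.eq_zero_or_pos l with h | h
    · subst h
      simp
    · have h1 : l - 1 + 1 = l := by omega
      rw [h1]
      push_cast
      rw [zero_add]
      congr 1
      ring

/-- Derivations on rational functions. -/
theorem exists_der_ratEmb (a : RatFunc k) :
    ∃ b : RatFunc k, euler k (ratEmb 1 one_ne_zero a) = ratEmb 1 one_ne_zero b ∧
      -euler k (ratEmb (-1) (by norm_num) a) = ratEmb (-1) (by norm_num) b := by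
  induction a using RatFunc.induction_on with
  | _ p q hq =>
    set P := algebraMap k[X] (RatFunc k) p
    set Q := algebraMap k[X] (RatFunc k) q
    set P' := algebraMap k[X] (RatFunc k) (X * derivative p)
    set Q' := algebraMap k[X] (RatFunc k) (X * derivative q)
    refine ⟨Q⁻¹ ^ 2 * (Q * P' - P * Q'), ?_, ?_⟩
    · rw [map_div₀, Derivation.leibniz_div, map_mul, map_pow, map_inv₀, map_sub, map_mul, map_mul]
      simp only [smul_eq_mul]
      rw [ratEmb_algebraMap, ratEmb_algebraMap, ratEmb_algebraMap, ratEmb_algebraMap,
        euler_polyEmb, euler_polyEmb]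
      push_cast
      ring
    · rw [map_div₀, Derivation.leibniz_div, map_mul, map_pow, map_inv₀, map_sub, map_mul, map_mul]
      simp only [smul_eq_mul]
      rw [ratEmb_algebraMap, ratEmb_algebraMap, ratEmb_algebraMap, ratEmb_algebraMap,
        euler_polyEmb, euler_polyEmb]
      push_cast
      ring

end Pool.Agent.Helper65_Leo
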