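import Mathlib

/-!
# The complex roots of `P - t Q` for large `t`
-/

set_option autoImplicit false
set_option linter.unusedSectionVars false

open Polynomial Filter Topology

namespace Pool.Agent.Helper65_Leo

/-- Enumeration of the roots of a monic complex polynomial. -/
theorem exists_enum (f : ℂ[X]) (hf : f.Monic) (n : ℕ) (hn : f.natDegree = n) :
    ∃ y : Fin n → ℂ, f = ∏ i, (X - C (y i)) := by
  subst hn
  have h1 := (IsAlgClosed.splits f).eq_prod_roots_of_monic hf
  have hlen : f.roots.toList.length = f.natDegree := by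
    rw [Multiset.length_toList, ← (IsAlgClosed.splits f).natDegree_eq_card_roots]
  refine ⟨fun i => f.roots.toList[i.cast hlen.symm], ?_⟩
  conv_lhs => rw [h1, ← Multiset.coe_toList f.roots]
  rw [Multiset.map_coe, Multiset.prod_coe, ← Fin.prod_univ_getElem]
  refine Fintype.prod_equiv (finCongr (by rw [List.length_map, hlen])) _ _ fun i => ?_
  simp

/-- The roots of `P - t Q` for large `t`: one large root, and one root near each root of `Q`. -/
theorem arch (P Q : ℂ[X]) (hP : P.Monic) (hQ : Q.Separable)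
    (hdeg : P.natDegree = Q.natDegree + 1)
    (ε R : ℝ) (hε : 0 < ε) :
    ∃ T : ℝ, ∀ t : ℂ, T ≤ ‖t‖ → ∃ x : Option Q.roots.toFinset → ℂ, Function.Injective x ∧
      P - C t * Q = ∏ o, (X - C (x o)) ∧ (∀ w, ‖x (some w) - w‖ < ε) ∧ R < ‖x none‖ := by
  classical
  have hQ0 : Q ≠ 0 := hQ.ne_zero
  have hlc : Q.leadingCoeff ≠ 0 := leadingCoeff_ne_zero.2 hQ0
  set n := P.natDegree with hn
  have hnpos : 0 < n := by omega
  -- separation of the roots
  obtain ⟨δ, hδ, hsep⟩ : ∃ δ : ℝ, 0 < δ ∧ ∀ w w' : Q.roots.toFinset, w ≠ w' →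
      2 * δ ≤ ‖(w : ℂ) - w'‖ := by
    have h1 : ∀ q : Q.roots.toFinset × Q.roots.toFinset, ∃ δ : ℝ, 0 < δ ∧
        (q.1 ≠ q.2 → 2 * δ ≤ ‖(q.1 : ℂ) - q.2‖) := by
      intro q
      by_cases h : q.1 = q.2
      · exact ⟨1, one_pos, fun h' => absurd h h'⟩
      · refine ⟨‖(q.1 : ℂ) - q.2‖ / 2, ?_, fun _ => by linarith⟩
        have : (q.1 : ℂ) - q.2 ≠ 0 := by
          rw [sub_ne_zero]
          exact fun h' => h (Subtype.ext h')
        have := norm_pos_iff.2 this
        linarith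
    choose δ hδ1 hδ2 using h1
    rcases isEmpty_or_nonempty (Q.roots.toFinset × Q.roots.toFinset) with he | hne
    · exact ⟨1, one_pos, fun w w' => (he.false (w, w')).elim⟩
    · obtain ⟨q₀, hq₀⟩ := Finite.exists_min δ
      exact ⟨δ q₀, hδ1 q₀, fun w w' h => (by
        have := hδ2 (w, w') h
        have := hq₀ (w, w')
        linarith)⟩
  set η := min ε δ with hη
  have hηpos : 0 < η := lt_min hε hδ
  -- bounds
  obtain ⟨M, hM⟩ : ∃ M : ℝ, ∀ w : Q.roots.toFinset,
      ‖(w : ℂ)‖ + η ≤ M ∧ ‖(w : ℂ)‖ + ‖P.eval (w : ℂ)‖ / η ^ (n - 1) < M := by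
    rcases isEmpty_or_nonempty Q.roots.toFinset with he | hne
    · exact ⟨0, fun w => (he.false w).elim⟩
    · obtain ⟨w₁, hw₁⟩ := Finite.exists_max fun w : Q.roots.toFinset => ‖(w : ℂ)‖ + η
      obtain ⟨w₂, hw₂⟩ := Finite.exists_max fun w : Q.roots.toFinset =>
        ‖(w : ℂ)‖ + ‖P.eval (w : ℂ)‖ / η ^ (n - 1)
      refine ⟨max (‖(w₁ : ℂ)‖ + η) (‖(w₂ : ℂ)‖ + ‖P.eval (w₂ : ℂ)‖ / η ^ (n - 1) + 1),
        fun w => ⟨(hw₁ w).trans (le_max_left _ _), ?_⟩⟩
      exact lt_of_le_of_lt (hw₂ w) (lt_of_lt_of_le (lt_add_one _) (le_max_right _ _))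
  refine ⟨(n * (max R M + 1) + ‖P.coeff (n - 1)‖) / ‖Q.leadingCoeff‖, fun t ht => ?_⟩
  have hlc' : 0 < ‖Q.leadingCoeff‖ := norm_pos_iff.2 hlc
  rw [div_le_iff₀ hlc'] at ht
  set f : ℂ[X] := P - C t * Q with hf
  have hQP : Q.natDegree < P.natDegree := by omega
  have hfmon : f.Monic := by
    refine hP.sub_of_left ?_
    refine lt_of_le_of_lt (degree_mul_le _ _) ?_
    refine lt_of_le_of_lt (add_le_add_left degree_C_le _) ?_
    rw [zero_add]
    exact degree_lt_degree hQP
  have hfdeg : f.natDegree = n := by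
    apply natDegree_sub_eq_left_of_natDegree_lt
    exact lt_of_le_of_lt (natDegree_C_mul_le _ _) hQP
  obtain ⟨y, hy⟩ := exists_enum f hfmon n hfdeg
  -- sum of the roots
  have hsum : ∑ i, y i = t * Q.leadingCoeff - P.coeff (n - 1) := by
    have h1 : f.nextCoeff = -∑ i, y i := by
      rw [hy]
      exact prod_X_sub_C_nextCoeff _
    rw [nextCoeff_of_natDegree_pos (by omega), hfdeg, hf, coeff_sub, coeff_C_mul] at h1
    have h2 : Q.coeff (n - 1) = Q.leadingCoeff := by
      rw [hdeg, Nat.add_sub_cancel]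
      rfl
    rw [h2] at h1
    linear_combination h1
  obtain ⟨i₀, hi₀⟩ : ∃ i₀, max R M < ‖y i₀‖ := by
    by_contra hcon
    push Not at hcon
    have h1 : ‖∑ i, y i‖ ≤ n * max R M := by
      refine (norm_sum_le _ _).trans ?_
      refine (Finset.sum_le_sum fun i _ => hcon i).trans ?_
      rw [Finset.sum_const, Finset.card_univ, Fintype.card_fin, nsmul_eq_mul]
    have h2 : ‖t * Q.leadingCoeff‖ ≤ ‖∑ i, y i‖ + ‖P.coeff (n - 1)‖ := by
      have h3 : t * Q.leadingCoeff = ∑ i, y i + P.coeff (n - 1) := by rw [hsum]; ring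
      rw [h3]
      exact norm_add_le _ _
    rw [norm_mul] at h2
    have h4 : (0 : ℝ) < n := by exact_mod_cast hnpos
    nlinarith
  have hR : R < ‖y i₀‖ := lt_of_le_of_lt (le_max_left _ _) hi₀
  have hM' : M < ‖y i₀‖ := lt_of_le_of_lt (le_max_right _ _) hi₀
  -- a root near each root of `Q`
  have hnear : ∀ w : Q.roots.toFinset, ∃ i, i ≠ i₀ ∧ ‖y i - w‖ < η := by
    intro w
    by_contra hcon
    push Not at hcon
    have hw0 : Q.eval (w : ℂ) = 0 := by
      have := Multiset.mem_toFinset.1 w.2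
      exact (mem_roots hQ0).1 this
    have h1 : P.eval (w : ℂ) = ∏ i, ((w : ℂ) - y i) := by
      have h2 := congrArg (eval (w : ℂ)) hy
      rw [hf, eval_sub, eval_mul, hw0, mul_zero, sub_zero, eval_prod] at h2
      simpa using h2
    have h3 : ‖P.eval (w : ℂ)‖ = ‖(w : ℂ) - y i₀‖ * ∏ i ∈ Finset.univ.erase i₀, ‖(w : ℂ) - y i‖ := by
      rw [h1, norm_prod]
      exact (Finset.mul_prod_erase Finset.univ (fun i => ‖(w : ℂ) - y i‖)
        (Finset.mem_univ i₀)).symm
    have h4 : η ^ (n - 1) ≤ ∏ i ∈ Finset.univ.erase i₀, ‖(w : ℂ) - y i‖ := by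
      have h5 : (Finset.univ.erase i₀).card = n - 1 := by
        rw [Finset.card_erase_of_mem (Finset.mem_univ i₀), Finset.card_univ, Fintype.card_fin]
      rw [← h5, ← Finset.prod_const]
      refine Finset.prod_le_prod (fun _ _ => hηpos.le) fun i hi => ?_
      rw [norm_sub_rev]
      exact hcon i (Finset.ne_of_mem_erase hi)
    have h6 : ‖y i₀‖ - ‖(w : ℂ)‖ ≤ ‖(w : ℂ) - y i₀‖ := by
      rw [norm_sub_rev]
      exact norm_sub_norm_le _ _
    have h7 := (hM w).2
    have h8 : ‖P.eval (w : ℂ)‖ / η ^ (n - 1) < ‖y i₀‖ - ‖(w : ℂ)‖ := by linarith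
    have h9 : 0 < η ^ (n - 1) := by positivity
    rw [div_lt_iff₀ h9] at h8
    have h10 : 0 ≤ ‖y i₀‖ - ‖(w : ℂ)‖ := by
      by_contra h11
      push Not at h11
      have : (‖y i₀‖ - ‖(w : ℂ)‖) * η ^ (n - 1) < 0 := mul_neg_of_neg_of_pos h11 h9
      have := norm_nonneg (P.eval (w : ℂ))
      linarith
    have h12 : (‖y i₀‖ - ‖(w : ℂ)‖) * η ^ (n - 1) ≤ ‖P.eval (w : ℂ)‖ := by
      rw [h3]
      exact mul_le_mul h6 h4 h9.le (h10.trans h6)
    linarith
  choose idx hidx1 hidx2 using hnear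
  let I : Option Q.roots.toFinset → Fin n := fun o => o.elim i₀ idx
  have hIinj : Function.Injective I := by
    rintro (_ | w) (_ | w') h
    · rfl
    · exact absurd h.symm (hidx1 w')
    · exact absurd h (hidx1 w)
    · by_contra hne
      have hww : w ≠ w' := fun h' => hne (by rw [h'])
      have h1 := hsep w w' hww
      have h2 := hidx2 w
      have h3 := hidx2 w'
      have h4 : idx w = idx w' := h
      rw [← h4] at h3
      have h5 : ‖(w : ℂ) - w'‖ ≤ ‖y (idx w) - w'‖ + ‖y (idx w) - w‖ := by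
        have : (w : ℂ) - w' = (y (idx w) - w') - (y (idx w) - w) := by ring
        rw [this]
        exact norm_sub_le _ _
      have h6 : η ≤ δ := min_le_right _ _
      linarith
  have hcard : Fintype.card (Option Q.roots.toFinset) = Fintype.card (Fin n) := by
    rw [Fintype.card_option, Fintype.card_coe, Fintype.card_fin, hdeg,
      Multiset.toFinset_card_of_nodup (nodup_roots hQ),
      (IsAlgClosed.splits Q).natDegree_eq_card_roots]
  have hIbij : Function.Bijective I :=
    (Fintype.bijective_iff_injective_and_card I).2 ⟨hIinj, hcard⟩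
  have hprod : f = ∏ o, (X - C (y (I o))) := by
    rw [hy]
    exact (Function.Bijective.prod_comp hIbij fun i => X - C (y i)).symm
  -- the roots are distinct
  have hnorm : ∀ w, ‖y (idx w)‖ < ‖y i₀‖ := by
    intro w
    have h1 : ‖y (idx w)‖ ≤ ‖y (idx w) - w‖ + ‖(w : ℂ)‖ := by
      have : y (idx w) = (y (idx w) - w) + w := by ring
      conv_lhs => rw [this]
      exact norm_add_le _ _
    have h2 := hidx2 w
    have h3 := (hM w).1
    linarith
  refine ⟨fun o => y (I o), ?_, hprod, fun w => lt_of_lt_of_le (hidx2 w) (min_le_left _ _), hR⟩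
  rintro (_ | w) (_ | w') h
  · rfl
  · have h1 : y i₀ = y (idx w') := h
    have := hnorm w'
    rw [← h1] at this
    exact absurd this (lt_irrefl _)
  · have h1 : y (idx w) = y i₀ := h
    have := hnorm w
    rw [h1] at this
    exact absurd this (lt_irrefl _)
  · by_contra hne
    have hww : w ≠ w' := fun h' => hne (by rw [h'])
    have h1 := hsep w w' hww
    have h2 := hidx2 w
    have h3 := hidx2 w'
    have h4 : y (idx w) = y (idx w') := h
    rw [← h4] at h3
    have h5 : ‖(w : ℂ) - w'‖ ≤ ‖y (idx w) - w'‖ + ‖y (idx w) - w‖ := by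
      have : (w : ℂ) - w' = (y (idx w) - w') - (y (idx w) - w) := by ring
      rw [this]
      exact norm_sub_le _ _
    have h6 : η ≤ δ := min_le_right _ _
    linarith

end Pool.Agent.Helper65_Leo
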