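import Pool.Agent.Helper65_Leo.Taylor

/-!
# Analytic branches of algebraic functions `A(x) = s ^ E B(x)` near `s = 0`
-/

set_option autoImplicit false
set_option linter.unusedSectionVars false

open Polynomial Filter Topology

namespace Pool.Agent.Helper65_Leo

variable {k : Type*} [NontriviallyNormedField k] [CompleteSpace k] [CharZero k]

theorem exists_analytic_inverse {f : k → k} {a : k} (hf : AnalyticAt k f a)
    (hf' : deriv f a ≠ 0) :
    ∃ g : k → k, AnalyticAt k g (f a) ∧ g (f a) = a ∧ deriv g (f a) ≠ 0 ∧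
      ∀ᶠ w in 𝓝 (f a), f (g w) = w := by
  refine ⟨hf.hasStrictDerivAt.localInverse _ _ _ hf', hf.analyticAt_localInverse hf',
    HasStrictFDerivAt.localInverse_apply_image .., ?_, HasStrictDerivAt.eventually_right_inverse ..⟩
  rw [(hf.hasStrictDerivAt.to_localInverse hf').hasDerivAt.deriv]
  exact inv_ne_zero hf'

variable [IsAlgClosed k]

/-- Local `e`-th root of an analytic function with non-zero value. -/
theorem exists_analytic_root {g : k → k} {a : k} (hg : AnalyticAt k g a) (hga : g a ≠ 0)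
    (e : ℕ) (he : 0 < e) :
    ∃ v : k → k, AnalyticAt k v a ∧ v a ≠ 0 ∧ ∀ᶠ x in 𝓝 a, v x ^ e = g x := by
  obtain ⟨ρ, hρ⟩ := IsAlgClosed.exists_pow_nat_eq (g a) he
  have hρ0 : ρ ≠ 0 := by
    rintro rfl
    rw [zero_pow he.ne'] at hρ
    exact hga hρ.symm
  have h1 : AnalyticAt k (fun y : k => y ^ e) ρ := analyticAt_id.fun_pow e
  have h2 : deriv (fun y : k => y ^ e) ρ ≠ 0 := by
    rw [deriv_pow_field]
    exact mul_ne_zero (by exact_mod_cast he.ne') (pow_ne_zero _ hρ0)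
  obtain ⟨R, hR1, hR2, -, hR4⟩ := exists_analytic_inverse h1 h2
  simp only [hρ] at hR1 hR2 hR4
  refine ⟨fun x => R (g x), hR1.comp hg, by simpa [hR2] using hρ0, ?_⟩
  exact hg.continuousAt.eventually hR4

/-- **Branch lemma.** -/
theorem exists_branch {h : k → k} {x₀ : k} (hh : AnalyticAt k h x₀) (e : ℕ) (he : 0 < e)
    (hord : analyticOrderAt h x₀ = e) :
    ∃ ξ : k → k, AnalyticAt k ξ 0 ∧ ξ 0 = x₀ ∧ deriv ξ 0 ≠ 0 ∧ ∀ᶠ w in 𝓝 0, h (ξ w) = w ^ e := by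
  obtain ⟨g, hg, hg0, hgh⟩ := (hh.analyticOrderAt_eq_natCast).1 hord
  obtain ⟨v, hv, hv0, hvg⟩ := exists_analytic_root hg hg0 e he
  have hsub : AnalyticAt k (fun x : k => x - x₀) x₀ := analyticAt_id.fun_sub analyticAt_const
  have hH : AnalyticAt k (fun x => (x - x₀) * v x) x₀ := hsub.fun_mul hv
  have hH' : deriv (fun x => (x - x₀) * v x) x₀ ≠ 0 := by
    have h1 : HasDerivAt (fun x : k => x - x₀) 1 x₀ := (hasDerivAt_id x₀).sub_const x₀
    have h2 := h1.mul hv.differentiableAt.hasDerivAt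
    have h3 : deriv (fun x => (x - x₀) * v x) x₀ = 1 * v x₀ + (x₀ - x₀) * deriv v x₀ := h2.deriv
    rw [h3]
    simpa using hv0
  obtain ⟨ξ, hξ1, hξ2, hξ3, hξ4⟩ := exists_analytic_inverse hH hH'
  simp only [sub_self, zero_mul] at hξ1 hξ2 hξ3 hξ4
  refine ⟨ξ, hξ1, hξ2, hξ3, ?_⟩
  have hcont : Tendsto ξ (𝓝 0) (𝓝 x₀) := by
    have := hξ1.continuousAt.tendsto
    rwa [hξ2] at this
  filter_upwards [hξ4, hcont.eventually hgh, hcont.eventually hvg] with w h1 h2 h3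
  rw [h2, ← h3, smul_eq_mul, ← mul_pow, h1]

/-- The quotient of polynomials and its order. -/
theorem analyticOrderAt_div (A B : k[X]) (hA : A ≠ 0) (x₀ : k) (hB : B.eval x₀ ≠ 0) :
    AnalyticAt k (fun x => A.eval x / B.eval x) x₀ ∧
      analyticOrderAt (fun x => A.eval x / B.eval x) x₀ = (A.rootMultiplicity x₀ : ℕ) := by
  have hpoly : ∀ q : k[X], AnalyticAt k (fun x => q.eval x) x₀ := by
    intro q
    exact analyticAt_aeval analyticAt_id q
  have h1 : AnalyticAt k (fun x => A.eval x / B.eval x) x₀ := (hpoly A).fun_div (hpoly B) hB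
  refine ⟨h1, ?_⟩
  rw [h1.analyticOrderAt_eq_natCast]
  obtain ⟨q, hq, hq2⟩ := exists_eq_pow_rootMultiplicity_mul_and_not_dvd A hA x₀
  refine ⟨fun x => q.eval x / B.eval x, (hpoly q).fun_div (hpoly B) hB, ?_, ?_⟩
  · refine div_ne_zero ?_ hB
    intro h0
    exact hq2 (dvd_iff_isRoot.2 h0)
  · refine Eventually.of_forall fun x => ?_
    conv_lhs => rw [hq]
    rw [eval_mul, eval_pow, eval_sub, eval_X, eval_C, smul_eq_mul, mul_div_assoc]

/-- The branches at one point. -/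
theorem exists_local_branches (A B : k[X]) (hA : A ≠ 0) (x₀ : k) (hx₀ : A.eval x₀ = 0)
    (hB : B.eval x₀ ≠ 0) (E : ℕ) (hE : 0 < E) (hdvd : A.rootMultiplicity x₀ ∣ E) :
    ∃ φ : Fin (A.rootMultiplicity x₀) → k → k, (∀ ν, AnalyticAt k (φ ν) 0) ∧
      (∀ ν, φ ν 0 = x₀) ∧
      (∀ ν, ∀ᶠ s in 𝓝 0, A.eval (φ ν s) = s ^ E * B.eval (φ ν s)) ∧
      (∀ ν μ, ν ≠ μ → ¬ ∀ᶠ s in 𝓝 0, φ ν s = φ μ s) ∧
      (∀ ν, ¬ ∀ᶠ s in 𝓝 0, φ ν s = x₀) := by
  set e := A.rootMultiplicity x₀ with he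
  have hepos : 0 < e := (rootMultiplicity_pos hA).2 hx₀
  obtain ⟨h1, h2⟩ := analyticOrderAt_div A B hA x₀ hB
  obtain ⟨ξ, hξ1, hξ2, hξ3, hξ4⟩ := exists_branch h1 e hepos h2
  obtain ⟨q, hq⟩ := hdvd
  have hqpos : 0 < q := by
    rcases Nat.eq_zero_or_pos q with h | h
    · rw [h, mul_zero] at hq; omega
    · exact h
  have hne : NeZero e := ⟨hepos.ne'⟩
  have hne' : NeZero (e : k) := ⟨by exact_mod_cast hepos.ne'⟩
  obtain ⟨ω, hω⟩ := HasEnoughRootsOfUnity.exists_primitiveRoot k e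
  have hω0 : ω ≠ 0 := hω.ne_zero hepos.ne'
  have hinner : ∀ c : k, AnalyticAt k (fun s : k => c * s ^ q) 0 := fun c =>
    analyticAt_const.fun_mul (analyticAt_id.fun_pow q)
  have hinner0 : ∀ c : k, c * (0 : k) ^ q = 0 := fun c => by rw [zero_pow hqpos.ne', mul_zero]
  have htend : ∀ c : k, Tendsto (fun s : k => c * s ^ q) (𝓝 0) (𝓝 0) := by
    intro c
    have := (hinner c).continuousAt.tendsto
    rwa [hinner0] at this
  -- local injectivity of `ξ`
  have hinj : ∀ᶠ z : k × k in 𝓝 0 ×ˢ 𝓝 0, ξ z.1 = ξ z.2 → z.1 = z.2 := by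
    have h3 := (hξ1.hasStrictDerivAt).eventually_left_inverse hξ3
    have h4 : ∀ᶠ z : k × k in 𝓝 0 ×ˢ 𝓝 0, _ := h3.prod_mk h3
    filter_upwards [h4] with z h5 h6
    rw [← h5.1, ← h5.2, h6]
  have hex : ∀ c d : k, c ≠ d → ¬ ∀ᶠ s in 𝓝 0, ξ (c * s ^ q) = ξ (d * s ^ q) := by
    intro c d hcd hev
    have h5 := ((htend c).prodMk (htend d)).eventually hinj
    have h6 : ∀ᶠ s : k in 𝓝 0, s = 0 := by
      filter_upwards [hev, h5] with s h7 h8
      have h9 : c * s ^ q = d * s ^ q := h8 h7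
      have h10 : (c - d) * s ^ q = 0 := by rw [sub_mul, h9, sub_self]
      rcases mul_eq_zero.1 h10 with h11 | h11
      · exact absurd (sub_eq_zero.1 h11) hcd
      · exact pow_eq_zero_iff hqpos.ne' |>.1 h11
    have h7 : ∃ᶠ s : k in 𝓝[≠] 0, s = 0 := (h6.filter_mono nhdsWithin_le_nhds).frequently
    have h8 : ∀ᶠ s : k in 𝓝[≠] 0, s ≠ 0 := eventually_mem_nhdsWithin
    obtain ⟨s, h9, h10⟩ := (h7.and_eventually h8).exists
    exact h10 h9
  refine ⟨fun ν s => ξ (ω ^ (ν : ℕ) * s ^ q), fun ν => ?_, fun ν => ?_, fun ν => ?_,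
    fun ν μ hνμ => ?_, fun ν => ?_⟩
  · refine AnalyticAt.fun_comp ?_ (hinner _)
    rw [hinner0]
    exact hξ1
  · change ξ (ω ^ (ν : ℕ) * 0 ^ q) = x₀
    rw [hinner0, hξ2]
  · have hcont : Tendsto (fun s => ξ (ω ^ (ν : ℕ) * s ^ q)) (𝓝 0) (𝓝 x₀) := by
      have := hξ1.continuousAt.tendsto
      rw [hξ2] at this
      exact this.comp (htend _)
    have hBne : ∀ᶠ x in 𝓝 x₀, B.eval x ≠ 0 := B.continuous.continuousAt.eventually_ne hB
    filter_upwards [(htend (ω ^ (ν : ℕ))).eventually hξ4, hcont.eventually hBne] with s h3 h4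
    rw [mul_pow, ← pow_mul, ← pow_mul, mul_comm (ν : ℕ) e, pow_mul ω, hω.pow_eq_one, one_pow,
      one_mul, mul_comm q e, ← hq] at h3
    rw [div_eq_iff h4] at h3
    exact h3
  · refine hex _ _ ?_
    intro h3
    apply hνμ
    have := hω.pow_inj ν.2 μ.2 h3
    exact Fin.ext this
  · have h3 := hex (ω ^ (ν : ℕ)) 0 (pow_ne_zero _ hω0)
    simpa [hξ2] using h3

end Pool.Agent.Helper65_Leo
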