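import Pool.Agent.Helper65_Leo.Sig

/-!
# Counting the real roots of `Q = ∏ g i`
-/

set_option autoImplicit false
set_option linter.unusedSectionVars false

open Polynomial Filter Topology NumberField

namespace Pool.Agent.Helper65_Leo

variable {ι : Type} [Fintype ι] {g : ι → ℤ[X]}

theorem int_map_real_complex (q : ℤ[X]) :
    (q.map (Int.castRingHom ℝ)).map (algebraMap ℝ ℂ) = q.map (Int.castRingHom ℂ) := by
  rw [Polynomial.map_map]
  congr 1

theorem int_map_rat_complex (q : ℤ[X]) :
    (q.map (Int.castRingHom ℚ)).map (algebraMap ℚ ℂ) = q.map (Int.castRingHom ℂ) := by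
  rw [Polynomial.map_map]
  congr 1

theorem separable_prod_g (hirr : ∀ i, Irreducible ((g i).map (Int.castRingHom ℝ)))
    (hgg : Pairwise fun i j => IsCoprime ((g i).map (Int.castRingHom ℚ))
      ((g j).map (Int.castRingHom ℚ))) :
    ((∏ i, g i).map (Int.castRingHom ℂ)).Separable := by
  rw [Polynomial.map_prod]
  refine separable_prod' (fun i _ j _ hij => ?_) fun i _ => ?_
  · rw [← int_map_rat_complex, ← int_map_rat_complex]
    exact (hgg hij).map (Polynomial.mapRingHom (algebraMap ℚ ℂ))
  · rw [← int_map_real_complex]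
    exact (hirr i).separable.map

theorem coprime_eval (hgg : Pairwise fun i j => IsCoprime ((g i).map (Int.castRingHom ℚ))
      ((g j).map (Int.castRingHom ℚ))) {i j : ι} {z : ℂ}
    (hi : ((g i).map (Int.castRingHom ℂ)).eval z = 0)
    (hj : ((g j).map (Int.castRingHom ℂ)).eval z = 0) : i = j := by
  by_contra hij
  have h1 : IsCoprime ((g i).map (Int.castRingHom ℂ)) ((g j).map (Int.castRingHom ℂ)) := by
    rw [← int_map_rat_complex, ← int_map_rat_complex]
    exact (hgg hij).map (Polynomial.mapRingHom (algebraMap ℚ ℂ))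
  obtain ⟨a, b, hab⟩ := h1
  have h2 := congrArg (eval z) hab
  rw [eval_add, eval_mul, eval_mul, hi, hj] at h2
  simp at h2

theorem natDegree_map_int {F : Type*} [Field F] [CharZero F] (q : ℤ[X]) :
    (q.map (Int.castRingHom F)).natDegree = q.natDegree :=
  natDegree_map_eq_of_injective (RingHom.injective_int _) q

/-- The number of real roots of `∏ g i`. -/
theorem card_real_roots (hirr : ∀ i, Irreducible ((g i).map (Int.castRingHom ℝ)))
    (hgg : Pairwise fun i j => IsCoprime ((g i).map (Int.castRingHom ℚ))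
      ((g j).map (Int.castRingHom ℚ)))
    {W : Finset ℂ} (hW : ∀ w, w ∈ W ↔ ((∏ i, g i).map (Int.castRingHom ℂ)).eval w = 0)
    [Fintype {w : W // (starRingEnd ℂ) (w : ℂ) = w}] [Fintype {i // (g i).natDegree = 1}] :
    Fintype.card {w : W // (starRingEnd ℂ) (w : ℂ) = w} =
      Fintype.card {i // (g i).natDegree = 1} := by
  classical
  have h1 : ∀ w : {w : W // (starRingEnd ℂ) (w : ℂ) = w}, ∃ i,
      ((g i).map (Int.castRingHom ℂ)).eval (w : ℂ) = 0 := by
    intro w
    have h2 := (hW w).1 w.1.2
    rw [Polynomial.map_prod, eval_prod, Finset.prod_eq_zero_iff] at h2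
    obtain ⟨i, -, hi⟩ := h2
    exact ⟨i, hi⟩
  choose f hf using h1
  have h2 : ∀ w, (g (f w)).natDegree = 1 := by
    intro w
    obtain ⟨r, hr⟩ := Complex.conj_eq_iff_real.1 w.2
    have h3 := hf w
    rw [hr, ← int_map_real_complex, eval_map, ← Complex.coe_algebraMap, eval₂_at_apply,
      Complex.coe_algebraMap] at h3
    have h4 : ((g (f w)).map (Int.castRingHom ℝ)).IsRoot r := by
      exact_mod_cast h3
    have h5 := degree_eq_one_of_irreducible_of_root (hirr (f w)) h4
    rw [← natDegree_map_int (F := ℝ)]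
    exact natDegree_eq_of_degree_eq_some h5
  refine Fintype.card_congr (Equiv.ofBijective (fun w => ⟨f w, h2 w⟩) ⟨?_, ?_⟩)
  · intro w w' hww
    have h3 : f w = f w' := congrArg Subtype.val hww
    have h4 := hf w
    have h5 := hf w'
    rw [← h3] at h5
    have hd : ((g (f w)).map (Int.castRingHom ℂ)).natDegree ≤ 1 := by
      rw [natDegree_map_int, h2 w]
    obtain ⟨a, b, hab⟩ := exists_eq_X_add_C_of_natDegree_le_one hd
    have ha : a ≠ 0 := by
      rintro rfl
      have h6 : ((g (f w)).map (Int.castRingHom ℂ)).natDegree = 1 := by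
        rw [natDegree_map_int, h2 w]
      rw [hab] at h6
      simp at h6
    rw [hab] at h4 h5
    simp only [eval_add, eval_mul, eval_C, eval_X] at h4 h5
    apply Subtype.ext
    apply Subtype.ext
    have h7 : a * ((w.1 : ℂ) - w'.1) = 0 := by linear_combination h4 - h5
    rcases mul_eq_zero.1 h7 with h8 | h8
    · exact absurd h8 ha
    · exact sub_eq_zero.1 h8
  · rintro ⟨i, hi⟩
    have hd' : ((g i).map (Int.castRingHom ℝ)).degree = ((1 : ℕ) : WithBot ℕ) := by
      rw [degree_eq_iff_natDegree_eq_of_pos one_pos, natDegree_map_int, hi]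
    have hd : ((g i).map (Int.castRingHom ℝ)).degree = 1 := by exact_mod_cast hd'
    obtain ⟨r, hr⟩ := exists_root_of_degree_eq_one hd
    have h3 : ((g i).map (Int.castRingHom ℂ)).eval (r : ℂ) = 0 := by
      rw [← int_map_real_complex, eval_map, ← Complex.coe_algebraMap, eval₂_at_apply,
        hr.eq_zero, map_zero]
    have h4 : (r : ℂ) ∈ W := by
      rw [hW, Polynomial.map_prod, eval_prod]
      exact Finset.prod_eq_zero (Finset.mem_univ i) h3
    refine ⟨⟨⟨(r : ℂ), h4⟩, Complex.conj_ofReal r⟩, ?_⟩
    apply Subtype.ext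
    exact coprime_eval hgg (hf _) h3

/-- The degrees of the factors. -/
theorem natDegree_prod_g (hirr : ∀ i, Irreducible ((g i).map (Int.castRingHom ℝ)))
    [Fintype {i // (g i).natDegree = 1}] [Fintype {i // (g i).natDegree = 2}] :
    (∏ i, g i).natDegree = Fintype.card {i // (g i).natDegree = 1} +
      2 * Fintype.card {i // (g i).natDegree = 2} ∧
    Fintype.card ι = Fintype.card {i // (g i).natDegree = 1} +
      Fintype.card {i // (g i).natDegree = 2} := by
  classical
  have hne : ∀ i, g i ≠ 0 := by
    intro i h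
    apply (hirr i).ne_zero
    rw [h, Polynomial.map_zero]
  have h1 : ∀ i, (g i).natDegree = 1 ∨ (g i).natDegree = 2 := by
    intro i
    have h2 := (hirr i).natDegree_le_two
    have h3 := (hirr i).natDegree_pos
    rw [natDegree_map_int] at h2 h3
    omega
  rw [natDegree_prod _ _ fun i _ => hne i]
  rw [Fintype.card_subtype, Fintype.card_subtype, ← Finset.card_univ]
  have h4 : ∀ i, (g i).natDegree = (if (g i).natDegree = 1 then 1 else 0) +
      2 * (if (g i).natDegree = 2 then 1 else 0) := by
    intro i
    rcases h1 i with h | h <;> simp [h]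
  have h5 : ∀ i ∈ (Finset.univ : Finset ι), (1 : ℕ) = (if (g i).natDegree = 1 then 1 else 0) +
      (if (g i).natDegree = 2 then 1 else 0) := by
    intro i _
    rcases h1 i with h | h <;> simp [h]
  constructor
  · rw [Finset.sum_congr rfl fun i _ => h4 i, Finset.sum_add_distrib, ← Finset.mul_sum,
      Finset.card_filter, Finset.card_filter]
  · rw [Finset.card_eq_sum_ones, Finset.sum_congr rfl h5, Finset.sum_add_distrib,
      Finset.card_filter, Finset.card_filter]

end Pool.Agent.Helper65_Leo
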