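import Pool.Agent.Helper65_Leo.Transfer
import Pool.Agent.Helper65_Leo.Laurent

/-!
# Non-vanishing of minors of logarithms: formal version

The equation `A(x) = s ^ E B(x)` is considered near `s = 0` and near `s = ∞`.
-/

set_option autoImplicit false
set_option linter.unusedSectionVars false

open Polynomial

attribute [-instance] HahnSeries.powerSeriesAlgebra

namespace Pool.Agent.Helper65_Leo

/-- A monic polynomial with as many distinct roots as its degree is the product of the
corresponding linear factors. -/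
theorem eq_prod_of_roots {F : Type*} [Field F] (f : F[X]) (hf : f.Monic) {J : Type*} [Fintype J]
    (ξ : J → F) (hinj : Function.Injective ξ) (hroot : ∀ j, f.eval (ξ j) = 0)
    (hcard : Fintype.card J = f.natDegree) : f = ∏ j, (X - C (ξ j)) := by
  classical
  have hdvd : ∏ j, (X - C (ξ j)) ∣ f := by
    refine Finset.prod_dvd_of_coprime ?_ fun j _ => dvd_iff_isRoot.2 (hroot j)
    intro i _ j _ hij
    exact pairwise_coprime_X_sub_C hinj hij
  have hmon : (∏ j, (X - C (ξ j))).Monic := monic_prod_of_monic _ _ fun j _ => monic_X_sub_C _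
  refine (eq_of_monic_of_dvd_of_natDegree_le hmon hf hdvd ?_)
  rw [natDegree_finsetProd_X_sub_C_eq_card, Finset.card_univ, hcard]

variable {k : Type*} [Field k]

theorem ratEmb_C (m : ℤ) (hm : m ≠ 0) (c : k) :
    ratEmb m hm (algebraMap k (RatFunc k) c) = algebraMap k (LaurentSeries k) c := by
  have h1 : algebraMap k (RatFunc k) c = algebraMap k[X] (RatFunc k) (C c) := rfl
  rw [h1, ratEmb_algebraMap, ← monomial_zero_left, polyEmb_monomial, ← HahnSeries.C_eq_algebraMap,
    HahnSeries.C_apply]
  simp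

theorem ratEmb_X_pow (m : ℤ) (hm : m ≠ 0) (n : ℕ) :
    ratEmb m hm (algebraMap k[X] (RatFunc k) (X ^ n)) = HahnSeries.single (n * m) (1 : k) := by
  rw [ratEmb_algebraMap, ← monomial_one_right_eq_X_pow, polyEmb_monomial]

variable (k) in
/-- The algebra structure of Laurent series over rational functions given by `X ↦ X ^ m`. -/
@[reducible] noncomputable def algPow (m : ℤ) (hm : m ≠ 0) :
    Algebra (RatFunc k) (LaurentSeries k) := (ratEmb m hm).toAlgebra

/-- The polynomial `A - s ^ E B` over rational functions in `s`. -/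
noncomputable def famPoly (A B : k[X]) (E : ℕ) : (RatFunc k)[X] :=
  A.map (algebraMap k (RatFunc k)) -
    C (algebraMap k[X] (RatFunc k) (X ^ E)) * B.map (algebraMap k (RatFunc k))

theorem algebraMap_X_pow_ne_zero (E : ℕ) : algebraMap k[X] (RatFunc k) (X ^ E) ≠ 0 := by
  rw [Ne, map_eq_zero_iff _ (IsFractionRing.injective k[X] (RatFunc k))]
  exact pow_ne_zero _ X_ne_zero

theorem famPoly_monic (A B : k[X]) (E : ℕ) (hA : A.Monic) (hAB : B.degree < A.degree) :
    (famPoly A B E).Monic := by
  refine Monic.sub_of_left (hA.map _) ?_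
  rw [degree_map_eq_of_injective (algebraMap k (RatFunc k)).injective]
  rw [degree_C_mul (algebraMap_X_pow_ne_zero E)]
  rwa [degree_map_eq_of_injective (algebraMap k (RatFunc k)).injective]

theorem famPoly_natDegree (A B : k[X]) (E : ℕ) (hA : A.Monic) (hAB : B.degree < A.degree) :
    (famPoly A B E).natDegree = A.natDegree := by
  apply natDegree_eq_of_degree_eq
  unfold famPoly
  rw [degree_sub_eq_left_of_degree_lt,
    degree_map_eq_of_injective (algebraMap k (RatFunc k)).injective]
  rw [degree_map_eq_of_injective (algebraMap k (RatFunc k)).injective]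
  rw [degree_C_mul (algebraMap_X_pow_ne_zero E)]
  rwa [degree_map_eq_of_injective (algebraMap k (RatFunc k)).injective]

theorem eval_famPoly_map (A B : k[X]) (E : ℕ) (m : ℤ) (hm : m ≠ 0) (x : LaurentSeries k) :
    ((famPoly A B E).map (ratEmb m hm)).eval x =
      aeval x A - HahnSeries.single (E * m) (1 : k) * aeval x B := by
  have h1 : ∀ q : k[X], (q.map (algebraMap k (RatFunc k))).map (ratEmb m hm) =
      q.map (algebraMap k (LaurentSeries k)) := by
    intro q
    rw [Polynomial.map_map]
    congr 1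
    ext1 c
    exact ratEmb_C m hm c
  unfold famPoly
  rw [Polynomial.map_sub, Polynomial.map_mul, map_C, h1, h1, eval_sub, eval_mul, eval_C,
    eval_map_algebraMap, eval_map_algebraMap, ratEmb_X_pow]

theorem formal_minor [CharZero k] (A B : k[X]) (hA : A.Monic) (hAB : B.degree < A.degree) (E : ℕ)
    {J J' : Type*} [Fintype J] [Fintype J']
    (ξ : J → LaurentSeries k) (hξ : Function.Injective ξ) (hJ : Fintype.card J = A.natDegree)
    (hξA : ∀ j, aeval (ξ j) A = HahnSeries.single (E : ℤ) (1 : k) * aeval (ξ j) B)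
    (ζ : J' → LaurentSeries k) (hζ : Function.Injective ζ) (hJ' : Fintype.card J' = A.natDegree)
    (hζA : ∀ j, HahnSeries.single (E : ℤ) (1 : k) * aeval (ζ j) A = aeval (ζ j) B)
    {ι : Type*} [Fintype ι] [DecidableEq ι] (u : ι → k[X])
    (hu : ∀ i j, aeval (ξ j) (u i) ≠ 0)
    (L : ι → J → LaurentSeries k)
    (hL : ∀ i j, euler k (L i j) * aeval (ξ j) (u i) = euler k (aeval (ξ j) (u i)))
    (e' : ι → J') (hne : ∀ i l, aeval (ζ (e' l)) (u i) ≠ 0)
    (hdet : (Matrix.of fun i l => ((aeval (ζ (e' l)) (u i)).order : k)).det ≠ 0) :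
    ∃ e : ι → J, (Matrix.of fun i l => L i (e l)).det ≠ 0 := by
  have h1ne : (1 : ℤ) ≠ 0 := one_ne_zero
  have hm1ne : (-1 : ℤ) ≠ 0 := by norm_num
  have hmonic := famPoly_monic A B E hA hAB
  have hdeg := famPoly_natDegree A B E hA hAB
  have hfF : (famPoly A B E).map (ratEmb 1 h1ne) = ∏ j, (X - C (ξ j)) := by
    refine eq_prod_of_roots _ (hmonic.map _) ξ hξ (fun j => ?_) ?_
    · rw [eval_famPoly_map, mul_one, hξA, sub_self]
    · rw [natDegree_map, hdeg, hJ]
  have hfG : (famPoly A B E).map (ratEmb (-1) hm1ne) = ∏ j, (X - C (ζ j)) := by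
    refine eq_prod_of_roots _ (hmonic.map _) ζ hζ (fun j => ?_) ?_
    · rw [eval_famPoly_map, ← hζA, ← mul_assoc, HahnSeries.single_mul_single]
      have : (E : ℤ) * (-1) + E = 0 := by ring
      rw [this, one_mul, ← HahnSeries.C_apply, map_one, one_mul, sub_self]
    · rw [natDegree_map, hdeg, hJ']
  have hcharK : CharZero (RatFunc k) :=
    (RingHom.charZero_iff (algebraMap k (RatFunc k)).injective).1 inferInstance
  let r : LaurentSeries k →ₗ[k] k :=
    { toFun := fun f => f.coeff 0
      map_add' := fun f g => rfl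
      map_smul' := fun c f => rfl }
  let algF : Algebra (RatFunc k) (LaurentSeries k) := algPow k 1 h1ne
  have towF : IsScalarTower k (RatFunc k) (LaurentSeries k) :=
    IsScalarTower.of_algebraMap_eq fun c => (ratEmb_C 1 h1ne c).symm
  have towG : @IsScalarTower k (RatFunc k) (LaurentSeries k) _
      (algPow k (-1) hm1ne).toSMul _ :=
    @IsScalarTower.of_algebraMap_eq k (RatFunc k) (LaurentSeries k) _ _ _ _
      (algPow k (-1) hm1ne) _ fun c => (ratEmb_C (-1) hm1ne c).symm
  refine @exists_minor_ne_zero k (RatFunc k) (LaurentSeries k) (LaurentSeries k) _ _ _ _ _ _ _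
    algF (algPow k (-1) hm1ne) towF towG hcharK (euler k) (-euler k) ?_ ?_ r ?_
    (famPoly A B E) J J' _ _ ξ hξ hfF ζ hfG ι _ _ u hu L hL e' ?_
  · intro a
    obtain ⟨b, hb1, hb2⟩ := exists_der_ratEmb a
    exact ⟨b, hb1, hb2⟩
  · exact mem_range_of_euler_eq_zero
  · intro x
    change (-euler k x).coeff 0 = 0
    rw [HahnSeries.coeff_neg, coeff_euler]
    simp
  · have h1 : (Matrix.of fun i l =>
        r ((-euler k) (aeval (ζ (e' l)) (u i)) / aeval (ζ (e' l)) (u i))) =
        -(Matrix.of fun i l => ((aeval (ζ (e' l)) (u i)).order : k)) := by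
      ext i l
      simp only [Matrix.of_apply, Matrix.neg_apply]
      change (-euler k (aeval (ζ (e' l)) (u i)) / aeval (ζ (e' l)) (u i)).coeff 0 = _
      rw [neg_div, HahnSeries.coeff_neg, coeff_zero_euler_div _ (hne i l)]
    rw [h1, Matrix.det_neg]
    exact mul_ne_zero (pow_ne_zero _ (by norm_num)) hdet

end Pool.Agent.Helper65_Leo
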