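import Pool.Agent.Helper65_Leo.Branch
import Pool.Agent.Helper65_Leo.Formal

/-!
# All branches of `A(x) = s ^ E B(x)` at `s = 0` and at `s = ∞`, and non-vanishing of minors of
logarithms for analytic functions
-/

set_option autoImplicit false
set_option linter.unusedSectionVars false

open Polynomial Filter Topology

attribute [-instance] HahnSeries.powerSeriesAlgebra

namespace Pool.Agent.Helper65_Leo

section mult

variable {k : Type*} [Field k]

theorem rootMultiplicity_le_natDegree' (A : k[X]) (x : k) :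
    A.rootMultiplicity x ≤ A.natDegree := by
  classical
  rw [← count_roots]
  exact (Multiset.count_le_card _ _).trans (card_roots' A)

theorem sum_rootMultiplicity [IsAlgClosed k] [DecidableEq k] (A : k[X]) :
    ∑ x ∈ A.roots.toFinset, A.rootMultiplicity x = A.natDegree := by
  rw [(IsAlgClosed.splits A).natDegree_eq_card_roots, ← Multiset.toFinset_sum_count_eq]
  refine Finset.sum_congr rfl fun x _ => ?_
  rw [count_roots]

theorem rootMultiplicity_reflect (B : k[X]) (hB : B ≠ 0) (n : ℕ) (hn : B.natDegree ≤ n) :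
    (reflect n B).rootMultiplicity 0 = n - B.natDegree := by
  rw [rootMultiplicity_eq_natTrailingDegree']
  apply le_antisymm
  · apply natTrailingDegree_le_of_ne_zero
    rw [coeff_reflect, revAt_le (by omega)]
    have : n - (n - B.natDegree) = B.natDegree := by omega
    rw [this]
    exact leadingCoeff_ne_zero.2 hB
  · apply le_natTrailingDegree
    · rw [Ne, reflect_eq_zero_iff]; exact hB
    · intro m hm
      rw [coeff_reflect, revAt_le (by omega)]
      exact coeff_eq_zero_of_natDegree_lt (by omega)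

end mult

variable {k : Type} [NontriviallyNormedField k] [CompleteSpace k] [CharZero k] [IsAlgClosed k]

/-- All branches at `s = 0`. -/
theorem exists_branches (A B : k[X]) (hA : A ≠ 0)
    (hcop : ∀ x, A.eval x = 0 → B.eval x ≠ 0) (E : ℕ) (hE : 0 < E)
    (hdvd : ∀ x, A.eval x = 0 → A.rootMultiplicity x ∣ E) :
    ∃ (J : Type) (_ : Fintype J) (φ : J → k → k), Fintype.card J = A.natDegree ∧
      (∀ j, AnalyticAt k (φ j) 0) ∧ (∀ j, A.eval (φ j 0) = 0) ∧
      (∀ j, ∀ᶠ s in 𝓝 0, A.eval (φ j s) = s ^ E * B.eval (φ j s)) ∧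
      (∀ j l, j ≠ l → ¬ ∀ᶠ s in 𝓝 0, φ j s = φ l s) ∧
      (∀ j, ¬ ∀ᶠ s in 𝓝 0, φ j s = φ j 0) ∧ (∀ x, A.eval x = 0 → ∃ j, φ j 0 = x) := by
  classical
  have hroot : ∀ x : A.roots.toFinset, A.eval (x : k) = 0 := by
    intro x
    have := Multiset.mem_toFinset.1 x.2
    exact ((mem_roots hA).1 this)
  choose φ h1 h2 h3 h4 h5 using fun x : A.roots.toFinset =>
    exists_local_branches A B hA x (hroot x) (hcop x (hroot x)) E hE (hdvd x (hroot x))
  refine ⟨Σ x : A.roots.toFinset, Fin (A.rootMultiplicity (x : k)), inferInstance,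
    fun j => φ j.1 j.2, ?_, fun j => h1 _ _, fun j => ?_, fun j => h3 _ _, ?_, fun j => ?_, ?_⟩
  · rw [Fintype.card_sigma]
    simp only [Fintype.card_fin]
    rw [← sum_rootMultiplicity A, Finset.sum_coe_sort A.roots.toFinset
      (fun x => A.rootMultiplicity x)]
  · change A.eval (φ j.1 j.2 0) = 0
    rw [h2]; exact hroot _
  · rintro ⟨x, ν⟩ ⟨y, μ⟩ hne hev
    by_cases hxy : x = y
    · subst hxy
      refine h4 x ν μ ?_ hev
      rintro rfl
      exact hne rfl
    · have h6 := hev.self_of_nhds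
      simp only at h6
      rw [h2, h2] at h6
      exact hxy (Subtype.ext h6)
  · change ¬ ∀ᶠ s in 𝓝 0, φ j.1 j.2 s = φ j.1 j.2 0
    rw [h2]; exact h5 _ _
  · intro x hx
    have hmem : x ∈ A.roots.toFinset := Multiset.mem_toFinset.2 ((mem_roots hA).2 hx)
    have hpos : 0 < A.rootMultiplicity x := (rootMultiplicity_pos hA).2 hx
    exact ⟨⟨⟨x, hmem⟩, ⟨0, hpos⟩⟩, h2 _ _⟩

theorem single_eq_lau (E : ℕ) :
    (HahnSeries.single (E : ℤ) (1 : k) : LaurentSeries k) = lau (fun s : k => s ^ E) := by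
  have h0 : AnalyticAt k (fun s : k => s) 0 := analyticAt_id
  rw [lau_pow h0, lau_id, HahnSeries.single_pow]
  simp

/-- Laurent series of two branches are different. -/
theorem lau_ne_of_not_eventually {f g : k → k} (hf : AnalyticAt k f 0) (hg : AnalyticAt k g 0)
    (h : ¬ ∀ᶠ s in 𝓝 0, f s = g s) : lau f ≠ lau g := by
  intro heq
  apply h
  have h1 : AnalyticAt k (fun s => f s + (-1) * g s) 0 := hf.fun_add (analyticAt_const.fun_mul hg)
  have h2 : lau (fun s => f s + (-1) * g s) = 0 := by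
    rw [lau_add hf (analyticAt_const.fun_mul hg), lau_mul analyticAt_const hg, heq, lau_const]
    simp
  filter_upwards [eventually_eq_zero_of_lau h1 h2] with s hs
  linear_combination hs

/-- The values of the branches satisfy the equation in Laurent series. -/
theorem lau_branch {A B : k[X]} {E : ℕ} {φ : k → k} (hφ : AnalyticAt k φ 0)
    (h : ∀ᶠ s in 𝓝 0, A.eval (φ s) = s ^ E * B.eval (φ s)) :
    aeval (lau φ) A = HahnSeries.single (E : ℤ) (1 : k) * aeval (lau φ) B := by
  have h0 : AnalyticAt k (fun s : k => s) 0 := analyticAt_id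
  rw [← lau_eval hφ, ← lau_eval hφ, single_eq_lau,
    ← lau_mul (h0.fun_pow E) (analyticAt_aeval hφ B)]
  exact lau_congr h

/-- Order of a polynomial at a branch, first case. -/
theorem order_eval_of_ne {φ : k → k} (hφ : AnalyticAt k φ 0) (u : k[X]) (hu : u.eval (φ 0) ≠ 0) :
    aeval (lau φ) u ≠ 0 ∧ (aeval (lau φ) u).order = 0 := by
  rw [← lau_eval hφ]
  have h1 := analyticAt_aeval hφ u
  have h2 : analyticOrderAt (fun s => u.eval (φ s)) 0 = (0 : ℕ) := by
    rw [Nat.cast_zero, h1.analyticOrderAt_eq_zero]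
    exact hu
  simpa using order_lau h1 0 h2

/-- Order of a polynomial at a branch, second case. -/
theorem order_eval_of_eq {φ : k → k} (hφ : AnalyticAt k φ 0) (u : k[X]) (hu0 : u ≠ 0)
    (hu : u.eval (φ 0) = 0) (hne : ¬ ∀ᶠ s in 𝓝 0, φ s = φ 0) :
    aeval (lau φ) u ≠ 0 ∧ (aeval (lau φ) u).order ≠ 0 := by
  classical
  rw [← lau_eval hφ]
  have h1 := analyticAt_aeval hφ u
  have h2 : analyticOrderAt (fun s => u.eval (φ s)) 0 ≠ ⊤ := by
    intro h
    rw [analyticOrderAt_eq_top] at h
    apply hne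
    have h3 : ∀ᶠ x in 𝓝 (φ 0), u.eval x = 0 → x = φ 0 := by
      have hfin : (u.roots.toFinset : Set k).Finite := u.roots.toFinset.finite_toSet
      have h4 : ∀ᶠ x in 𝓝 (φ 0), x ∉ ((u.roots.toFinset : Set k) \ {φ 0}) := by
        refine (hfin.subset Set.sdiff_subset).isClosed.isOpen_compl.mem_nhds ?_
        simp
      filter_upwards [h4] with x hx hx0
      by_contra hcon
      exact hx ⟨by simp [hu0, hx0], hcon⟩
    filter_upwards [h, hφ.continuousAt.eventually h3] with s h4 h5
    exact h5 h4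
  obtain ⟨n, hn⟩ := ENat.ne_top_iff_exists.1 h2
  obtain ⟨h5, h6⟩ := order_lau h1 n hn.symm
  refine ⟨h5, ?_⟩
  rw [h6]
  intro h7
  have h8 : n = 0 := by exact_mod_cast h7
  rw [h8] at hn
  have h9 := (h1.analyticOrderAt_eq_zero).1 (by rw [← hn]; rfl)
  exact h9 hu

/-- All branches at `s = ∞`. -/
theorem exists_branches_infinity (A B : k[X]) (hA : A.Monic) (hB : B ≠ 0)
    (hdeg : B.natDegree < A.natDegree)
    (hcop : ∀ x, A.eval x = 0 → B.eval x ≠ 0) (E : ℕ) (hE : 0 < E)
    (hdvd : ∀ m, 0 < m → m ≤ A.natDegree → m ∣ E) :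
    ∃ (J : Type) (_ : Fintype J) (ζ : J → LaurentSeries k), Fintype.card J = A.natDegree ∧
      Function.Injective ζ ∧
      (∀ j, HahnSeries.single (E : ℤ) (1 : k) * aeval (ζ j) A = aeval (ζ j) B) ∧
      (∀ b, B.eval b = 0 → ∃ j, ∃ φ : k → k, AnalyticAt k φ 0 ∧ φ 0 = b ∧
        (¬ ∀ᶠ s in 𝓝 0, φ s = φ 0) ∧ ζ j = lau φ) := by
  classical
  set n := A.natDegree with hn
  have hcop' : ∀ x, B.eval x = 0 → A.eval x ≠ 0 := fun x hx hx' => hcop x hx' hx
  obtain ⟨J₁, hJ₁, φ, a1, a2, a3, a4, a5, a6, a7⟩ := exists_branches B A hB hcop' E hE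
    (fun x hx => hdvd _ ((rootMultiplicity_pos hB).2 hx)
      ((rootMultiplicity_le_natDegree' B x).trans hdeg.le))
  -- the branches at infinity
  set A' := reflect n A with hA'
  set B' := reflect n B with hB'
  have hB'0 : B' ≠ 0 := by rw [hB', Ne, reflect_eq_zero_iff]; exact hB
  have hmult : B'.rootMultiplicity 0 = n - B.natDegree := rootMultiplicity_reflect B hB n hdeg.le
  have hev1 : B'.eval 0 = 0 := by
    rw [← coeff_zero_eq_eval_zero, hB', coeff_reflect, revAt_le (Nat.zero_le _), Nat.sub_zero]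
    exact coeff_eq_zero_of_natDegree_lt hdeg
  have hev2 : A'.eval 0 ≠ 0 := by
    rw [← coeff_zero_eq_eval_zero, hA', coeff_reflect, revAt_le (Nat.zero_le _), Nat.sub_zero, hn,
      coeff_natDegree, hA]
    exact one_ne_zero
  obtain ⟨ψ, b1, b2, b3, b4, b5⟩ := exists_local_branches B' A' hB'0 0 hev1 hev2 E hE
    (hdvd _ (by rw [hmult]; omega) (by rw [hmult]; omega))
  -- facts about the branches at infinity
  have c1 : ∀ ν, lau (ψ ν) ≠ 0 := by
    intro ν h
    apply b5 ν
    exact eventually_eq_zero_of_lau (b1 ν) h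
  have c2 : ∀ ν, 0 < (lau (ψ ν)).order := by
    intro ν
    have h1 : ∀ i : ℤ, i ≤ 0 → (lau (ψ ν)).coeff i = 0 := by
      intro i hi
      rw [coeff_lau]
      split_ifs with h2
      · rfl
      · have h3 : i = 0 := by omega
        subst h3
        simp [b2 ν]
    by_contra hcon
    push Not at hcon
    exact (HahnSeries.coeff_order_eq_zero.not.2 (c1 ν)) (h1 _ hcon)
  have c3 : ∀ ν, HahnSeries.single (E : ℤ) (1 : k) * aeval (lau (ψ ν))⁻¹ A =
      aeval (lau (ψ ν))⁻¹ B := by
    intro ν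
    have h1 := lau_branch (b1 ν) (b3 ν)
    set η := lau (ψ ν) with hη
    have hη0 : η ≠ 0 := c1 ν
    let inv : Invertible η⁻¹ := invertibleOfNonzero (inv_ne_zero hη0)
    have h2 : ⅟(η⁻¹) = η := by rw [invOf_eq_inv, inv_inv]
    have h3 := eval₂_reflect_mul_pow (algebraMap k (LaurentSeries k)) η⁻¹ n B hdeg.le
    have h4 := eval₂_reflect_mul_pow (algebraMap k (LaurentSeries k)) η⁻¹ n A le_rfl
    rw [h2] at h3 h4
    rw [aeval_def, aeval_def, ← h3, ← h4, ← mul_assoc]
    congr 1
    exact h1.symm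
  have c4 : ∀ ν, ((lau (ψ ν))⁻¹ : LaurentSeries k).order < 0 := by
    intro ν
    have h1 := HahnSeries.order_mul (c1 ν) (inv_ne_zero (c1 ν))
    rw [mul_inv_cancel₀ (c1 ν), HahnSeries.order_one] at h1
    have := c2 ν
    omega
  have c5 : ∀ j, 0 ≤ (lau (φ j)).order := by
    intro j
    by_contra hcon
    push Not at hcon
    have hne : lau (φ j) ≠ 0 := by
      intro h0
      rw [h0, HahnSeries.order_zero] at hcon
      omega
    apply HahnSeries.coeff_order_eq_zero.not.2 hne
    rw [coeff_lau, if_pos hcon]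
  refine ⟨J₁ ⊕ Fin (B'.rootMultiplicity 0), inferInstance,
    Sum.elim (fun j => lau (φ j)) (fun ν => (lau (ψ ν))⁻¹), ?_, ?_, ?_, ?_⟩
  · rw [Fintype.card_sum, Fintype.card_fin, a1, hmult]
    omega
  · rintro (j | ν) (l | μ) h
    · simp only [Sum.elim_inl] at h
      by_contra hne
      have hjl : j ≠ l := fun h' => hne (by rw [h'])
      exact lau_ne_of_not_eventually (a2 j) (a2 l) (a5 j l hjl) h
    · simp only [Sum.elim_inl, Sum.elim_inr] at h
      exfalso
      have h1 := c5 j
      have h2 := c4 μ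
      rw [h] at h1
      omega
    · simp only [Sum.elim_inl, Sum.elim_inr] at h
      exfalso
      have h1 := c5 l
      have h2 := c4 ν
      rw [← h] at h1
      omega
    · simp only [Sum.elim_inr] at h
      by_contra hne
      have hjl : ν ≠ μ := fun h' => hne (by rw [h'])
      exact lau_ne_of_not_eventually (b1 ν) (b1 μ) (b4 ν μ hjl) (inv_injective h)
  · rintro (j | ν)
    · simp only [Sum.elim_inl]
      exact (lau_branch (a2 j) (a4 j)).symm
    · simp only [Sum.elim_inr]
      exact c3 ν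
  · intro b hb
    obtain ⟨j, hj⟩ := a7 b hb
    exact ⟨Sum.inl j, φ j, a2 j, hj, a6 j, rfl⟩

end Pool.Agent.Helper65_Leo
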