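import Pool.Agent.Helper65_Leo.IntFam

/-!
# The family contains infinitely many non-isomorphic fields
-/

set_option autoImplicit false
set_option linter.unusedSectionVars false

open Polynomial Filter Topology NumberField

namespace Pool.Agent.Helper65_Leo

variable {ι : Type} [Fintype ι] {g : ι → ℤ[X]}

/-- An algebraic integer of norm less than one is zero. -/
theorem eq_zero_of_prod_lt_one {L : Type} [Field L] [NumberField L] {y : L}
    (hy : IsIntegral ℤ y) (h : ∏ σ : L →+* ℂ, ‖σ y‖ < 1) : y = 0 := by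
  by_contra hne
  have h1 : algebraMap ℚ ℂ (Algebra.norm ℚ y) = ∏ σ : L →+* ℂ, σ y := by
    rw [Algebra.norm_eq_prod_embeddings ℚ ℂ]
    exact (Fintype.prod_equiv (RingHom.equivRatAlgHom L ℂ) _ _ fun σ => rfl).symm
  have h2 : IsIntegral ℤ (Algebra.norm ℚ y) := Algebra.isIntegral_norm ℚ hy
  obtain ⟨m, hm⟩ := IsIntegrallyClosed.isIntegral_iff.1 h2
  have hm0 : m ≠ 0 := by
    rintro rfl
    rw [map_zero] at hm
    exact hne (Algebra.norm_eq_zero_iff.1 hm.symm)
  have h3 : ‖algebraMap ℚ ℂ (Algebra.norm ℚ y)‖ < 1 := by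
    rw [h1, norm_prod]
    exact h
  rw [← hm] at h3
  have h4 : (algebraMap ℚ ℂ) (algebraMap ℤ ℚ m) = (m : ℂ) := by simp
  rw [h4, Complex.norm_intCast] at h3
  have h5 : |m| < 1 := by exact_mod_cast h3
  exact hm0 (Int.abs_lt_one_iff.1 h5)

/-- The root `x` of `P - t Q` in `L` has its conjugates near prescribed points. -/
def NearAt (P : ℤ[X]) (g : ι → ℤ[X]) (ε : ℝ) (c : ℂ) {L : Type} [Field L]
    (τ : (L →+* ℂ) → Option (rootsQ g)) (t : ℤ) : Prop :=
  ∃ x : L, IsIntegral ℤ x ∧ aeval x (P - C t * ∏ i, g i) = 0 ∧ Function.Bijective τ ∧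
    (∀ σ w, τ σ = some w → ‖σ x - w‖ < ε) ∧
    ∀ σ, τ σ = none → ‖σ x - (t * (∏ i, g i).leadingCoeff + c)‖ ≤ (rootsQ g).card * ε

theorem sum_of_prod_eq {I : Type} [Fintype I] (x : I → ℂ) {f : ℤ[X]} {n : ℕ}
    (h : f.map (Int.castRingHom ℂ) = ∏ o, (X - C (x o))) (hn : f.natDegree = n + 1) :
    ∑ o, x o = -(f.coeff n : ℂ) := by
  classical
  have h1 := congrArg (fun q : ℂ[X] => q.nextCoeff) h
  have h2 : (∏ o, (X - C (x o))).nextCoeff = -∑ o, x o := prod_X_sub_C_nextCoeff x
  have h3 : (f.map (Int.castRingHom ℂ)).nextCoeff = (f.coeff n : ℂ) := by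
    rw [nextCoeff_of_natDegree_pos (by rw [natDegree_map_int, hn]; omega), natDegree_map_int, hn,
      coeff_map]
    simp
  change (f.map (Int.castRingHom ℂ)).nextCoeff = (∏ o, (X - C (x o))).nextCoeff at h1
  rw [h2, h3] at h1
  rw [h1, neg_neg]

theorem exists_nearAt {P : ℤ[X]} (hP : P.Monic)
    (hdeg : P.natDegree = (∏ i, g i).natDegree + 1)
    (hirr : ∀ i, Irreducible ((g i).map (Int.castRingHom ℝ)))
    (hgg : Pairwise fun i j => IsCoprime ((g i).map (Int.castRingHom ℚ))
      ((g j).map (Int.castRingHom ℚ))) (ε : ℝ) (hε : 0 < ε) :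
    ∃ c : ℂ, ∃ T : ℕ, ∀ t : ℤ, (T : ℤ) ≤ |t| → ∀ (K : Type) [Field K] [NumberField K] (θ : K),
      IntermediateField.adjoin ℚ {θ} = ⊤ → aeval θ (P - C t * ∏ i, g i) = 0 →
      Module.finrank ℚ K = P.natDegree → ∀ (L : Type) [Field L] (_ : K ≃+* L),
      ∃ τ : (L →+* ℂ) → Option (rootsQ g), NearAt P g ε c τ t := by
  classical
  obtain ⟨T, hT⟩ := int_arch hP hdeg hirr hgg ε hε
  refine ⟨-(P.coeff (∏ i, g i).natDegree : ℂ) - ∑ w : rootsQ g, (w : ℂ), T,
    fun t ht K _ _ θ hgen hroot hfin L _ e => ?_⟩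
  obtain ⟨x, hinj, hprod, hnear, -, -⟩ := hT t ht
  have hmon : (P - C t * ∏ i, g i).Monic := monic_sub_mul hP (by omega) t
  have hnd : (P - C t * ∏ i, g i).natDegree = P.natDegree := natDegree_sub_mul (by omega) t
  have hcard : Fintype.card (Option (rootsQ g)) = Module.finrank ℚ K := by
    have h3 := congrArg natDegree hprod
    rw [natDegree_map_int, hnd, natDegree_prod_of_monic _ _ fun o _ => monic_X_sub_C _] at h3
    simp only [natDegree_X_sub_C, Finset.sum_const, Finset.card_univ, smul_eq_mul, mul_one] at h3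
    rw [hfin, h3]
  obtain ⟨E, hE⟩ := exists_conj_equiv hgen hroot x hprod hcard
  have hsum := sum_of_prod_eq x hprod (hnd.trans hdeg)
  rw [Fintype.sum_option, coeff_sub, coeff_C_mul, coeff_natDegree] at hsum
  have hnone : ‖x none - (t * (∏ i, g i).leadingCoeff +
      (-(P.coeff (∏ i, g i).natDegree : ℂ) - ∑ w : rootsQ g, (w : ℂ)))‖ ≤
      (rootsQ g).card * ε := by
    have h1 : x none - (t * (∏ i, g i).leadingCoeff +
      (-(P.coeff (∏ i, g i).natDegree : ℂ) - ∑ w : rootsQ g, (w : ℂ))) =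
        -∑ w : rootsQ g, (x (some w) - w) := by
      rw [Finset.sum_sub_distrib]
      push_cast at hsum
      linear_combination hsum
    rw [h1, norm_neg]
    refine (norm_sum_le _ _).trans ?_
    refine (Finset.sum_le_sum fun w _ => (hnear w).le).trans ?_
    rw [Finset.sum_const, Finset.card_univ, Fintype.card_coe, nsmul_eq_mul]
  have hcast : (e : K →+* L).comp (algebraMap ℤ K) = algebraMap ℤ L := RingHom.ext_int _ _
  have haeval : ∀ q : ℤ[X], aeval (e θ) q = e (aeval θ q) := by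
    intro q
    have h2 : (e : K →+* L) (eval₂ (algebraMap ℤ K) θ q) =
        eval₂ ((e : K →+* L).comp (algebraMap ℤ K)) ((e : K →+* L) θ) q := hom_eval₂ _ _ _ _
    rw [hcast] at h2
    rw [aeval_def, aeval_def]
    exact h2.symm
  have hval : ∀ σ : L →+* ℂ, x (E (σ.comp (e : K →+* L))) = σ (e θ) := fun σ => hE _
  refine ⟨fun σ => E (σ.comp (e : K →+* L)), e θ, ?_, ?_, ?_, ?_, ?_⟩
  · exact ⟨P - C t * ∏ i, g i, hmon, by rw [← aeval_def, haeval, hroot, map_zero]⟩
  · rw [haeval, hroot, map_zero]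
  · refine E.bijective.comp ⟨fun σ σ' h => ?_, fun σ => ?_⟩
    · ext y
      obtain ⟨z, rfl⟩ := e.surjective y
      exact RingHom.congr_fun h z
    · refine ⟨σ.comp (e.symm : L →+* K), ?_⟩
      ext y
      simp
  · intro σ w h
    change E (σ.comp (e : K →+* L)) = some w at h
    rw [← hval, h]
    exact hnear w
  · intro σ h
    change E (σ.comp (e : K →+* L)) = none at h
    rw [← hval, h]
    exact hnone

theorem nearAt_unique {P : ℤ[X]} (hcop : IsCoprime P (∏ i, g i)) {ε : ℝ} (hε : 0 < ε) {c : ℂ}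
    {N : ℕ} (h2ε : 2 * ε ≤ 1) (hcard : 0 < (rootsQ g).card)
    (hsmall : 2 * ε * (N * |((∏ i, g i).leadingCoeff : ℝ)| + 2 * ((rootsQ g).card * ε)) < 1)
    {L : Type} [Field L] [NumberField L] (τ : (L →+* ℂ) → Option (rootsQ g)) {t t' : ℤ}
    (htt : |t - t'| ≤ N) (h : NearAt P g ε c τ t) (h' : NearAt P g ε c τ t') : t = t' := by
  classical
  obtain ⟨x, hxi, hx, hτ, hxs, hxn⟩ := h
  obtain ⟨x', hxi', hx', -, hxs', hxn'⟩ := h'
  have hprod : ∏ σ : L →+* ℂ, ‖σ (x - x')‖ < 1 := by
    set e := Equiv.ofBijective τ hτ with he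
    rw [← Equiv.prod_comp e.symm, Fintype.prod_option]
    have hn : τ (e.symm none) = none := e.apply_symm_apply none
    have h1 : ‖e.symm none (x - x')‖ ≤
        N * |((∏ i, g i).leadingCoeff : ℝ)| + 2 * ((rootsQ g).card * ε) := by
      have h2 := hxn _ hn
      have h3 := hxn' _ hn
      have h4 : e.symm none (x - x') = (e.symm none x - (t * (∏ i, g i).leadingCoeff + c)) -
          (e.symm none x' - (t' * (∏ i, g i).leadingCoeff + c)) +
            ((t - t' : ℤ) : ℂ) * (∏ i, g i).leadingCoeff := by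
        rw [map_sub]
        push_cast
        ring
      rw [h4]
      refine (norm_add_le _ _).trans ?_
      have h5 := norm_sub_le (e.symm none x - (t * (∏ i, g i).leadingCoeff + c))
          (e.symm none x' - (t' * (∏ i, g i).leadingCoeff + c))
      have h6 : ‖((t - t' : ℤ) : ℂ) * (∏ i, g i).leadingCoeff‖ ≤
          N * |((∏ i, g i).leadingCoeff : ℝ)| := by
        rw [norm_mul, Complex.norm_intCast, Complex.norm_intCast]
        refine mul_le_mul_of_nonneg_right ?_ (abs_nonneg _)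
        exact_mod_cast htt
      linarith
    have h2 : ∏ w : rootsQ g, ‖e.symm (some w) (x - x')‖ ≤ 2 * ε := by
      have h3 : ∀ w : rootsQ g, ‖e.symm (some w) (x - x')‖ ≤ 2 * ε := by
        intro w
        have hw : τ (e.symm (some w)) = some w := e.apply_symm_apply (some w)
        have h4 := hxs _ _ hw
        have h5 := hxs' _ _ hw
        have h6 : e.symm (some w) (x - x') =
            (e.symm (some w) x - w) - (e.symm (some w) x' - w) := by
          rw [map_sub]; ring
        rw [h6]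
        have h7 := norm_sub_le (e.symm (some w) x - w) (e.symm (some w) x' - w)
        linarith
      have h4 : Fintype.card (rootsQ g) = (rootsQ g).card := Fintype.card_coe _
      have h5 : ∏ w : rootsQ g, ‖e.symm (some w) (x - x')‖ ≤ (2 * ε) ^ (rootsQ g).card := by
        rw [← h4, ← Finset.card_univ, ← Finset.prod_const]
        exact Finset.prod_le_prod (fun _ _ => norm_nonneg _) fun w _ => h3 w
      refine h5.trans ?_
      calc (2 * ε) ^ (rootsQ g).card ≤ (2 * ε) ^ 1 :=
            pow_le_pow_of_le_one (by linarith) h2ε hcard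
        _ = 2 * ε := pow_one _
    calc _ ≤ (N * |((∏ i, g i).leadingCoeff : ℝ)| + 2 * ((rootsQ g).card * ε)) * (2 * ε) :=
          mul_le_mul h1 h2 (Finset.prod_nonneg fun _ _ => norm_nonneg _) (by positivity)
      _ < 1 := by linarith
  have h0 : x - x' = 0 := eq_zero_of_prod_lt_one (hxi.sub hxi') hprod
  rw [sub_eq_zero] at h0
  rw [← h0] at hx'
  have h1 : ((t : L) - t') * aeval x (∏ i, g i) = 0 := by
    rw [map_sub, map_mul, aeval_C] at hx hx'
    simp only [algebraMap_int_eq, eq_intCast] at hx hx'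
    linear_combination hx' - hx
  rcases mul_eq_zero.1 h1 with h2 | h2
  · rw [sub_eq_zero] at h2
    exact_mod_cast h2
  · exfalso
    obtain ⟨a, b, hab⟩ := hcop
    have h3 := congrArg (aeval x) hab
    rw [map_sub, map_mul, h2, mul_zero, sub_zero] at hx
    rw [map_add, map_mul, map_mul, hx, h2, map_one] at h3
    simp at h3

/-- In every window of bounded length of large integers `t` there is one for which the field of
the family is not isomorphic to one of finitely many given number fields. -/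
theorem int_infinite {P : ℤ[X]} (hP : P.Monic)
    (hdeg : P.natDegree = (∏ i, g i).natDegree + 1) (hcop : IsCoprime P (∏ i, g i))
    (hirr : ∀ i, Irreducible ((g i).map (Int.castRingHom ℝ)))
    (hgg : Pairwise fun i j => IsCoprime ((g i).map (Int.castRingHom ℚ))
      ((g j).map (Int.castRingHom ℚ))) (hne : Nonempty ι) (k : ℕ)
    (L : Fin k → Type) [∀ i, Field (L i)] [∀ i, NumberField (L i)] :
    ∃ N T : ℕ, ∀ t₀ : ℤ, (∀ t : ℤ, t₀ ≤ t → t ≤ t₀ + N → (T : ℤ) ≤ |t|) →
      ∃ t : ℤ, t₀ ≤ t ∧ t ≤ t₀ + N ∧ ∀ (K : Type) [Field K] [NumberField K] (θ : K),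
        IntermediateField.adjoin ℚ {θ} = ⊤ → aeval θ (P - C t * ∏ i, g i) = 0 →
        Module.finrank ℚ K = P.natDegree → ∀ i, IsEmpty (K ≃+* L i) := by
  classical
  set Ψ := Σ i, ((L i →+* ℂ) → Option (rootsQ g)) with hΨ
  set N : ℕ := Fintype.card Ψ with hN
  have hcard : 0 < (rootsQ g).card := by
    obtain ⟨i⟩ := hne
    have h1 : ((g i).map (Int.castRingHom ℂ)).degree ≠ 0 := by
      have h2 := (hirr i).natDegree_pos
      rw [natDegree_map_int, ← natDegree_map_int (F := ℂ)] at h2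
      exact (natDegree_pos_iff_degree_pos.1 h2).ne'
    obtain ⟨z, hz⟩ := IsAlgClosed.exists_root _ h1
    rw [Finset.card_pos]
    refine ⟨z, (mem_rootsQ hirr hgg z).2 ?_⟩
    rw [Polynomial.map_prod, eval_prod]
    exact Finset.prod_eq_zero (Finset.mem_univ i) hz
  set M : ℝ := N * |((∏ i, g i).leadingCoeff : ℝ)| + 2 * (rootsQ g).card with hM
  have hM0 : 0 ≤ M := by positivity
  set ε : ℝ := 1 / (2 * (M + 1)) with hε
  have hε0 : 0 < ε := by positivity
  have h2ε : 2 * ε ≤ 1 := by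
    rw [hε, mul_one_div, mul_comm 2 (M + 1), ← div_div, div_le_one₀ (by norm_num), ]
    have : 2 / (M + 1) ≤ 2 := by
      rw [div_le_iff₀ (by positivity)]
      linarith
    linarith
  have hsmall : 2 * ε * (N * |((∏ i, g i).leadingCoeff : ℝ)| + 2 * ((rootsQ g).card * ε)) < 1 := by
    have h1 : N * |((∏ i, g i).leadingCoeff : ℝ)| + 2 * ((rootsQ g).card * ε) ≤ M := by
      rw [hM]
      have h2 : ((rootsQ g).card : ℝ) * ε ≤ (rootsQ g).card * 1 :=
        mul_le_mul_of_nonneg_left (by linarith) (Nat.cast_nonneg _)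
      linarith
    have h3 : 2 * ε * M < 1 := by
      rw [hε]
      have h4 : 2 * (1 / (2 * (M + 1))) * M = M / (M + 1) := by
        field_simp
      rw [h4, div_lt_one (by positivity)]
      linarith
    have h5 := mul_le_mul_of_nonneg_left h1 (by positivity : 0 ≤ 2 * ε)
    linarith
  obtain ⟨c, T, hT⟩ := exists_nearAt hP hdeg hirr hgg ε hε0
  refine ⟨N, T, fun t₀ ht₀ => ?_⟩
  by_contra hcon
  push Not at hcon
  have h1 : ∀ s : Fin (N + 1), ∃ q : Ψ, NearAt P g ε c q.2 (t₀ + (s : ℕ)) := by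
    intro s
    have hs : (s : ℕ) ≤ N := Nat.lt_succ_iff.1 s.2
    have hs' : ((s : ℕ) : ℤ) ≤ N := by exact_mod_cast hs
    obtain ⟨K, hK1, hK2, θ, hgen, hroot, hfin, i, ⟨e⟩⟩ := hcon (t₀ + (s : ℕ)) (by omega) (by omega)
    obtain ⟨τ, hτ⟩ := hT _ (ht₀ (t₀ + (s : ℕ)) (by omega) (by omega)) K θ hgen hroot hfin (L i) e
    exact ⟨⟨i, τ⟩, hτ⟩
  choose q hq using h1
  have hninj : ¬ Function.Injective q := by
    intro hinj
    have := Fintype.card_le_of_injective q hinj
    rw [Fintype.card_fin] at this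
    omega
  rw [Function.Injective] at hninj
  push Not at hninj
  obtain ⟨s, s', hss, hne'⟩ := hninj
  have h2 := hq s
  rw [hss] at h2
  have hs : (s : ℕ) ≤ N := Nat.lt_succ_iff.1 s.2
  have hs' : (s' : ℕ) ≤ N := Nat.lt_succ_iff.1 s'.2
  have h3 := nearAt_unique hcop hε0 (N := N) h2ε hcard hsmall (q s').2
    (by rw [abs_le]; constructor <;> omega) h2 (hq s')
  apply hne'
  apply Fin.ext
  omega

end Pool.Agent.Helper65_Leo
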