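import Pool.Agent.Helper65_Leo.Count
import Pool.Agent.Helper65_Leo.Cofinite

/-!
# One-parameter families over the integers
-/

set_option autoImplicit false
set_option linter.unusedSectionVars false

open Polynomial Filter Topology NumberField
open Pool.Agent.Helper85_Leo (LeopoldtAt)

namespace Pool.Agent.Helper65_Leo

variable {ι : Type} [Fintype ι] {g : ι → ℤ[X]}

/-- The complex roots of `∏ g i`. -/
noncomputable abbrev rootsQ (g : ι → ℤ[X]) : Finset ℂ :=
  ((∏ i, g i).map (Int.castRingHom ℂ)).roots.toFinset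

theorem mem_rootsQ (hirr : ∀ i, Irreducible ((g i).map (Int.castRingHom ℝ)))
    (hgg : Pairwise fun i j => IsCoprime ((g i).map (Int.castRingHom ℚ))
      ((g j).map (Int.castRingHom ℚ))) (w : ℂ) :
    w ∈ rootsQ g ↔ ((∏ i, g i).map (Int.castRingHom ℂ)).eval w = 0 := by
  rw [Multiset.mem_toFinset, mem_roots (separable_prod_g hirr hgg).ne_zero, IsRoot]

theorem eval_conj_int (q : ℤ[X]) (z : ℂ) :
    (q.map (Int.castRingHom ℂ)).eval ((starRingEnd ℂ) z) =
      (starRingEnd ℂ) ((q.map (Int.castRingHom ℂ)).eval z) := by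
  rw [eval_map, eval_map, hom_eval₂]
  congr 1
  exact RingHom.ext_int _ _

theorem conj_mem_rootsQ (hirr : ∀ i, Irreducible ((g i).map (Int.castRingHom ℝ)))
    (hgg : Pairwise fun i j => IsCoprime ((g i).map (Int.castRingHom ℚ))
      ((g j).map (Int.castRingHom ℚ))) (w : rootsQ g) :
    (starRingEnd ℂ) (w : ℂ) ∈ rootsQ g := by
  rw [mem_rootsQ hirr hgg, eval_conj_int, (mem_rootsQ hirr hgg _).1 w.2, map_zero]

theorem exists_separation (W : Finset ℂ) : ∃ δ : ℝ, 0 < δ ∧ ∀ w w' : W, w ≠ w' →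
      2 * δ ≤ ‖(w : ℂ) - w'‖ := by
  have h1 : ∀ q : W × W, ∃ δ : ℝ, 0 < δ ∧
      (q.1 ≠ q.2 → 2 * δ ≤ ‖(q.1 : ℂ) - q.2‖) := by
    intro q
    by_cases h : q.1 = q.2
    · exact ⟨1, one_pos, fun h' => absurd h h'⟩
    · refine ⟨‖(q.1 : ℂ) - q.2‖ / 2, ?_, fun _ => by linarith⟩
      have : (q.1 : ℂ) - q.2 ≠ 0 := by
        rw [sub_ne_zero]
        exact fun h' => h (Subtype.ext h')
      have := norm_pos_iff.2 this
      linarith
  choose δ hδ1 hδ2 using h1
  rcases isEmpty_or_nonempty (W × W) with he | hne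
  · exact ⟨1, one_pos, fun w w' => (he.false (w, w')).elim⟩
  · obtain ⟨q₀, hq₀⟩ := Finite.exists_min δ
    exact ⟨δ q₀, hδ1 q₀, fun w w' h => (by
      have := hδ2 (w, w') h
      have := hq₀ (w, w')
      linarith)⟩

/-- The complex roots for a large integer `t`. -/
theorem int_arch {P : ℤ[X]} (hP : P.Monic) (hdeg : P.natDegree = (∏ i, g i).natDegree + 1)
    (hirr : ∀ i, Irreducible ((g i).map (Int.castRingHom ℝ)))
    (hgg : Pairwise fun i j => IsCoprime ((g i).map (Int.castRingHom ℚ))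
      ((g j).map (Int.castRingHom ℚ))) (ε : ℝ) (hε : 0 < ε) :
    ∃ T : ℕ, ∀ t : ℤ, (T : ℤ) ≤ |t| → ∃ x : Option (rootsQ g) → ℂ, Function.Injective x ∧
      (P - C t * ∏ i, g i).map (Int.castRingHom ℂ) = ∏ o, (X - C (x o)) ∧
      (∀ w, ‖x (some w) - w‖ < ε) ∧
      (∀ w : rootsQ g,
        (starRingEnd ℂ) (x (some w)) = x (some ⟨_, conj_mem_rootsQ hirr hgg w⟩)) ∧
      (starRingEnd ℂ) (x none) = x none := by
  classical
  obtain ⟨δ, hδ, hsep⟩ := exists_separation (rootsQ g)
  obtain ⟨B, hB⟩ : ∃ B : ℝ, ∀ w : rootsQ g, ‖(w : ℂ)‖ ≤ B := by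
    rcases isEmpty_or_nonempty (rootsQ g) with he | hne
    · exact ⟨0, fun w => (he.false w).elim⟩
    · obtain ⟨w₁, hw₁⟩ := Finite.exists_max fun w : rootsQ g => ‖(w : ℂ)‖
      exact ⟨_, hw₁⟩
  set η := min ε δ with hη
  have hη0 : 0 < η := lt_min hε hδ
  obtain ⟨T, hT⟩ := arch (P.map (Int.castRingHom ℂ)) ((∏ i, g i).map (Int.castRingHom ℂ))
    (hP.map _) (separable_prod_g hirr hgg)
    (by rw [natDegree_map_int, natDegree_map_int, hdeg]) η (B + η) hη0
  refine ⟨⌈T⌉₊, fun t ht => ?_⟩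
  have ht' : T ≤ ‖(t : ℂ)‖ := by
    rw [Complex.norm_intCast]
    have h1 : ((⌈T⌉₊ : ℤ) : ℝ) ≤ ((|t| : ℤ) : ℝ) := by exact_mod_cast ht
    have h2 : T ≤ (⌈T⌉₊ : ℝ) := Nat.le_ceil T
    push_cast at h1
    linarith
  obtain ⟨x, hinj, hprod, hnear, hbig⟩ := hT t ht'
  have hprod' : (P - C t * ∏ i, g i).map (Int.castRingHom ℂ) = ∏ o, (X - C (x o)) := by
    rw [← hprod, Polynomial.map_sub, Polynomial.map_mul, map_C]
    rfl
  have hroot : ∀ o, ((P - C t * ∏ i, g i).map (Int.castRingHom ℂ)).eval (x o) = 0 := by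
    intro o
    rw [hprod', eval_prod]
    exact Finset.prod_eq_zero (Finset.mem_univ o) (by simp)
  have hstab : ∀ o, ∃ o', x o' = (starRingEnd ℂ) (x o) := by
    intro o
    have h1 : ((P - C t * ∏ i, g i).map (Int.castRingHom ℂ)).eval ((starRingEnd ℂ) (x o)) = 0 := by
      rw [eval_conj_int, hroot, map_zero]
    rw [hprod', eval_prod, Finset.prod_eq_zero_iff] at h1
    obtain ⟨o', -, ho'⟩ := h1
    simp only [eval_sub, eval_X, eval_C, sub_eq_zero] at ho'
    exact ⟨o', ho'.symm⟩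
  obtain ⟨h1, h2⟩ := conj_roots (ε := η) x hinj hstab (conj_mem_rootsQ hirr hgg) hnear
    (fun w w' h => le_trans (by have := min_le_right ε δ; linarith) (hsep w w' h))
    (fun w => by have := hB w; linarith)
  exact ⟨x, hinj, hprod', fun w => (hnear w).trans_le (min_le_left _ _), h1, h2⟩

/-- Number of real roots. -/
theorem card_real {W : Finset ℂ} (x : Option W → ℂ) (hinj : Function.Injective x)
    (hW : ∀ w : W, (starRingEnd ℂ) (w : ℂ) ∈ W)
    (h1 : ∀ w : W, (starRingEnd ℂ) (x (some w)) = x (some ⟨_, hW w⟩))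
    (h2 : (starRingEnd ℂ) (x none) = x none)
    [Fintype {o // (starRingEnd ℂ) (x o) = x o}]
    [Fintype {w : W // (starRingEnd ℂ) (w : ℂ) = w}] :
    Fintype.card {o // (starRingEnd ℂ) (x o) = x o} =
      Fintype.card {w : W // (starRingEnd ℂ) (w : ℂ) = w} + 1 := by
  classical
  have h3 : ∀ w : W, (starRingEnd ℂ) (w : ℂ) = w ↔
      (starRingEnd ℂ) (x (some w)) = x (some w) := by
    intro w
    rw [h1 w]
    constructor
    · intro h
      congr 2
      exact Subtype.ext h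
    · intro h
      exact congrArg Subtype.val (Option.some_injective _ (hinj h))
  rw [← Fintype.card_option]
  refine (Fintype.card_congr (Equiv.ofBijective (fun o : Option {w : W //
    (starRingEnd ℂ) (w : ℂ) = w} => (⟨o.map Subtype.val, ?_⟩ :
      {o // (starRingEnd ℂ) (x o) = x o})) ⟨?_, ?_⟩)).symm
  · cases o with
    | none => exact h2
    | some w => exact (h3 w.1).1 w.2
  · intro o o' h
    exact Option.map_injective Subtype.val_injective (congrArg Subtype.val h)
  · rintro ⟨o, ho⟩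
    cases o with
    | none => exact ⟨none, rfl⟩
    | some w => exact ⟨some ⟨w, (h3 w).2 ho⟩, rfl⟩

/-- Signature for large `t`. -/
theorem int_signature {P : ℤ[X]} (hP : P.Monic)
    (hdeg : P.natDegree = (∏ i, g i).natDegree + 1)
    (hirr : ∀ i, Irreducible ((g i).map (Int.castRingHom ℝ)))
    (hgg : Pairwise fun i j => IsCoprime ((g i).map (Int.castRingHom ℚ))
      ((g j).map (Int.castRingHom ℚ)))
    [Fintype {i // (g i).natDegree = 1}] [Fintype {i // (g i).natDegree = 2}] :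
    ∃ T : ℕ, ∀ t : ℤ, (T : ℤ) ≤ |t| → ∀ (K : Type) [Field K] [NumberField K] (θ : K),
      IntermediateField.adjoin ℚ {θ} = ⊤ → aeval θ (P - C t * ∏ i, g i) = 0 →
      Module.finrank ℚ K = P.natDegree →
      InfinitePlace.nrRealPlaces K = Fintype.card {i // (g i).natDegree = 1} + 1 ∧
      InfinitePlace.nrComplexPlaces K = Fintype.card {i // (g i).natDegree = 2} ∧
      Units.rank K = Fintype.card ι := by
  classical
  obtain ⟨T, hT⟩ := int_arch hP hdeg hirr hgg 1 one_pos
  refine ⟨T, fun t ht K _ _ θ hgen hroot hfin => ?_⟩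
  obtain ⟨x, hinj, hprod, hnear, h1, h2⟩ := hT t ht
  have hmon : (P - C t * ∏ i, g i).Monic := monic_sub_mul hP (by omega) t
  have hnd : (P - C t * ∏ i, g i).natDegree = P.natDegree := natDegree_sub_mul (by omega) t
  have hcard : Fintype.card (Option (rootsQ g)) = Module.finrank ℚ K := by
    have h3 := congrArg natDegree hprod
    rw [natDegree_map_int, hnd, natDegree_prod_of_monic _ _ fun o _ => monic_X_sub_C _] at h3
    simp only [natDegree_X_sub_C, Finset.sum_const, Finset.card_univ, smul_eq_mul, mul_one] at h3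
    rw [hfin, h3]
  obtain ⟨e, he⟩ := exists_conj_equiv hgen hroot x hprod hcard
  have hr := nrRealPlaces_eq hgen x e he
  rw [card_real x hinj (conj_mem_rootsQ hirr hgg) h1 h2,
    card_real_roots hirr hgg (mem_rootsQ hirr hgg)] at hr
  obtain ⟨hd, hc⟩ := natDegree_prod_g hirr
  have h4 := InfinitePlace.card_add_two_mul_card_eq_rank K
  have h5 := InfinitePlace.card_eq_nrRealPlaces_add_nrComplexPlaces K
  have h6 : InfinitePlace.nrComplexPlaces K = Fintype.card {i // (g i).natDegree = 2} := by omega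
  refine ⟨hr, h6, ?_⟩
  rw [Units.rank, h5, hr, h6, hc]
  omega

end Pool.Agent.Helper65_Leo
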