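import Pool.Agent.Helper65_Leo.Arch

/-!
# Irreducibility of `P - t Q` for all but finitely many `t`
-/

set_option autoImplicit false
set_option linter.unusedSectionVars false

open Polynomial Filter Topology

namespace Pool.Agent.Helper65_Leo

variable {O F : Type} [CommRing O] [IsDomain O] [IsIntegrallyClosed O] [Field F] [Algebra O F]
  [IsFractionRing O F]

/-- Finiteness of the set of polynomials with bounded coefficients. -/
theorem finite_polys (ε : O →+* ℂ) (hfin : ∀ R : ℝ, {x : O | ‖ε x‖ ≤ R}.Finite) (n : ℕ) (R : ℝ) :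
    {q : O[X] | q.natDegree ≤ n ∧ ∀ i, ‖ε (q.coeff i)‖ ≤ R}.Finite := by
  have h1 : {f : Fin (n + 1) → O | ∀ i, f i ∈ {x : O | ‖ε x‖ ≤ R}}.Finite :=
    Set.Finite.pi' fun _ => hfin R
  refine Set.Finite.of_finite_image (f := fun (q : O[X]) (i : Fin (n + 1)) => q.coeff i)
    (h1.subset ?_) ?_
  · rintro _ ⟨q, ⟨-, hq⟩, rfl⟩ i
    exact hq i
  · rintro q ⟨hq, -⟩ q' ⟨hq', -⟩ h
    ext i
    rcases Nat.lt_or_ge i (n + 1) with hi | hi
    · exact congrFun h ⟨i, hi⟩
    · rw [coeff_eq_zero_of_natDegree_lt (by omega), coeff_eq_zero_of_natDegree_lt (by omega)]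

/-- `P - t Q` is irreducible for all but finitely many `t`. -/
theorem irreducible_cofinite (ε : O →+* ℂ) (hε : Function.Injective ε)
    (hfin : ∀ R : ℝ, {x : O | ‖ε x‖ ≤ R}.Finite) (P Q : O[X]) (hP : P.Monic)
    (hdeg : P.natDegree = Q.natDegree + 1) (hQ : (Q.map ε).Separable) (hcop : IsCoprime P Q) :
    {t : O | ¬ Irreducible ((P - C t * Q).map (algebraMap O F))}.Finite := by
  classical
  have hcop' : ∀ x : ℂ, (P.map ε).eval x = 0 → (Q.map ε).eval x ≠ 0 := by
    intro x h1 h2
    obtain ⟨a, b, hab⟩ := hcop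
    have h3 := congrArg (fun q : O[X] => (q.map ε).eval x) hab
    simp only [Polynomial.map_add, Polynomial.map_mul, eval_add, eval_mul, Polynomial.map_one,
      eval_one, h1, h2] at h3
    simp at h3
  have hdegε : (P.map ε).natDegree = (Q.map ε).natDegree + 1 := by
    rw [natDegree_map_eq_of_injective hε, natDegree_map_eq_of_injective hε, hdeg]
  obtain ⟨B, hB⟩ : ∃ B : ℝ, ∀ w : (Q.map ε).roots.toFinset, ‖(w : ℂ)‖ + 1 ≤ B := by
    rcases isEmpty_or_nonempty (Q.map ε).roots.toFinset with he | hne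
    · exact ⟨0, fun w => (he.false w).elim⟩
    · obtain ⟨w₁, hw₁⟩ := Finite.exists_max fun w : (Q.map ε).roots.toFinset => ‖(w : ℂ)‖ + 1
      exact ⟨_, hw₁⟩
  obtain ⟨T, hT⟩ := arch (P.map ε) (Q.map ε) (hP.map ε) hQ hdegε 1 B one_pos
  set n := P.natDegree with hn
  set V : Set O[X] := {q | (q.natDegree ≤ n ∧
    ∀ i, ‖ε (q.coeff i)‖ ≤ max B 1 ^ n * (n.choose (n / 2) : ℝ)) ∧ q.Monic ∧ 0 < q.natDegree} with hV
  have hVfin : V.Finite := (finite_polys ε hfin n _).subset fun q hq => hq.1
  have hone : ∀ q ∈ V, {t : O | q ∣ P - C t * Q}.Subsingleton := by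
    rintro q ⟨-, hqm, hqd⟩ t ht t' ht'
    have h1 : 0 < (q.map ε).natDegree := by rw [natDegree_map_eq_of_injective hε]; exact hqd
    obtain ⟨z, hz⟩ := IsAlgClosed.exists_root (q.map ε) (by
      rw [degree_eq_natDegree (hqm.map ε).ne_zero]
      exact_mod_cast h1.ne')
    have key : ∀ t : O, q ∣ P - C t * Q → (P.map ε).eval z = ε t * (Q.map ε).eval z := by
      rintro t ⟨r, hr⟩
      have h2 := congrArg (fun q : O[X] => (q.map ε).eval z) hr
      simp only [Polynomial.map_sub, Polynomial.map_mul, eval_sub, eval_mul, map_C, eval_C] at h2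
      rw [hz.eq_zero, zero_mul, sub_eq_zero] at h2
      exact h2
    have h3 := key t ht
    have h4 := key t' ht'
    have h5 : (Q.map ε).eval z ≠ 0 := by
      intro h6
      rw [h6, mul_zero] at h3
      exact hcop' z h3 h6
    apply hε
    rw [h3] at h4
    exact mul_right_cancel₀ h5 h4
  have hbad : (⋃ q ∈ V, {t : O | q ∣ P - C t * Q}).Finite :=
    hVfin.biUnion fun q hq => (hone q hq).finite
  refine ((hfin T).union hbad).subset ?_
  intro t ht
  by_contra hcon
  rw [Set.mem_union, not_or] at hcon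
  obtain ⟨hc1, hc2⟩ := hcon
  apply ht
  have hTt : T ≤ ‖ε t‖ := by
    have : ¬ ‖ε t‖ ≤ T := hc1
    linarith
  obtain ⟨x, hxinj, hxprod, hxnear, hxbig⟩ := hT (ε t) hTt
  have hQP : Q.natDegree < P.natDegree := by omega
  have hfmon : (P - C t * Q).Monic := by
    refine hP.sub_of_left ?_
    refine lt_of_le_of_lt (degree_mul_le _ _) ?_
    refine lt_of_le_of_lt (add_le_add_left degree_C_le _) ?_
    rw [zero_add]
    exact degree_lt_degree hQP
  have hfdeg : (P - C t * Q).natDegree = n := by
    apply natDegree_sub_eq_left_of_natDegree_lt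
    exact lt_of_le_of_lt (natDegree_C_mul_le _ _) hQP
  have hmapf : (P - C t * Q).map ε = ∏ o, (X - C (x o)) := by
    rw [← hxprod, Polynomial.map_sub, Polynomial.map_mul, map_C]
  rw [← hfmon.irreducible_iff_irreducible_map_fraction_map]
  rw [hfmon.irreducible_iff_natDegree']
  refine ⟨?_, ?_⟩
  · intro h1
    rw [h1, natDegree_one] at hfdeg
    omega
  intro u v hu hv huv hmem
  rw [Finset.mem_Ioc, hfdeg] at hmem
  have hudeg : u.natDegree + v.natDegree = n := by
    rw [← hfdeg, ← huv, hu.natDegree_mul hv]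
  -- a factor without the large root lies in `V`
  have hfactor : ∀ q r : O[X], q.Monic → 0 < q.natDegree → q.natDegree ≤ n →
      q * r = P - C t * Q → (q.map ε).eval (x none) ≠ 0 → q ∈ V := by
    intro q r hq hqd hqn hqr hne
    refine ⟨⟨hqn, fun i => ?_⟩, hq, hqd⟩
    have h1 : ∀ z ∈ (q.map ε).roots, ‖z‖ ≤ B := by
      intro z hz
      have hz0 : (q.map ε).eval z = 0 := (mem_roots (hq.map ε).ne_zero).1 hz
      have h2 : ((P - C t * Q).map ε).eval z = 0 := by
        rw [← hqr, Polynomial.map_mul, eval_mul, hz0, zero_mul]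
      rw [hmapf, eval_prod, Finset.prod_eq_zero_iff] at h2
      obtain ⟨o, -, ho⟩ := h2
      have h3 : z = x o := by simpa [sub_eq_zero] using ho
      cases o with
      | none =>
        exfalso
        rw [h3] at hz0
        exact hne hz0
      | some w =>
        rw [h3]
        have h4 : ‖x (some w)‖ ≤ ‖x (some w) - w‖ + ‖(w : ℂ)‖ := by
          have : x (some w) = (x (some w) - w) + w := by ring
          conv_lhs => rw [this]
          exact norm_add_le _ _
        have h5 := hxnear w
        have h6 := hB w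
        linarith
    have h7 := coeff_bdd_of_roots_le ε hq (IsAlgClosed.splits _) hqn h1 i
    rw [coeff_map] at h7
    exact h7
  -- the large root is a root of exactly one factor
  have hlarge : ¬ ((u.map ε).eval (x none) = 0 ∧ (v.map ε).eval (x none) = 0) := by
    rintro ⟨h1, h2⟩
    have hsep : ((P - C t * Q).map ε).Separable := by
      rw [hmapf]
      exact separable_prod_X_sub_C_iff.2 hxinj
    rw [← huv, Polynomial.map_mul] at hsep
    have h3 := hsep.isCoprime
    obtain ⟨a, b, hab⟩ := h3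
    have h4 := congrArg (eval (x none)) hab
    rw [eval_add, eval_mul, eval_mul, h1, h2] at h4
    simp at h4
  apply hc2
  rw [Set.mem_iUnion₂]
  rw [not_and_or] at hlarge
  rcases hlarge with h | h
  · exact ⟨u, hfactor u v hu (by omega) (by omega) huv h, Dvd.intro _ huv⟩
  · exact ⟨v, hfactor v u hv (by omega) (by omega) (by rw [mul_comm]; exact huv) h,
      Dvd.intro_left _ huv⟩

end Pool.Agent.Helper65_Leo
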