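import Pool.Agent.Helper65_Leo.Infinite

/-!
# The families over the integers: main statement
-/

set_option autoImplicit false
set_option linter.unusedSectionVars false

open Polynomial Filter Topology NumberField
open Pool.Agent.Helper85_Leo (LeopoldtAt)

namespace Pool.Agent.Helper65_Leo

theorem finrank_of_irreducible {K : Type} [Field K] [NumberField K] {θ : K}
    (hgen : IntermediateField.adjoin ℚ {θ} = ⊤) {f : ℤ[X]} (hf : f.Monic)
    (hirr : Irreducible (f.map (Int.castRingHom ℚ))) (hroot : aeval θ f = 0) :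
    Module.finrank ℚ K = f.natDegree := by
  have h1 : aeval θ (f.map (Int.castRingHom ℚ)) = 0 := by
    rw [aeval_def, eval₂_map]
    rw [aeval_def] at hroot
    rw [← hroot]
    congr 1
    exact RingHom.ext_int _ _
  have h2 : f.map (Int.castRingHom ℚ) = minpoly ℚ θ :=
    minpoly.eq_of_irreducible_of_monic hirr h1 (hf.map _)
  have h3 : IsIntegral ℚ θ := Algebra.IsIntegral.isIntegral θ
  have h4 := IntermediateField.adjoin.finrank h3
  rw [← h2, natDegree_map_int, hgen, IntermediateField.finrank_top'] at h4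
  exact h4

/-- A number field with real and with complex places is not Galois over the rationals. -/
theorem not_isGalois_of_mixed {K : Type} [Field K] [NumberField K]
    (h1 : 0 < InfinitePlace.nrRealPlaces K) (h2 : 0 < InfinitePlace.nrComplexPlaces K) :
    ¬ IsGalois ℚ K := by
  classical
  intro hG
  rw [InfinitePlace.nrRealPlaces, Fintype.card_pos_iff] at h1
  rw [InfinitePlace.nrComplexPlaces, Fintype.card_pos_iff] at h2
  obtain ⟨⟨w, hw⟩⟩ := h1
  obtain ⟨⟨w', hw'⟩⟩ := h2
  obtain ⟨σ, hσ⟩ := InfinitePlace.exists_smul_eq_of_comap_eq (k := ℚ) (w := w) (w' := w')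
    (Subsingleton.elim _ _)
  rw [← hσ, InfinitePlace.isComplex_smul_iff] at hw'
  exact InfinitePlace.not_isReal_iff_isComplex.2 hw' hw

variable {ι : Type} [Fintype ι] {g : ι → ℤ[X]}

theorem int_bounded_finite (R : ℝ) : {x : ℤ | ‖Int.castRingHom ℂ x‖ ≤ R}.Finite := by
  refine (Set.finite_Icc (-⌈R⌉) ⌈R⌉).subset fun x hx => ?_
  have h1 : ‖(x : ℂ)‖ ≤ R := hx
  rw [Complex.norm_intCast] at h1
  have h2 : (|(x : ℝ)|) ≤ ⌈R⌉ := h1.trans (Int.le_ceil R)
  have h3 : |x| ≤ ⌈R⌉ := by exact_mod_cast h2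
  exact ⟨(abs_le.1 h3).1, (abs_le.1 h3).2⟩

theorem finite_of_large {p : ℤ → Prop} (T : ℕ) (h : ∀ t : ℤ, (T : ℤ) ≤ |t| → p t) :
    {t | ¬ p t}.Finite := by
  refine (Set.finite_Icc (-(T : ℤ)) T).subset fun t ht => ?_
  by_contra hcon
  apply ht
  apply h
  by_contra h2
  push Not at h2
  rw [abs_lt] at h2
  exact hcon ⟨h2.1.le, h2.2.le⟩

/-- The families over the integers. -/
theorem int_family (p : ℕ) [hp : Fact p.Prime] {P : ℤ[X]} (hP : P.Monic)
    (hdeg : P.natDegree = (∏ i, g i).natDegree + 1) (hcop : IsCoprime P (∏ i, g i))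
    (hirr : ∀ i, Irreducible ((g i).map (Int.castRingHom ℝ)))
    (hgg : Pairwise fun i j => IsCoprime ((g i).map (Int.castRingHom ℚ))
      ((g j).map (Int.castRingHom ℚ)))
    [Fintype {i // (g i).natDegree = 1}] [Fintype {i // (g i).natDegree = 2}] :
    {t : ℤ | ¬ (Irreducible ((P - C t * ∏ i, g i).map (Int.castRingHom ℚ)) ∧
      ∀ (K : Type) [Field K] [NumberField K] (θ : K),
        IntermediateField.adjoin ℚ {θ} = ⊤ → aeval θ (P - C t * ∏ i, g i) = 0 →
        InfinitePlace.nrRealPlaces K = Fintype.card {i // (g i).natDegree = 1} + 1 ∧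
        InfinitePlace.nrComplexPlaces K = Fintype.card {i // (g i).natDegree = 2} ∧
        LeopoldtAt K p)}.Finite := by
  classical
  have hdeg' : (∏ i, g i).natDegree < P.natDegree := by omega
  have h1 := irreducible_cofinite (O := ℤ) (F := ℚ) (Int.castRingHom ℂ) (RingHom.injective_int _)
    int_bounded_finite P (∏ i, g i) hP hdeg (separable_prod_g hirr hgg) hcop
  obtain ⟨T, hT⟩ := int_signature hP hdeg hirr hgg
  have h2 := leopoldt_cofinite (O := ℤ) (F := ℚ) p hP hdeg' hcop g
    (fun i => by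
      have := (hirr i).natDegree_pos
      rwa [natDegree_map_int] at this)
    (fun i => Finset.dvd_prod_of_mem g (Finset.mem_univ i))
    (fun i l hil => hgg hil)
  refine ((h1.union (finite_of_large T fun t ht => hT t ht)).union h2).subset fun t ht => ?_
  by_contra hcon
  rw [Set.mem_union, Set.mem_union, not_or, not_or] at hcon
  obtain ⟨⟨hc1, hc2⟩, hc3⟩ := hcon
  apply ht
  have hc1' : Irreducible ((P - C t * ∏ i, g i).map (Int.castRingHom ℚ)) := by
    by_contra h
    exact hc1 h
  have hc2' := not_not.1 hc2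
  refine ⟨hc1', fun K _ _ θ hgen hroot => ?_⟩
  have hmon : (P - C t * ∏ i, g i).Monic := monic_sub_mul hP hdeg' t
  have hnd : (P - C t * ∏ i, g i).natDegree = P.natDegree := natDegree_sub_mul hdeg' t
  have hfin : Module.finrank ℚ K = P.natDegree := by
    rw [finrank_of_irreducible hgen hmon hc1' hroot, hnd]
  obtain ⟨h3, h4, h5⟩ := hc2' K θ hgen hroot hfin
  refine ⟨h3, h4, ?_⟩
  by_contra hL
  apply hc3
  refine ⟨K, inferInstance, inferInstance, inferInstance, θ, ?_, hgen, hfin, h5.le, hL⟩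
  rw [aeval_map_algebraMap]
  exact hroot

/-- The family contains infinitely many pairwise non-isomorphic fields. -/
theorem int_family_infinite {P : ℤ[X]} (hP : P.Monic)
    (hdeg : P.natDegree = (∏ i, g i).natDegree + 1) (hcop : IsCoprime P (∏ i, g i))
    (hirr : ∀ i, Irreducible ((g i).map (Int.castRingHom ℝ)))
    (hgg : Pairwise fun i j => IsCoprime ((g i).map (Int.castRingHom ℚ))
      ((g j).map (Int.castRingHom ℚ))) (hne : Nonempty ι) (k : ℕ)
    (L : Fin k → Type) [∀ i, Field (L i)] [∀ i, NumberField (L i)] (t₀ : ℤ) :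
    ∃ t : ℤ, t₀ ≤ t ∧ ∀ (K : Type) [Field K] [NumberField K] (θ : K),
        IntermediateField.adjoin ℚ {θ} = ⊤ → aeval θ (P - C t * ∏ i, g i) = 0 →
        ∀ i, IsEmpty (K ≃+* L i) := by
  classical
  have hdeg' : (∏ i, g i).natDegree < P.natDegree := by omega
  have h1 := irreducible_cofinite (O := ℤ) (F := ℚ) (Int.castRingHom ℂ) (RingHom.injective_int _)
    int_bounded_finite P (∏ i, g i) hP hdeg (separable_prod_g hirr hgg) hcop
  obtain ⟨B, hB⟩ := h1.bddAbove
  obtain ⟨N, T, hT⟩ := int_infinite hP hdeg hcop hirr hgg hne k L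
  obtain ⟨t, ht1, -, ht2⟩ := hT (max (max (B + 1) T) t₀) (fun t h _ => by
    have h2 : (T : ℤ) ≤ t := (le_max_right _ _).trans ((le_max_left _ _).trans h)
    exact h2.trans (le_abs_self t))
  refine ⟨t, (le_max_right _ _).trans ht1, fun K _ _ θ hgen hroot i => ?_⟩
  have hB1 : B + 1 ≤ t := (le_max_left _ _).trans ((le_max_left _ _).trans ht1)
  have hc1' : Irreducible ((P - C t * ∏ i, g i).map (Int.castRingHom ℚ)) := by
    by_contra h
    have := hB h
    omega
  have hmon : (P - C t * ∏ i, g i).Monic := monic_sub_mul hP hdeg' t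
  have hnd : (P - C t * ∏ i, g i).natDegree = P.natDegree := natDegree_sub_mul hdeg' t
  have hfin : Module.finrank ℚ K = P.natDegree := by
    rw [finrank_of_irreducible hgen hmon hc1' hroot, hnd]
  exact ht2 K θ hgen hroot hfin i

end Pool.Agent.Helper65_Leo
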