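import Pool.Agent.Helper65_Leo.Global

/-!
# Non-vanishing of minors of logarithms for analytic functions
-/

set_option autoImplicit false
set_option linter.unusedSectionVars false

open Polynomial Filter Topology

attribute [-instance] HahnSeries.powerSeriesAlgebra

namespace Pool.Agent.Helper65_Leo

variable {k : Type} [NontriviallyNormedField k] [CompleteSpace k] [CharZero k] [IsAlgClosed k]

theorem lau_det {ι : Type*} [Fintype ι] [DecidableEq ι] (M : ι → ι → k → k)
    (hM : ∀ i l, AnalyticAt k (M i l) 0) :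
    AnalyticAt k (fun s => (Matrix.of fun i l => M i l s).det) 0 ∧
    lau (fun s => (Matrix.of fun i l => M i l s).det) = (Matrix.of fun i l => lau (M i l)).det := by
  have h1 : (fun s => (Matrix.of fun i l => M i l s).det) = fun s =>
      ∑ σ : Equiv.Perm ι, ((Equiv.Perm.sign σ : ℤ) : k) * ∏ i, M (σ i) i s := by
    funext s
    rw [Matrix.det_apply']
    rfl
  have h2 : ∀ σ : Equiv.Perm ι, AnalyticAt k (fun s => ∏ i, M (σ i) i s) 0 := fun σ =>
    Finset.analyticAt_fun_prod _ fun i _ => hM _ _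
  have h3 : ∀ σ : Equiv.Perm ι,
      AnalyticAt k (fun s => ((Equiv.Perm.sign σ : ℤ) : k) * ∏ i, M (σ i) i s) 0 := fun σ =>
    analyticAt_const.fun_mul (h2 σ)
  rw [h1]
  refine ⟨Finset.analyticAt_fun_sum _ fun σ _ => h3 σ, ?_⟩
  rw [lau_sum _ _ fun σ _ => h3 σ, Matrix.det_apply']
  refine Finset.sum_congr rfl fun σ _ => ?_
  rw [lau_mul analyticAt_const (h2 σ), lau_const, lau_prod _ _ fun i _ => hM _ _]
  simp

/-- **Non-vanishing of a minor of logarithms.** Near `s = 0` let `φ j` be the branches of the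
algebraic function `x` defined by `A(x) = s ^ E B(x)`, let `g i` be pairwise coprime polynomials
all roots of which are roots of `B`, and let `L i j` be `c` times a logarithm of `g i (φ j)`.
Then some minor of `L` is not identically zero. -/
theorem exists_minor_not_eventually_zero (A B : k[X]) (hA : A.Monic) (hB : B ≠ 0)
    (hdeg : B.natDegree < A.natDegree)
    (hcop : ∀ x, A.eval x = 0 → B.eval x ≠ 0) (E : ℕ) (hE : 0 < E)
    (hdvd : ∀ m, 0 < m → m ≤ A.natDegree → m ∣ E)
    {J : Type} [Fintype J] (φ : J → k → k) (hJ : Fintype.card J = A.natDegree)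
    (hφ : ∀ j, AnalyticAt k (φ j) 0) (hφ0 : ∀ j, A.eval (φ j 0) = 0)
    (hφA : ∀ j, ∀ᶠ s in 𝓝 0, A.eval (φ j s) = s ^ E * B.eval (φ j s))
    (hφne : ∀ j l, j ≠ l → ¬ ∀ᶠ s in 𝓝 0, φ j s = φ l s)
    {ι : Type} [Fintype ι] [DecidableEq ι] (g : ι → k[X]) (hg : ∀ i, 0 < (g i).natDegree)
    (hgB : ∀ i x, (g i).eval x = 0 → B.eval x = 0)
    (hgg : ∀ i l, i ≠ l → ∀ x, (g i).eval x = 0 → (g l).eval x ≠ 0)
    (c : k) (hc : c ≠ 0) (L : ι → J → k → k) (hL : ∀ i j, AnalyticAt k (L i j) 0)
    (hL' : ∀ i j, ∀ᶠ s in 𝓝 0, deriv (L i j) s * (g i).eval (φ j s) =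
      c * deriv (fun s => (g i).eval (φ j s)) s) :
    ∃ e : ι → J, AnalyticAt k (fun s => (Matrix.of fun i l => L i (e l) s).det) 0 ∧
      ¬ ∀ᶠ s in 𝓝 0, (Matrix.of fun i l => L i (e l) s).det = 0 := by
  classical
  obtain ⟨J', hJ', ζ, z1, z2, z3, z4⟩ := exists_branches_infinity A B hA hB hdeg hcop E hE hdvd
  have hg0 : ∀ i, g i ≠ 0 := fun i h => by
    have := hg i
    rw [h] at this
    simp at this
  -- a root of each `g i`
  have hroot : ∀ i, ∃ b, (g i).eval b = 0 := by
    intro i
    have h1 : (g i).degree ≠ 0 := by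
      rw [degree_eq_natDegree (hg0 i)]
      have := hg i
      exact_mod_cast this.ne'
    obtain ⟨b, hb⟩ := IsAlgClosed.exists_root (g i) h1
    exact ⟨b, hb⟩
  choose b hb using hroot
  choose e' ψ y1 y2 y3 y4 using fun l => z4 (b l) (hgB l _ (hb l))
  have hne : ∀ i l, aeval (ζ (e' l)) (g i) ≠ 0 := by
    intro i l
    rw [y4]
    by_cases hil : i = l
    · subst hil
      exact (order_eval_of_eq (y1 i) (g i) (hg0 i) (by rw [y2]; exact hb i) (y3 i)).1
    · exact (order_eval_of_ne (y1 l) (g i) (by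
        rw [y2]; exact hgg l i (fun h => hil h.symm) _ (hb l))).1
  obtain ⟨e, he⟩ := formal_minor A B hA (degree_lt_degree hdeg) E (fun j => lau (φ j)) (by
      intro j l h
      by_contra hjl
      exact lau_ne_of_not_eventually (hφ j) (hφ l) (hφne j l hjl) h) hJ
    (fun j => lau_branch (hφ j) (hφA j)) ζ z2 z1 z3 g (fun i j =>
      (order_eval_of_ne (hφ j) (g i) fun h => hcop _ (hφ0 j) (hgB i _ h)).1)
    (fun i j => HahnSeries.C c⁻¹ * lau (L i j)) (by
      intro i j
      rw [← lau_const, ← lau_mul analyticAt_const (hL i j),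
        euler_lau (analyticAt_const.fun_mul (hL i j)), ← lau_eval (hφ j),
        euler_lau (analyticAt_aeval (hφ j) (g i))]
      have h0 : AnalyticAt k (fun s : k => s) 0 := analyticAt_id
      have h1 : AnalyticAt k (fun s => s * deriv (fun s => c⁻¹ * L i j s) s) 0 :=
        h0.fun_mul (analyticAt_const.fun_mul (hL i j)).deriv
      rw [← lau_mul h1 (analyticAt_aeval (hφ j) (g i))]
      apply lau_congr
      filter_upwards [hL' i j, (hL i j).eventually_analyticAt] with s h2 h3
      have h4 : deriv (fun s => c⁻¹ * L i j s) s = c⁻¹ * deriv (L i j) s :=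
        deriv_const_mul _ h3.differentiableAt
      rw [h4]
      have h5 : s * (c⁻¹ * deriv (L i j) s) * (g i).eval (φ j s) =
          s * c⁻¹ * (deriv (L i j) s * (g i).eval (φ j s)) := by ring
      rw [h5, h2]
      field_simp)
    e' hne (by
      have hdiag : (Matrix.of fun i l => ((aeval (ζ (e' l)) (g i)).order : k)) =
          Matrix.diagonal fun i => ((aeval (ζ (e' i)) (g i)).order : k) := by
        ext i l
        rw [Matrix.of_apply, Matrix.diagonal_apply]
        split_ifs with hil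
        · subst hil; rfl
        · rw [y4, (order_eval_of_ne (y1 l) (g i) (by
            rw [y2]; exact hgg l i (fun h => hil h.symm) _ (hb l))).2]
          simp
      rw [hdiag, Matrix.det_diagonal, Finset.prod_ne_zero_iff]
      intro i _
      rw [y4]
      have := (order_eval_of_eq (y1 i) (g i) (hg0 i) (by rw [y2]; exact hb i) (y3 i)).2
      exact_mod_cast this)
  obtain ⟨h6, h7⟩ := lau_det (fun i l => L i (e l)) (fun i l => hL i (e l))
  refine ⟨e, h6, fun hev => he ?_⟩
  have h8 : lau (fun s => (Matrix.of fun i l => L i (e l) s).det) = 0 := by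
    rw [lau_congr (g := fun _ => 0) hev, lau_const, map_zero]
  have h9 : (Matrix.of fun i l => HahnSeries.C c⁻¹ * lau (L i (e l))) =
      (HahnSeries.C c⁻¹ : LaurentSeries k) • (Matrix.of fun i l => lau (L i (e l))) := by
    ext1 i l
    simp [Matrix.smul_apply]
  rw [h9, Matrix.det_smul, ← h7, h8, mul_zero]

end Pool.Agent.Helper65_Leo
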