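import Pool.Agent.Helper65_Leo.IrredFin
import Pool.Agent.Helper85_Leo.Signature

/-!
# Signature of the fields `ℚ(θ)`, `P(θ) = t Q(θ)`, for large integers `t`
-/

set_option autoImplicit false
set_option linter.unusedSectionVars false

open Polynomial Filter Topology NumberField

namespace Pool.Agent.Helper65_Leo

/-- The conjugates of a primitive element are the roots of its minimal equation. -/
theorem exists_conj_equiv {K : Type} [Field K] [NumberField K] {θ : K}
    (hgen : IntermediateField.adjoin ℚ {θ} = ⊤) {f : ℤ[X]} (hroot : aeval θ f = 0)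
    {I : Type} [Fintype I] (x : I → ℂ) (hx : f.map (Int.castRingHom ℂ) = ∏ o, (X - C (x o)))
    (hcard : Fintype.card I = Module.finrank ℚ K) :
    ∃ e : (K →+* ℂ) ≃ I, ∀ σ, x (e σ) = σ θ := by
  classical
  have h1 : ∀ σ : K →+* ℂ, ∃ o, x o = σ θ := by
    intro σ
    have h2 : (f.map (Int.castRingHom ℂ)).eval (σ θ) = 0 := by
      rw [eval_map]
      have h3 : σ (aeval θ f) = eval₂ (Int.castRingHom ℂ) (σ θ) f := by
        rw [aeval_def, hom_eval₂]
        congr 1
        exact RingHom.ext_int _ _
      rw [← h3, hroot, map_zero]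
    rw [hx, eval_prod, Finset.prod_eq_zero_iff] at h2
    obtain ⟨o, -, ho⟩ := h2
    refine ⟨o, ?_⟩
    simp only [eval_sub, eval_X, eval_C, sub_eq_zero] at ho
    exact ho.symm
  choose e he using h1
  have hinj : Function.Injective e := by
    intro σ τ h
    apply Helper85_Leo.embedding_injective θ hgen
    change σ θ = τ θ
    rw [← he σ, ← he τ, h]
  have hbij : Function.Bijective e := by
    rw [Fintype.bijective_iff_injective_and_card]
    exact ⟨hinj, by rw [Embeddings.card, hcard]⟩
  exact ⟨Equiv.ofBijective e hbij, he⟩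

/-- The number of real places is the number of real conjugates. -/
theorem nrRealPlaces_eq {K : Type} [Field K] [NumberField K] {θ : K}
    (hgen : IntermediateField.adjoin ℚ {θ} = ⊤) {I : Type} [Fintype I] (x : I → ℂ)
    (e : (K →+* ℂ) ≃ I) (he : ∀ σ, x (e σ) = σ θ)
    [Fintype {o : I // (starRingEnd ℂ) (x o) = x o}] :
    InfinitePlace.nrRealPlaces K = Fintype.card {o : I // (starRingEnd ℂ) (x o) = x o} := by
  classical
  rw [← InfinitePlace.card_real_embeddings]
  refine Fintype.card_congr (e.subtypeEquiv fun σ => ?_)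
  rw [he, ComplexEmbedding.isReal_iff]
  constructor
  · intro h
    have h2 := RingHom.congr_fun h θ
    rwa [ComplexEmbedding.conjugate_coe_eq] at h2
  · intro h
    apply Helper85_Leo.embedding_injective θ hgen
    change ComplexEmbedding.conjugate σ θ = σ θ
    rw [ComplexEmbedding.conjugate_coe_eq]
    exact h

/-- Complex conjugation permutes the roots of `P - t Q` in the same way as the roots of `Q`. -/
theorem conj_roots {W : Finset ℂ} {ε : ℝ} (x : Option W → ℂ) (hinj : Function.Injective x)
    (hstab : ∀ o, ∃ o', x o' = (starRingEnd ℂ) (x o))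
    (hWstab : ∀ w : W, (starRingEnd ℂ) (w : ℂ) ∈ W)
    (hnear : ∀ w : W, ‖x (some w) - w‖ < ε)
    (hsep : ∀ w w' : W, w ≠ w' → 2 * ε ≤ ‖(w : ℂ) - w'‖)
    (hbig : ∀ w : W, ‖(w : ℂ)‖ + ε ≤ ‖x none‖) :
    (∀ w : W, (starRingEnd ℂ) (x (some w)) = x (some ⟨_, hWstab w⟩)) ∧
      (starRingEnd ℂ) (x none) = x none := by
  have h1 : ∀ w : W, (starRingEnd ℂ) (x (some w)) = x (some ⟨_, hWstab w⟩) := by
    intro w
    obtain ⟨o', ho'⟩ := hstab (some w)
    have h2 : ‖(starRingEnd ℂ) (x (some w)) - (starRingEnd ℂ) (w : ℂ)‖ < ε := by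
      rw [← map_sub, Complex.norm_conj]
      exact hnear w
    cases o' with
    | none =>
      exfalso
      rw [← ho'] at h2
      have h3 := hbig w
      have h4 : ‖x none‖ ≤ ‖x none - (starRingEnd ℂ) (w : ℂ)‖ + ‖(starRingEnd ℂ) (w : ℂ)‖ := by
        have h5 : x none = (x none - (starRingEnd ℂ) (w : ℂ)) + (starRingEnd ℂ) (w : ℂ) := by ring
        conv_lhs => rw [h5]
        exact norm_add_le _ _
      rw [Complex.norm_conj] at h4
      linarith
    | some w' =>
      rw [← ho']
      congr 2
      by_contra hne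
      have h3 := hsep w' ⟨_, hWstab w⟩ hne
      have h4 := hnear w'
      rw [← ho'] at h2
      have h5 : (w' : ℂ) - (starRingEnd ℂ) (w : ℂ) =
          (x (some w') - (starRingEnd ℂ) (w : ℂ)) - (x (some w') - w') := by ring
      change 2 * ε ≤ ‖(w' : ℂ) - (starRingEnd ℂ) (w : ℂ)‖ at h3
      rw [h5] at h3
      have h6 := norm_sub_le (x (some w') - (starRingEnd ℂ) (w : ℂ)) (x (some w') - w')
      linarith
  refine ⟨h1, ?_⟩
  obtain ⟨o', ho'⟩ := hstab none
  cases o' with
  | none => exact ho'.symm
  | some w' =>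
    exfalso
    have h2 := h1 w'
    rw [ho', Complex.conj_conj] at h2
    exact absurd (hinj h2) (by simp)

end Pool.Agent.Helper65_Leo
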