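import Pool.Agent.Helper65_Leo.Laurent

/-!
# Laurent series of analytic functions
-/

set_option autoImplicit false
set_option linter.unusedSectionVars false

open Polynomial Filter Topology

attribute [-instance] HahnSeries.powerSeriesAlgebra

namespace Pool.Agent.Helper65_Leo

variable {k : Type*} [NontriviallyNormedField k] [CompleteSpace k] [CharZero k]

/-- The Taylor series at `0`. -/
noncomputable def taylorSer (f : k → k) : PowerSeries k :=
  PowerSeries.mk fun n => iteratedDeriv n f 0 / (n.factorial : k)

/-- The Taylor series at `0` as a Laurent series. -/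
noncomputable def lau (f : k → k) : LaurentSeries k := HahnSeries.ofPowerSeries ℤ k (taylorSer f)

theorem coeff_taylorSer (f : k → k) (n : ℕ) :
    PowerSeries.coeff n (taylorSer f) = iteratedDeriv n f 0 / (n.factorial : k) :=
  PowerSeries.coeff_mk _ _

theorem coeff_lau (f : k → k) (i : ℤ) : (lau f).coeff i =
    if i < 0 then 0 else iteratedDeriv i.natAbs f 0 / (i.natAbs.factorial : k) := by
  rw [← coeff_taylorSer]
  exact PowerSeries.coeff_coe _ i

theorem lau_congr {f g : k → k} (h : f =ᶠ[𝓝 0] g) : lau f = lau g := by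
  unfold lau
  congr 1
  ext n
  rw [coeff_taylorSer, coeff_taylorSer, h.iteratedDeriv_eq n]

theorem lau_const (c : k) : lau (fun _ => c) = HahnSeries.C c := by
  unfold lau
  have : taylorSer (fun _ : k => c) = PowerSeries.C c := by
    ext n
    rw [coeff_taylorSer, PowerSeries.coeff_C]
    cases n with
    | zero => simp
    | succ n =>
      rw [if_neg (Nat.succ_ne_zero n)]
      rw [iteratedDeriv_const, if_neg (Nat.succ_ne_zero n), zero_div]
  rw [this, HahnSeries.ofPowerSeries_C]

theorem lau_id : lau (fun s : k => s) = HahnSeries.single (1 : ℤ) (1 : k) := by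
  unfold lau
  have : taylorSer (fun s : k => s) = PowerSeries.X := by
    ext n
    rw [coeff_taylorSer, PowerSeries.coeff_X]
    rw [iteratedDeriv_fun_id_zero]
    split_ifs with h
    · subst h
      simp
    · simp
  rw [this, HahnSeries.ofPowerSeries_X]

theorem lau_add {f g : k → k} (hf : AnalyticAt k f 0) (hg : AnalyticAt k g 0) :
    lau (fun s => f s + g s) = lau f + lau g := by
  unfold lau
  rw [← map_add]
  congr 1
  ext n
  rw [map_add, coeff_taylorSer, coeff_taylorSer, coeff_taylorSer, ← add_div]
  congr 1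
  exact iteratedDeriv_add (hf.contDiffAt) (hg.contDiffAt)

theorem lau_mul {f g : k → k} (hf : AnalyticAt k f 0) (hg : AnalyticAt k g 0) :
    lau (fun s => f s * g s) = lau f * lau g := by
  unfold lau
  rw [← map_mul]
  congr 1
  ext n
  rw [coeff_taylorSer, PowerSeries.coeff_mul]
  have h1 : iteratedDeriv n (fun s => f s * g s) 0 = _ :=
    iteratedDeriv_mul (hf.contDiffAt) (hg.contDiffAt)
  rw [h1, Finset.Nat.sum_antidiagonal_eq_sum_range_succ_mk, Finset.sum_div]
  refine Finset.sum_congr rfl fun i hi => ?_
  rw [coeff_taylorSer, coeff_taylorSer, Nat.cast_choose k (by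
    have := Finset.mem_range.1 hi; omega)]
  have h2 : (n.factorial : k) ≠ 0 := by exact_mod_cast n.factorial_ne_zero
  have h3 : (i.factorial : k) ≠ 0 := by exact_mod_cast i.factorial_ne_zero
  have h4 : ((n - i).factorial : k) ≠ 0 := by exact_mod_cast (n - i).factorial_ne_zero
  field_simp

theorem lau_pow {f : k → k} (hf : AnalyticAt k f 0) (n : ℕ) :
    lau (fun s => f s ^ n) = lau f ^ n := by
  induction n with
  | zero =>
    simp only [pow_zero]
    rw [lau_const, map_one]
  | succ n ih =>
    simp only [pow_succ]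
    rw [lau_mul (hf.fun_pow n) hf, ih]

theorem lau_sum {ι : Type*} (S : Finset ι) (f : ι → k → k) (hf : ∀ i ∈ S, AnalyticAt k (f i) 0) :
    lau (fun s => ∑ i ∈ S, f i s) = ∑ i ∈ S, lau (f i) := by
  classical
  induction S using Finset.induction_on with
  | empty =>
    simp only [Finset.sum_empty]
    rw [lau_const, map_zero]
  | insert i S his ih =>
    simp only [Finset.sum_insert his]
    rw [lau_add (hf i (Finset.mem_insert_self _ _)), ih fun j hj =>
      hf j (Finset.mem_insert_of_mem hj)]
    exact Finset.analyticAt_fun_sum S fun j hj => hf j (Finset.mem_insert_of_mem hj)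

theorem lau_prod {ι : Type*} (S : Finset ι) (f : ι → k → k) (hf : ∀ i ∈ S, AnalyticAt k (f i) 0) :
    lau (fun s => ∏ i ∈ S, f i s) = ∏ i ∈ S, lau (f i) := by
  classical
  induction S using Finset.induction_on with
  | empty =>
    simp only [Finset.prod_empty]
    rw [lau_const, map_one]
  | insert i S his ih =>
    simp only [Finset.prod_insert his]
    rw [lau_mul (hf i (Finset.mem_insert_self _ _)), ih fun j hj =>
      hf j (Finset.mem_insert_of_mem hj)]
    exact Finset.analyticAt_fun_prod S fun j hj => hf j (Finset.mem_insert_of_mem hj)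

theorem analyticAt_aeval {f : k → k} {x : k} (hf : AnalyticAt k f x) (q : k[X]) :
    AnalyticAt k (fun s => q.eval (f s)) x := by
  induction q using Polynomial.induction_on' with
  | add p q hp hq => simp only [eval_add]; exact hp.fun_add hq
  | monomial n a => simp only [eval_monomial]; exact analyticAt_const.fun_mul (hf.fun_pow n)

theorem lau_eval {f : k → k} (hf : AnalyticAt k f 0) (q : k[X]) :
    lau (fun s => q.eval (f s)) = aeval (lau f) q := by
  induction q using Polynomial.induction_on' with
  | add p q hp hq =>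
    simp only [eval_add]
    rw [lau_add (analyticAt_aeval hf p) (analyticAt_aeval hf q), hp, hq, map_add]
  | monomial n a =>
    simp only [eval_monomial]
    rw [lau_mul analyticAt_const (hf.fun_pow n), lau_const, lau_pow hf, aeval_monomial,
      HahnSeries.C_eq_algebraMap]

theorem eventually_eq_zero_of_lau {f : k → k} (hf : AnalyticAt k f 0) (h : lau f = 0) :
    ∀ᶠ s in 𝓝 0, f s = 0 := by
  rw [← analyticOrderAt_eq_top]
  by_contra hne
  obtain ⟨n, hn⟩ := ENat.ne_top_iff_exists.1 hne
  have h1 := ((analyticOrderAt_eq_nat_iff_iteratedDeriv_eq_zero hf).1 hn.symm).2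
  apply h1
  have h2 := congrArg (fun g : LaurentSeries k => g.coeff n) h
  simp only [coeff_lau, HahnSeries.coeff_zero] at h2
  have h3 : ¬ (n : ℤ) < 0 := by omega
  rw [if_neg h3, Int.natAbs_natCast] at h2
  have h4 : (n.factorial : k) ≠ 0 := by exact_mod_cast n.factorial_ne_zero
  exact (div_eq_zero_iff.1 h2).resolve_right h4

theorem order_lau {f : k → k} (hf : AnalyticAt k f 0) (n : ℕ) (h : analyticOrderAt f 0 = n) :
    lau f ≠ 0 ∧ (lau f).order = n := by
  have h1 := (analyticOrderAt_eq_nat_iff_iteratedDeriv_eq_zero hf).1 h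
  have hn : (lau f).coeff n ≠ 0 := by
    rw [coeff_lau, if_neg (by omega), Int.natAbs_natCast]
    have h4 : (n.factorial : k) ≠ 0 := by exact_mod_cast n.factorial_ne_zero
    exact div_ne_zero h1.2 h4
  have hne : lau f ≠ 0 := by
    intro h0
    rw [h0] at hn
    exact hn rfl
  refine ⟨hne, le_antisymm (HahnSeries.order_le_of_coeff_ne_zero hn) ?_⟩
  by_contra hlt
  push Not at hlt
  have h2 := HahnSeries.coeff_order_eq_zero.not.2 hne
  apply h2
  rw [coeff_lau]
  split_ifs with h3
  · rfl
  · rw [h1.1 _ (by omega), zero_div]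

/-- Euler derivation and derivative. -/
theorem euler_lau {f : k → k} (hf : AnalyticAt k f 0) :
    euler k (lau f) = lau (fun s => s * deriv f s) := by
  have h0 : AnalyticAt k (fun s : k => s) 0 := analyticAt_id
  rw [lau_mul h0 hf.deriv, lau_id]
  ext n
  rw [coeff_euler, HahnSeries.coeff_single_mul, one_mul, coeff_lau, coeff_lau]
  rcases lt_trichotomy n 0 with h | h | h
  · rw [if_pos h, if_pos (by omega), mul_zero]
  · subst h
    simp
  · rw [if_neg (by omega), if_neg (by omega)]
    obtain ⟨m, rfl⟩ : ∃ m : ℕ, n = (m : ℤ) + 1 := ⟨(n - 1).toNat, by omega⟩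
    have h1 : ((m : ℤ) + 1).natAbs = m + 1 := by omega
    have h2 : ((m : ℤ) + 1 - 1).natAbs = m := by omega
    rw [h1, h2, iteratedDeriv_succ', Nat.factorial_succ]
    have h4 : (m.factorial : k) ≠ 0 := by exact_mod_cast m.factorial_ne_zero
    have h5 : ((m + 1 : ℕ) : k) ≠ 0 := by exact_mod_cast Nat.succ_ne_zero m
    push_cast at h5 ⊢
    field_simp

end Pool.Agent.Helper65_Leo
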