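import Pool.Agent.Helper65_Leo.Kolchin

/-!
# Transfer of determinants of logarithms between two completions

`K` is a field with two differential extensions `F` and `G`, the polynomial `f` over `K` splits
with simple roots in both. Logarithms in `F` of polynomials in the roots have a non-zero minor
as soon as the residues in `G` of the corresponding logarithmic derivatives do.
-/

set_option autoImplicit false
set_option linter.unusedSectionVars false

open Polynomial

namespace Pool.Agent.Helper65_Leo

section der

variable {k K F : Type*} [Field k] [Field K] [Field F] [Algebra k K] [Algebra k F] [Algebra K F]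
  [IsScalarTower k K F]

/-- A derivation applied to the value of a polynomial. -/
theorem der_aeval (D : Derivation k F F) (d : K → K)
    (hd : ∀ a, D (algebraMap K F a) = algebraMap K F (d a)) (x : F) (f : K[X]) :
    D (aeval x f) = aeval x (∑ n ∈ f.support, monomial n (d (f.coeff n))) +
      aeval x (derivative f) * D x := by
  have h1 : aeval x f = ∑ n ∈ f.support, algebraMap K F (f.coeff n) * x ^ n := by
    rw [aeval_def, eval₂_eq_sum, Polynomial.sum]
  have h2 : aeval x (derivative f) =
      ∑ n ∈ f.support, algebraMap K F (f.coeff n) * (n * x ^ (n - 1)) := by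
    rw [derivative_apply, Polynomial.sum, map_sum]
    refine Finset.sum_congr rfl fun n _ => ?_
    rw [map_mul, aeval_C, map_mul, map_pow, aeval_X, map_natCast]
    ring
  rw [h1, h2, map_sum, map_sum, Finset.sum_mul, ← Finset.sum_add_distrib]
  refine Finset.sum_congr rfl fun n _ => ?_
  rw [aeval_monomial, Derivation.leibniz, Derivation.leibniz_pow, hd]
  simp only [smul_eq_mul, nsmul_eq_mul]
  ring

end der

variable {k K F G : Type*} [Field k] [Field K] [Field F] [Field G]
  [Algebra k K] [Algebra k F] [Algebra k G] [Algebra K F] [Algebra K G]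
  [IsScalarTower k K F] [IsScalarTower k K G]

/-- The value of the derivation on elements generated by roots. -/
theorem exists_der_adjoin (D : Derivation k F F) (E : Derivation k G G)
    (d : K → K) (hdF : ∀ a, D (algebraMap K F a) = algebraMap K F (d a))
    (hdG : ∀ a, E (algebraMap K G a) = algebraMap K G (d a))
    (f : K[X]) (hsep : f.Separable)
    (τ : IntermediateField.adjoin K (f.rootSet F) →ₐ[K] G)
    (x : F) (hx : x ∈ IntermediateField.adjoin K (f.rootSet F)) :
    ∃ y : IntermediateField.adjoin K (f.rootSet F), (y : F) = D x ∧ τ y = E (τ ⟨x, hx⟩) := by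
  induction hx using IntermediateField.adjoin_induction with
  | mem x hx =>
    have hx' : x ∈ IntermediateField.adjoin K (f.rootSet F) :=
      IntermediateField.subset_adjoin K _ hx
    have hroot : aeval x f = 0 := (mem_rootSet.1 hx).2
    set g : K[X] := ∑ n ∈ f.support, monomial n (d (f.coeff n)) with hg
    have h1 := der_aeval D d hdF x f
    rw [hroot, map_zero, ← hg] at h1
    have h2 : aeval x (derivative f) ≠ 0 := hsep.aeval_derivative_ne_zero hroot
    have hrootA : aeval (⟨x, hx'⟩ : IntermediateField.adjoin K (f.rootSet F)) f = 0 := by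
      apply Subtype.ext
      have := aeval_algHom_apply (IntermediateField.adjoin K (f.rootSet F)).val
        (⟨x, hx'⟩ : IntermediateField.adjoin K (f.rootSet F)) f
      rw [ZeroMemClass.coe_zero, ← hroot]
      exact this.symm
    have hrootG : aeval (τ ⟨x, hx'⟩) f = 0 := by
      rw [aeval_algHom_apply, hrootA, map_zero]
    have h3 := der_aeval E d hdG (τ ⟨x, hx'⟩) f
    rw [hrootG, map_zero, ← hg] at h3
    have h4 : aeval (τ ⟨x, hx'⟩) (derivative f) ≠ 0 := hsep.aeval_derivative_ne_zero hrootG
    refine ⟨-(aeval (⟨x, hx'⟩ : IntermediateField.adjoin K (f.rootSet F)) g /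
      aeval (⟨x, hx'⟩ : IntermediateField.adjoin K (f.rootSet F)) (derivative f)), ?_, ?_⟩
    · have h5 : ∀ q : K[X], ((aeval (⟨x, hx'⟩ : IntermediateField.adjoin K (f.rootSet F)) q :
          IntermediateField.adjoin K (f.rootSet F)) : F) = aeval x q := by
        intro q
        exact (aeval_algHom_apply (IntermediateField.adjoin K (f.rootSet F)).val
          (⟨x, hx'⟩ : IntermediateField.adjoin K (f.rootSet F)) q).symm
      push_cast
      rw [h5, h5]
      field_simp
      linear_combination h1
    · rw [map_neg, map_div₀, ← aeval_algHom_apply, ← aeval_algHom_apply]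
      field_simp
      linear_combination h3
  | algebraMap a =>
    refine ⟨algebraMap K _ (d a), ?_, ?_⟩
    · rw [hdF]; rfl
    · have h1 : τ ⟨algebraMap K F a, IntermediateField.algebraMap_mem _ a⟩ = algebraMap K G a :=
        τ.commutes a
      rw [h1, hdG, τ.commutes]
  | add x y hx hy ihx ihy =>
    obtain ⟨a, ha1, ha2⟩ := ihx
    obtain ⟨b, hb1, hb2⟩ := ihy
    refine ⟨a + b, ?_, ?_⟩
    · push_cast
      rw [ha1, hb1, map_add]
    · have h1 : (⟨x + y, add_mem hx hy⟩ : IntermediateField.adjoin K (f.rootSet F)) =
        ⟨x, hx⟩ + ⟨y, hy⟩ := rfl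
      rw [h1, map_add, map_add, map_add, ha2, hb2]
  | inv x hx ihx =>
    obtain ⟨a, ha1, ha2⟩ := ihx
    refine ⟨-(⟨x, hx⟩⁻¹ : IntermediateField.adjoin K (f.rootSet F)) ^ 2 * a, ?_, ?_⟩
    · push_cast
      rw [ha1, Derivation.leibniz_inv, smul_eq_mul]
    · have h1 : (⟨x⁻¹, inv_mem hx⟩ : IntermediateField.adjoin K (f.rootSet F)) =
        ⟨x, hx⟩⁻¹ := rfl
      rw [h1, map_mul, map_neg, map_pow, map_inv₀, Derivation.leibniz_inv, ha2, smul_eq_mul]
  | mul x y hx hy ihx ihy =>
    obtain ⟨a, ha1, ha2⟩ := ihx
    obtain ⟨b, hb1, hb2⟩ := ihy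
    refine ⟨⟨x, hx⟩ * b + ⟨y, hy⟩ * a, ?_, ?_⟩
    · push_cast
      rw [ha1, hb1, Derivation.leibniz]
      simp only [smul_eq_mul]
    · have h1 : (⟨x * y, mul_mem hx hy⟩ : IntermediateField.adjoin K (f.rootSet F)) =
        ⟨x, hx⟩ * ⟨y, hy⟩ := rfl
      rw [h1, map_mul, Derivation.leibniz, map_add, map_mul, map_mul, ha2, hb2]
      simp only [smul_eq_mul]

/-- **Transfer of nonvanishing of minors.** -/
theorem exists_minor_ne_zero [CharZero K] (D : Derivation k F F) (E : Derivation k G G)
    (hK : ∀ a : K, ∃ b : K, D (algebraMap K F a) = algebraMap K F b ∧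
      E (algebraMap K G a) = algebraMap K G b)
    (hconst : ∀ x : F, D x = 0 → x ∈ Set.range (algebraMap k F))
    (r : G →ₗ[k] k) (hr : ∀ x, r (E x) = 0)
    (f : K[X]) {J J' : Type*} [Fintype J] [Fintype J']
    (ξ : J → F) (hξ : Function.Injective ξ) (hfF : f.map (algebraMap K F) = ∏ j, (X - C (ξ j)))
    (ζ : J' → G) (hfG : f.map (algebraMap K G) = ∏ j, (X - C (ζ j)))
    {ι : Type*} [Fintype ι] [DecidableEq ι] (u : ι → k[X])
    (hu : ∀ i j, aeval (ξ j) (u i) ≠ 0)
    (L : ι → J → F) (hL : ∀ i j, D (L i j) * aeval (ξ j) (u i) = D (aeval (ξ j) (u i)))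
    (e' : ι → J')
    (hdet : (Matrix.of fun i l =>
      r (E (aeval (ζ (e' l)) (u i)) / aeval (ζ (e' l)) (u i))).det ≠ 0) :
    ∃ e : ι → J, (Matrix.of fun i l => L i (e l)).det ≠ 0 := by
  classical
  choose d hdF hdG using hK
  have hsepF : (f.map (algebraMap K F)).Separable := by
    rw [hfF]; exact separable_prod_X_sub_C_iff.2 hξ
  have hsep : f.Separable := (separable_map _).1 hsepF
  have hf0 : f ≠ 0 := hsep.ne_zero
  have hsplitF : (f.map (algebraMap K F)).Splits := by
    rw [hfF]; exact Splits.prod fun j _ => Splits.X_sub_C _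
  have hsplitG : (f.map (algebraMap K G)).Splits := by
    rw [hfG]; exact Splits.prod fun j _ => Splits.X_sub_C _
  set A := IntermediateField.adjoin K (f.rootSet F) with hA
  have hinst : IsSplittingField K A f := IntermediateField.adjoin_rootSet_isSplittingField hsplitF
  let τ : A →ₐ[K] G := IsSplittingField.lift A f hsplitG
  have hkey : ∀ x : A, ∃ y : A, (y : F) = D (x : F) ∧ τ y = E (τ x) := by
    intro x
    exact exists_der_adjoin D E d hdF hdG f hsep τ x x.2
  choose dA hdA1 hdA2 using hkey
  -- the derivation on `A`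
  let δA : Derivation k A A :=
    { toFun := dA
      map_add' := by
        intro x y
        apply Subtype.ext
        push_cast
        rw [hdA1, hdA1, hdA1]
        push_cast
        rw [map_add]
      map_smul' := by
        intro c x
        apply Subtype.ext
        rw [RingHom.id_apply]
        have h1 : ∀ z : A, ((c • z : A) : F) = c • (z : F) := fun z => rfl
        rw [hdA1, h1, h1, hdA1, Derivation.map_smul]
      map_one_eq_zero' := by
        apply Subtype.ext
        change ((dA 1 : A) : F) = 0
        rw [hdA1]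
        simp
      leibniz' := by
        intro x y
        apply Subtype.ext
        change ((dA (x * y) : A) : F) = _
        rw [hdA1]
        push_cast
        rw [Derivation.leibniz]
        simp only [smul_eq_mul]
        change _ = ((x * dA y + y * dA x : A) : F)
        push_cast
        rw [hdA1, hdA1] }
  have hδA : ∀ x : A, D (algebraMap A F x) = algebraMap A F (δA x) := fun x => (hdA1 x).symm
  -- the residue
  let res : A →ₗ[k] k := r ∘ₗ (τ.restrictScalars k).toLinearMap
  have hresA : ∀ x : A, res (δA x) = 0 := by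
    intro x
    change r (τ (dA x)) = 0
    rw [hdA2, hr]
  -- the roots in `A`
  have hrootF : ∀ j, aeval (ξ j) f = 0 := by
    intro j
    have h1 : eval (ξ j) (f.map (algebraMap K F)) = 0 := by
      rw [hfF, eval_prod]
      exact Finset.prod_eq_zero (Finset.mem_univ j) (by simp)
    rwa [eval_map_algebraMap] at h1
  have hmem : ∀ j, ξ j ∈ A := fun j =>
    IntermediateField.subset_adjoin K _ (mem_rootSet.2 ⟨hf0, hrootF j⟩)
  let ξA : J → A := fun j => ⟨ξ j, hmem j⟩
  have hval : ∀ j (q : k[X]), ((aeval (ξA j) q : A) : F) = aeval (ξ j) q := by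
    intro j q
    exact (aeval_algHom_apply (A.val.restrictScalars k) (ξA j) q).symm
  have hvalK : ∀ j (q : K[X]), ((aeval (ξA j) q : A) : F) = aeval (ξ j) q := by
    intro j q
    exact (aeval_algHom_apply A.val (ξA j) q).symm
  have hπ : ∀ j, ∃ j', τ (ξA j) = ζ j' := by
    intro j
    have h1 : aeval (ξA j) f = 0 := by
      apply Subtype.ext
      rw [hvalK, hrootF j]; rfl
    have h2 : aeval (τ (ξA j)) f = 0 := by rw [aeval_algHom_apply, h1, map_zero]
    have h3 : eval (τ (ξA j)) (f.map (algebraMap K G)) = 0 := by rwa [eval_map_algebraMap]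
    rw [hfG, eval_prod, Finset.prod_eq_zero_iff] at h3
    obtain ⟨j', _, h4⟩ := h3
    refine ⟨j', ?_⟩
    simpa [sub_eq_zero] using h4
  choose π hπ using hπ
  have hπinj : Function.Injective π := by
    intro j l hjl
    apply hξ
    have h1 : τ (ξA j) = τ (ξA l) := by rw [hπ, hπ, hjl]
    have h2 := τ.injective h1
    exact congrArg (fun z : A => (z : F)) h2
  have hcard : Fintype.card J = Fintype.card J' := by
    have h1 := congrArg natDegree hfF
    have h2 := congrArg natDegree hfG
    rw [natDegree_map, natDegree_finsetProd_X_sub_C_eq_card, Finset.card_univ] at h1 h2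
    omega
  have hπbij : Function.Bijective π := (Fintype.bijective_iff_injective_and_card π).2
    ⟨hπinj, hcard⟩
  choose e he using fun l => hπbij.2 (e' l)
  refine ⟨e, fun hcon => hdet ?_⟩
  let ω : ι → ι → A := fun i l => δA (aeval (ξA (e l)) (u i)) / aeval (ξA (e l)) (u i)
  have htower : IsScalarTower k A F := IsScalarTower.of_algebraMap_eq fun _ => rfl
  have hcharA : CharZero A := (RingHom.charZero_iff (algebraMap K A).injective).1 inferInstance
  have h := det_res_eq_zero (k := k) (A := A) (F := F) δA D hδA hconst res hresA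
    (fun i l => L i (e l)) ω (by
      intro i l
      have h1 := hL i (e l)
      have h2 := hu i (e l)
      change _ = ((ω i l : A) : F)
      simp only [ω]
      push_cast
      rw [hval]
      have h3 : ((δA (aeval (ξA (e l)) (u i)) : A) : F) = D (aeval (ξ (e l)) (u i)) := by
        change ((dA _ : A) : F) = _
        rw [hdA1, hval]
      rw [h3, ← h1]
      field_simp) hcon
  rw [← h]
  congr 1
  ext i l
  simp only [Matrix.of_apply]
  change _ = r (τ (ω i l))
  simp only [ω]
  have h4 : τ (aeval (ξA (e l)) (u i)) = aeval (ζ (e' l)) (u i) := by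
    have h5 := aeval_algHom_apply (τ.restrictScalars k) (ξA (e l)) (u i)
    have h6 : (τ.restrictScalars k) (ξA (e l)) = ζ (e' l) := by
      change τ (ξA (e l)) = _
      rw [hπ, he]
    rw [h6] at h5
    exact h5.symm
  have h7 : τ (δA (aeval (ξA (e l)) (u i))) = E (aeval (ζ (e' l)) (u i)) := by
    change τ (dA _) = _
    rw [hdA2, h4]
  rw [map_div₀ τ, h4, h7]

end Pool.Agent.Helper65_Leo
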